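import Pool.Agent.H98.OD.Spx

/-!
# Edges of a smooth polytope and their end points

`Adj D v i q L τ`: the edge of `P` at the vertex `v` with direction `e v i` ends in the vertex
`q = v + L e v i`; the facets `l ≠ i` at `v` are the facets `τ l` at `q`, and `e q (τ i) = - e v i`.
-/

namespace H98OD

open H66OD H19OZ Matrix

variable {d : ℕ} {P : Set (Fin d → ℝ)}

/-- Slope of the facet `a` along the edge `l` at `v`. -/
def cf (D : SD P) (a : (Fin d → ℤ) × Fin d) (v : Fin d → ℤ) (l : Fin d) : ℤ :=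
  D.u a.1 a.2 ⬝ᵥ D.e v l

theorem cf_real (D : SD P) (a : (Fin d → ℤ) × Fin d) (v : Fin d → ℤ) (l : Fin d) :
    toR (D.u a.1 a.2) ⬝ᵥ toR (D.e v l) = ((cf D a v l : ℤ) : ℝ) := toR_dot _ _

theorem cf_self (D : SD P) {v : Fin d → ℤ} (hv : v ∈ D.Vt) (i j : Fin d) :
    cf D (v, i) v j = if i = j then 1 else 0 := D.dual v hv i j

theorem pf_expand (D : SD P) (a : (Fin d → ℤ) × Fin d) {v : Fin d → ℤ} (hv : v ∈ D.Vt)
    (z : Fin d → ℝ) : pf D a z = pf D a (toR v) + ∑ l, pf D (v, l) z * (cf D a v l : ℝ) := by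
  rw [pf_exp D a hv z]
  congr 1
  refine Finset.sum_congr rfl fun l _ => ?_
  rw [cf_real]

theorem pf_smul_add (D : SD P) (a : (Fin d → ℤ) × Fin d) (v : Fin d → ℤ) (z : Fin d → ℝ) (t : ℝ)
    (l : Fin d) : pf D a (z + t • toR (D.e v l)) = pf D a z + t * (cf D a v l : ℝ) := by
  rw [pf_add, dotProduct_smul, smul_eq_mul, cf_real]

/-- The edge `i` at `v` ends in the facet `a`. -/
def End (D : SD P) (v : Fin d → ℤ) (i : Fin d) (a : (Fin d → ℤ) × Fin d) : Prop :=
  ∃ t : ℝ, 0 < t ∧ toR v + t • toR (D.e v i) ∈ P ∧ pf D a (toR v + t • toR (D.e v i)) = 0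

/-- The edge `i` at `v` ends in the vertex `q`. -/
structure Adj (D : SD P) (v : Fin d → ℤ) (i : Fin d) (q : Fin d → ℤ) (L : ℕ)
    (τ : Equiv.Perm (Fin d)) : Prop where
  hv : v ∈ D.Vt
  hq : q ∈ D.Vt
  pos : 1 ≤ L
  eq : q = v + (L : ℤ) • D.e v i
  u : ∀ l, l ≠ i → D.u q (τ l) = D.u v l
  e : D.e q (τ i) = -D.e v i

theorem far_end (D : SD P) {v : Fin d → ℤ} (hv : v ∈ D.Vt) (i : Fin d) :
    ∃ q L τ, Adj D v i q L τ := by
  classical
  -- the farthest vertex of the edge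
  obtain ⟨q, hqF, hqmax⟩ := Finset.exists_max_image
    (D.Vt.filter fun p => ∀ l, l ≠ i → pf D (v, l) (toR p) = 0)
    (fun p => pf D (v, i) (toR p)) ⟨v, Finset.mem_filter.2 ⟨hv, fun l _ => pf_self D v l⟩⟩
  obtain ⟨hqV, hqG⟩ := Finset.mem_filter.1 hqF
  have hqP : toR q ∈ P := D.vmem hqV
  have hmax : ∀ w ∈ P, (∀ l, l ≠ i → pf D (v, l) w = 0) → pf D (v, i) w ≤ pf D (v, i) (toR q) := by
    intro w hwP hwl
    have hsum : ∀ z : Fin d → ℝ, toR (∑ l ∈ Finset.univ.erase i, D.u v l) ⬝ᵥ (z - toR v) =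
        ∑ l ∈ Finset.univ.erase i, pf D (v, l) z := by
      intro z
      rw [toR_sum, sum_dotProduct]
      rfl
    have key := Flg_face D (toR (∑ l ∈ Finset.univ.erase i, D.u v l)) (toR v)
      (-toR (D.u v i)) (toR v) (-pf D (v, i) (toR q)) (by
        intro z hz
        rw [hsum]
        exact Finset.sum_nonneg fun l _ => pf_nn D (a := (v, l)) hv hz) (by
        intro p hp hp0
        rw [hsum] at hp0
        have h1 := hqmax p (Finset.mem_filter.2 ⟨hp, fun l hl =>
          (Finset.sum_eq_zero_iff_of_nonneg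
            (fun l _ => pf_nn D (a := (v, l)) hv (D.vmem hp))).1 hp0 l
            (Finset.mem_erase.2 ⟨hl, Finset.mem_univ _⟩)⟩)
        rw [neg_dotProduct]
        have h2 : toR (D.u v i) ⬝ᵥ (toR p - toR v) = pf D (v, i) (toR p) := rfl
        rw [h2]
        linarith) w hwP (by
        rw [hsum]
        exact Finset.sum_eq_zero fun l hl => hwl l (Finset.ne_of_mem_erase hl))
    rw [neg_dotProduct] at key
    have h2 : toR (D.u v i) ⬝ᵥ (w - toR v) = pf D (v, i) w := rfl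
    rw [h2] at key
    linarith
  -- `q = v + L e v i`
  have hone : (1 : ℝ) ≤ pf D (v, i) (toR q) := by
    have h1 := hmax (toR (v + D.e v i)) (D.mem v hv i) (by
      intro l hl
      rw [toR_add, pf_add, pf_self, zero_add, ue D hv, if_neg hl])
    rw [toR_add, pf_add, pf_self, zero_add, ue D hv, if_pos rfl] at h1
    exact h1
  obtain ⟨L, hL⟩ : ∃ L : ℕ, pf D (v, i) (toR q) = (L : ℝ) := by
    have e1 := pf_int D (v, i) q
    rw [e1] at hone
    have e3 : 0 ≤ D.u (v, i).1 (v, i).2 ⬝ᵥ (q - (v, i).1) := by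
      have : (1 : ℤ) ≤ D.u (v, i).1 (v, i).2 ⬝ᵥ (q - (v, i).1) := by exact_mod_cast hone
      omega
    obtain ⟨N, hN⟩ := Int.eq_ofNat_of_zero_le e3
    refine ⟨N, ?_⟩
    rw [e1, hN]
    simp
  have hL1 : 1 ≤ L := by
    rw [hL] at hone
    exact_mod_cast hone
  have hqeq : q = v + (L : ℤ) • D.e v i := by
    apply toR_injective
    have e2 := D.span v hv (toR q - toR v)
    rw [Finset.sum_eq_single i] at e2
    · rw [toR_add, toR_zsmul]
      have e3 : toR (D.u v i) ⬝ᵥ (toR q - toR v) = (L : ℝ) := hL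
      rw [e3] at e2
      rw [Int.cast_natCast, ← e2]
      abel
    · intro l _ hl
      have e3 : toR (D.u v l) ⬝ᵥ (toR q - toR v) = 0 := hqG l hl
      rw [e3, zero_smul]
    · intro h'
      exact absurd (Finset.mem_univ _) h'
  -- indices at `q`
  have hex : ∀ l, ∃ m, l ≠ i → D.u q m = D.u v l := by
    intro l
    by_cases hl : l = i
    · exact ⟨l, fun h => absurd hl h⟩
    · obtain ⟨m, hm⟩ := gf_dual D hv hqV l ⟨hqP, hqG l hl⟩
      exact ⟨m, fun _ => hm⟩
  choose σ hσ using hex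
  have hinj : Set.InjOn σ (Finset.univ.erase i : Finset (Fin d)) := by
    intro l hl l' hl' h
    have hl1 : l ≠ i := Finset.ne_of_mem_erase hl
    have hl2 : l' ≠ i := Finset.ne_of_mem_erase hl'
    by_contra hne
    have e1 := D.dual v hv l l
    have e2 := D.dual v hv l' l
    rw [if_pos rfl, ← hσ l hl1] at e1
    rw [if_neg (Ne.symm hne), ← hσ l' hl2, ← h] at e2
    omega
  obtain ⟨l0, -, hl0⟩ : ∃ l0 ∈ (Finset.univ : Finset (Fin d)),
      l0 ∉ (Finset.univ.erase i).image σ :=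
    Finset.exists_mem_notMem_of_card_lt_card (by
      rw [Finset.card_image_of_injOn hinj, Finset.card_erase_of_mem (Finset.mem_univ _),
        Finset.card_univ, Fintype.card_fin]
      have := i.pos
      omega)
  have hl0' : ∀ l, l ≠ i → σ l ≠ l0 := fun l hl h =>
    hl0 (Finset.mem_image.2 ⟨l, Finset.mem_erase.2 ⟨hl, Finset.mem_univ _⟩, h⟩)
  -- the permutation
  obtain ⟨f, hf⟩ : ∃ f : Fin d → Fin d, f = fun l => if l = i then l0 else σ l := ⟨_, rfl⟩
  have hfi : f i = l0 := by rw [hf]; simp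
  have hfl : ∀ l, l ≠ i → f l = σ l := fun l hl => by rw [hf]; simp [hl]
  have hfinj : Function.Injective f := by
    intro l l' h
    by_cases h1 : l = i
    · by_cases h2 : l' = i
      · rw [h1, h2]
      · rw [h1, hfi, hfl l' h2] at h
        exact absurd h.symm (hl0' l' h2)
    · by_cases h2 : l' = i
      · rw [h2, hfi, hfl l h1] at h
        exact absurd h (hl0' l h1)
      · rw [hfl l h1, hfl l' h2] at h
        exact hinj (Finset.mem_coe.2 (Finset.mem_erase.2 ⟨h1, Finset.mem_univ _⟩))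
          (Finset.mem_coe.2 (Finset.mem_erase.2 ⟨h2, Finset.mem_univ _⟩)) h
  obtain ⟨τ, hτ⟩ : ∃ τ : Equiv.Perm (Fin d), ∀ l, τ l = f l :=
    ⟨Equiv.ofBijective f (Finite.injective_iff_bijective.1 hfinj), fun _ => rfl⟩
  have hτu : ∀ l, l ≠ i → D.u q (τ l) = D.u v l := fun l hl => by
    rw [hτ, hfl l hl, hσ l hl]
  -- the edge back
  have horth : ∀ l, l ≠ i → D.u v l ⬝ᵥ D.e q (τ i) = 0 := by
    intro l hl
    rw [← hτu l hl, D.dual q hqV, if_neg]
    intro h
    exact hl (τ.injective h)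
  have hmul : toR (D.e q (τ i)) = ((D.u v i ⬝ᵥ D.e q (τ i) : ℤ) : ℝ) • toR (D.e v i) := by
    have e2 := D.span v hv (toR (D.e q (τ i)))
    rw [Finset.sum_eq_single i] at e2
    · rw [toR_dot] at e2
      exact e2
    · intro l _ hl
      rw [toR_dot, horth l hl, Int.cast_zero, zero_smul]
    · intro h'
      exact absurd (Finset.mem_univ _) h'
  have hunit : (D.u q (τ i) ⬝ᵥ D.e v i) * (D.u v i ⬝ᵥ D.e q (τ i)) = 1 := by
    have e1 : toR (D.u q (τ i)) ⬝ᵥ toR (D.e q (τ i)) = 1 := by rw [ue D hqV, if_pos rfl]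
    rw [hmul, dotProduct_smul, smul_eq_mul, toR_dot] at e1
    have e2 : (D.u v i ⬝ᵥ D.e q (τ i)) * (D.u q (τ i) ⬝ᵥ D.e v i) = 1 := by exact_mod_cast e1
    rw [mul_comm]
    exact e2
  have hneg : D.u v i ⬝ᵥ D.e q (τ i) = -1 := by
    rw [mul_comm] at hunit
    rcases Int.eq_one_or_neg_one_of_mul_eq_one hunit with h4 | h4
    · exfalso
      have h5 := hmax (toR (q + D.e q (τ i))) (D.mem q hqV (τ i)) (by
        intro l hl
        have e5 : toR (D.u v l) ⬝ᵥ toR (D.e q (τ i)) = 0 := by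
          rw [toR_dot, horth l hl, Int.cast_zero]
        have e6 := pf_add D (v, l) (toR q) (toR (D.e q (τ i)))
        rw [toR_add, e6, hqG l hl, e5, add_zero])
      have e6 := pf_add D (v, i) (toR q) (toR (D.e q (τ i)))
      have e7 : toR (D.u v i) ⬝ᵥ toR (D.e q (τ i)) = 1 := by
        rw [toR_dot, h4, Int.cast_one]
      rw [toR_add, e6, e7] at h5
      linarith
    · exact h4
  refine ⟨q, L, τ, hv, hqV, hL1, hqeq, hτu, ?_⟩
  apply toR_injective
  rw [hmul, hneg, toR_neg]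
  simp

namespace Adj

variable {D : SD P} {v q : Fin d → ℤ} {i : Fin d} {L : ℕ} {τ : Equiv.Perm (Fin d)}

theorem symm (A : Adj D v i q L τ) : Adj D q (τ i) v L τ.symm where
  hv := A.hq
  hq := A.hv
  pos := A.pos
  eq := by
    rw [A.e, A.eq, smul_neg, add_neg_cancel_right]
  u := by
    intro l hl
    have h1 : τ.symm l ≠ i := by
      intro h
      apply hl
      rw [← h, Equiv.apply_symm_apply]
    rw [← A.u _ h1, Equiv.apply_symm_apply]
  e := by
    rw [Equiv.symm_apply_apply, A.e, neg_neg]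

theorem toReq (A : Adj D v i q L τ) : toR q = toR v + (L : ℝ) • toR (D.e v i) := by
  rw [A.eq, toR_add, toR_zsmul, Int.cast_natCast]

theorem pf_q (A : Adj D v i q L τ) (a : (Fin d → ℤ) × Fin d) :
    pf D a (toR q) = pf D a (toR v) + (L : ℝ) * (cf D a v i : ℝ) := by
  rw [A.toReq, pf_smul_add]

theorem cf_i (A : Adj D v i q L τ) (a : (Fin d → ℤ) × Fin d) :
    cf D a q (τ i) = -cf D a v i := by
  unfold cf
  rw [A.e, dotProduct_neg]

theorem e_l (A : Adj D v i q L τ) {l : Fin d} (hl : l ≠ i) :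
    D.e q (τ l) = D.e v l + cf D (v, i) q (τ l) • D.e v i := by
  classical
  apply toR_injective
  rw [toR_add, toR_zsmul]
  have e2 := D.span v A.hv (toR (D.e q (τ l)))
  have e3 : ∀ j, toR (D.u v j) ⬝ᵥ toR (D.e q (τ l)) =
      (if j = l then (1 : ℝ) else 0) + if j = i then (cf D (v, i) q (τ l) : ℝ) else 0 := by
    intro j
    by_cases hj : j = i
    · subst hj
      rw [if_neg (Ne.symm hl), if_pos rfl, zero_add]
      exact cf_real D (v, j) q (τ l)
    · rw [← A.u j hj, ue D A.hq, if_neg hj, add_zero]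
      by_cases h : j = l
      · rw [if_pos h, h, if_pos rfl]
      · rw [if_neg h, if_neg]
        intro h'
        exact h (τ.injective h')
  rw [e2]
  simp only [e3, add_smul, Finset.sum_add_distrib, ite_smul, one_smul, zero_smul,
    Finset.sum_ite_eq', Finset.mem_univ, if_true]

theorem cf_l (A : Adj D v i q L τ) (a : (Fin d → ℤ) × Fin d) {l : Fin d} (hl : l ≠ i) :
    cf D a q (τ l) = cf D a v l + cf D (v, i) q (τ l) * cf D a v i := by
  have h1 : cf D a q (τ l) = D.u a.1 a.2 ⬝ᵥ D.e q (τ l) := rfl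
  rw [h1, A.e_l hl, dotProduct_add, dotProduct_smul, smul_eq_mul]
  rfl

theorem pf_l (A : Adj D v i q L τ) {l : Fin d} (hl : l ≠ i) (z : Fin d → ℝ) :
    pf D (q, τ l) z = pf D (v, l) z := by
  have h1 : toR (D.u v l) ⬝ᵥ (toR q - toR v) = 0 := by
    have e1 : toR q - toR v = (L : ℝ) • toR (D.e v i) := by
      rw [A.toReq]
      abel
    rw [e1, dotProduct_smul, ue D A.hv, if_neg hl, smul_zero]
  change toR (D.u q (τ l)) ⬝ᵥ (z - toR q) = toR (D.u v l) ⬝ᵥ (z - toR v)
  rw [A.u l hl]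
  have e2 : z - toR v = (z - toR q) + (toR q - toR v) := by abel
  rw [e2, dotProduct_add, h1, add_zero]

theorem cf_opp (A : Adj D v i q L τ) : cf D (q, τ i) v i = -1 := by
  have h1 := A.cf_i (q, τ i)
  rw [cf_self D A.hq, if_pos rfl] at h1
  omega

theorem cf_opp_l (A : Adj D v i q L τ) {l : Fin d} (hl : l ≠ i) :
    cf D (q, τ i) v l = cf D (v, i) q (τ l) := by
  have h1 := A.cf_l (q, τ i) hl
  rw [cf_self D A.hq, if_neg (fun h => hl (τ.injective h).symm), A.cf_opp] at h1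
  linarith

theorem pf_opp_v (A : Adj D v i q L τ) : pf D (q, τ i) (toR v) = L := by
  have h1 := A.pf_q (q, τ i)
  rw [pf_self, A.cf_opp] at h1
  push_cast at h1
  linarith

theorem pf_i_q (A : Adj D v i q L τ) : pf D (v, i) (toR q) = L := by
  have h1 := A.pf_q (v, i)
  rw [pf_self, cf_self D A.hv, if_pos rfl] at h1
  push_cast at h1
  linarith

/-- End point of the edge and facets. -/
theorem end_iff (A : Adj D v i q L τ) {a : (Fin d → ℤ) × Fin d} (ha : a.1 ∈ D.Vt)
    (h0 : 0 < pf D a (toR v)) : End D v i a ↔ pf D a (toR q) = 0 := by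
  have hL : (0 : ℝ) < L := by exact_mod_cast A.pos
  constructor
  · rintro ⟨t, ht, htP, ht0⟩
    have h1 : t ≤ L := by
      have h2 := pf_nn D (a := (q, τ i)) A.hq htP
      rw [pf_smul_add, A.pf_opp_v, A.cf_opp] at h2
      push_cast at h2
      linarith
    rw [pf_smul_add] at ht0
    have h3 : (cf D a v i : ℝ) < 0 := by
      by_contra hcon
      have := mul_nonneg ht.le (not_lt.1 hcon)
      linarith
    have h4 : pf D a (toR q) ≤ 0 := by
      rw [A.pf_q]
      have : (L : ℝ) * (cf D a v i : ℝ) ≤ t * (cf D a v i : ℝ) :=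
        mul_le_mul_of_nonpos_right h1 h3.le
      linarith
    exact le_antisymm h4 (pf_nn D ha (D.vmem A.hq))
  · intro h
    refine ⟨L, hL, ?_, ?_⟩
    · rw [← A.toReq]
      exact D.vmem A.hq
    · rw [← A.toReq]
      exact h

theorem opp_of_zero (A : Adj D v i q L τ) {a : (Fin d → ℤ) × Fin d} (ha : a.1 ∈ D.Vt)
    (h0 : 0 < pf D a (toR v)) (hq0 : pf D a (toR q) = 0) : D.u a.1 a.2 = D.u q (τ i) := by
  obtain ⟨m, hm⟩ := gf_dual D ha A.hq a.2 (show toR q ∈ Gf D a.1 a.2 from ⟨D.vmem A.hq, hq0⟩)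
  by_cases h : τ.symm m = i
  · rw [← hm, ← h, Equiv.apply_symm_apply]
  · exfalso
    have h1 : D.u v (τ.symm m) = D.u a.1 a.2 := by
      rw [← A.u _ h, Equiv.apply_symm_apply, hm]
    have h2 : pf D a (toR v) = pf D a (toR q) + toR (D.u a.1 a.2) ⬝ᵥ (toR v - toR q) := by
      rw [← pf_add]
      congr 1
      abel
    have h3 : toR (D.u a.1 a.2) ⬝ᵥ (toR v - toR q) = 0 := by
      have e1 : toR v - toR q = -((L : ℝ) • toR (D.e v i)) := by
        rw [A.toReq]
        abel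
      rw [e1, ← h1, dotProduct_neg, dotProduct_smul, ue D A.hv, if_neg h, smul_zero, neg_zero]
    rw [h2, hq0, h3] at h0
    simp at h0

/-- Two affine functions of facets with the same normal vector, vanishing at the same point, agree. -/
theorem _root_.H98OD.pf_congr (D : SD P) {a b : (Fin d → ℤ) × Fin d}
    (h : D.u a.1 a.2 = D.u b.1 b.2) {q : Fin d → ℝ} (h1 : pf D a q = pf D b q) (z : Fin d → ℝ) :
    pf D a z = pf D b z := by
  have e1 : z = q + (z - q) := by abel
  rw [e1, pf_add, pf_add, h1, h]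

theorem end_spec (A : Adj D v i q L τ) {a : (Fin d → ℤ) × Fin d} (ha : a.1 ∈ D.Vt)
    (h0 : 0 < pf D a (toR v)) (hE : End D v i a) :
    D.u a.1 a.2 = D.u q (τ i) ∧ pf D a (toR v) = L ∧ cf D a v i = -1 ∧
      (∀ z, pf D a z = pf D (q, τ i) z) := by
  have hq0 := (A.end_iff ha h0).1 hE
  have h1 := A.opp_of_zero ha h0 hq0
  have h2 : ∀ z, pf D a z = pf D (q, τ i) z :=
    pf_congr D (a := a) (b := (q, τ i)) h1 (q := toR q) (by rw [hq0, pf_self])
  refine ⟨h1, ?_, ?_, h2⟩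
  · rw [h2, A.pf_opp_v]
  · have h3 : cf D a v i = cf D (q, τ i) v i := by
      unfold cf
      rw [h1]
    rw [h3, A.cf_opp]

theorem uinj (D : SD P) {v : Fin d → ℤ} (hv : v ∈ D.Vt) {i j : Fin d} (h : D.u v i = D.u v j) :
    i = j := by
  by_contra hne
  have e1 := D.dual v hv i i
  have e2 := D.dual v hv j i
  rw [if_pos rfl] at e1
  rw [if_neg (Ne.symm hne), ← h] at e2
  omega

end Adj

/-- Slope along an edge ending in the facet. -/
theorem end_cf (D : SD P) {v : Fin d → ℤ} (hv : v ∈ D.Vt) {i : Fin d}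
    {a : (Fin d → ℤ) × Fin d} (ha : a.1 ∈ D.Vt) (h0 : 0 < pf D a (toR v)) (hE : End D v i a) :
    cf D a v i = -1 ∧ toR v + pf D a (toR v) • toR (D.e v i) ∈ P := by
  obtain ⟨q, L, τ, A⟩ := far_end D hv i
  have h1 := A.end_spec ha h0 hE
  refine ⟨h1.2.2.1, ?_⟩
  rw [h1.2.1, ← A.toReq]
  exact D.vmem A.hq

end H98OD
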