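import Pool.Agent.H98.OI.Find

/-!
# Short simplex faces

`Bad D v T b N`: the edges `i ∈ T` at `v` are those which end in the facet `b`; all have length `N < |T|`.
`Iso D`: `P` is not a simplex, and every other edge at `v` has length at least `d - N`.
`Bad.far_long`: this also holds for the edges at the other vertices of the short simplex face.
-/

namespace H98OD

open H66OD H19OZ Matrix

variable {d : ℕ} {P : Set (Fin d → ℝ)}

/-- A short simplex face seen from its vertex `v`. -/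
structure Bad (D : SD P) (v : Fin d → ℤ) (T : Finset (Fin d)) (b : (Fin d → ℤ) × Fin d) (N : ℕ) :
    Prop where
  hv : v ∈ D.Vt
  hb : b.1 ∈ D.Vt
  N1 : 1 ≤ N
  pfv : pf D b (toR v) = N
  lt : N < T.card
  hT : ∀ i, i ∈ T ↔ End D v i b

/-- Edges leaving a short simplex face with edges of length `N` have length at least `d - N`. -/
structure Iso (D : SD P) : Prop where
  ns : ∀ v a, ¬SpxAt D v a
  long : ∀ v T b N, Bad D v T b N → ∀ j, j ∉ T → toR v + ((d : ℝ) - N) • toR (D.e v j) ∈ P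

/-- Every short simplex gives a `Bad` datum. -/
theorem bad_of (D : SD P) {v : Fin d → ℤ} (hv : v ∈ D.Vt) {S : Finset (Fin d)}
    {a : (Fin d → ℤ) × Fin d} (ha : a.1 ∈ D.Vt) (h0 : 0 < pf D a (toR v))
    (h1 : pf D a (toR v) < S.card) (h2 : ∀ i ∈ S, End D v i a) :
    ∃ T N, S ⊆ T ∧ Bad D v T a N := by
  classical
  obtain ⟨N, hN⟩ : ∃ N : ℕ, pf D a (toR v) = (N : ℝ) := by
    have e1 := pf_int D a v
    have e2 := h0.le
    rw [e1] at e2
    have e3 : 0 ≤ D.u a.1 a.2 ⬝ᵥ (v - a.1) := by exact_mod_cast e2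
    obtain ⟨N, hN⟩ := Int.eq_ofNat_of_zero_le e3
    refine ⟨N, ?_⟩
    rw [e1, hN]
    simp
  refine ⟨Finset.univ.filter fun i => End D v i a, N, fun i hi => ?_, hv, ha, ?_, hN, ?_, fun i => ?_⟩
  · exact Finset.mem_filter.2 ⟨Finset.mem_univ _, h2 i hi⟩
  · rw [hN] at h0
    have : 0 < N := by exact_mod_cast h0
    exact this
  · have h3 : S ⊆ Finset.univ.filter fun i => End D v i a := fun i hi =>
      Finset.mem_filter.2 ⟨Finset.mem_univ _, h2 i hi⟩
    have h4 := Finset.card_le_card h3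
    rw [hN] at h1
    have h5 : N < S.card := by exact_mod_cast h1
    omega
  · rw [Finset.mem_filter]
    exact ⟨fun h => h.2, fun h => ⟨Finset.mem_univ _, h⟩⟩

/-- Convex combination of the points `q` and `q + h f_j`. -/
theorem conv_cols (hP : Convex ℝ P) {h : ℝ} (hh : 0 < h) {q : Fin d → ℝ} (hq : q ∈ P)
    (U : Finset (Fin d)) (f : Fin d → Fin d → ℝ) (hf : ∀ j ∈ U, q + h • f j ∈ P)
    (x : Fin d → ℝ) (hx : ∀ j ∈ U, 0 ≤ x j) (hs : ∑ j ∈ U, x j ≤ h) :
    q + ∑ j ∈ U, x j • f j ∈ P := by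
  classical
  have h5 := hP.sum_mem (t := Finset.insertNone U)
    (w := fun o => o.elim (1 - ∑ j ∈ U, x j / h) fun j => x j / h)
    (z := fun o => o.elim q fun j => q + h • f j)
    (by
      rintro (_ | j) hj
      · have : ∑ j ∈ U, x j / h ≤ 1 := by
          rw [← Finset.sum_div, div_le_one hh]
          exact hs
        simpa using this
      · have hj' : j ∈ U := by simpa using hj
        exact div_nonneg (hx j hj') hh.le)
    (by
      rw [Finset.sum_insertNone]
      simp)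
    (by
      rintro (_ | j) hj
      · exact hq
      · have hj' : j ∈ U := by simpa using hj
        exact hf j hj')
  rw [Finset.sum_insertNone] at h5
  have h6 : (1 - ∑ j ∈ U, x j / h) • q + ∑ j ∈ U, (x j / h) • (q + h • f j) =
      q + ∑ j ∈ U, x j • f j := by
    have e1 : ∑ j ∈ U, (x j / h) • (q + h • f j) =
        (∑ j ∈ U, x j / h) • q + ∑ j ∈ U, x j • f j := by
      rw [Finset.sum_smul, ← Finset.sum_add_distrib]
      refine Finset.sum_congr rfl fun i _ => ?_
      rw [smul_add, smul_smul, div_mul_cancel₀ _ hh.ne']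
    rw [e1, ← add_assoc, ← add_smul, sub_add_cancel, one_smul]
  rw [← h6]
  exact h5

theorem span_pf (D : SD P) {v : Fin d → ℤ} (hv : v ∈ D.Vt) (z : Fin d → ℝ) :
    z = toR v + ∑ l, pf D (v, l) z • toR (D.e v l) := by
  have e1 := D.span v hv (z - toR v)
  have e2 : z = toR v + (z - toR v) := by abel
  calc z = toR v + (z - toR v) := e2
    _ = toR v + ∑ l, pf D (v, l) z • toR (D.e v l) := congrArg (fun w => toR v + w) e1

namespace Bad

variable {D : SD P} {v : Fin d → ℤ} {T : Finset (Fin d)} {b : (Fin d → ℤ) × Fin d} {N : ℕ}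

theorem N0 (B : Bad D v T b N) : (0 : ℝ) < N := by exact_mod_cast B.N1

theorem pos (B : Bad D v T b N) : 0 < pf D b (toR v) := by
  rw [B.pfv]
  exact B.N0

theorem cardlt (B : Bad D v T b N) (hI : Iso D) : T.card < d := by
  by_contra hcon
  have h1 := T.card_le_univ
  rw [Fintype.card_fin] at h1
  have h2 : T = Finset.univ := by
    apply Finset.eq_univ_of_card
    rw [Fintype.card_fin]
    omega
  refine hI.ns v b ⟨B.hv, B.hb, B.pos, fun i => ?_⟩
  exact (B.hT i).1 (by rw [h2]; exact Finset.mem_univ _)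

theorem Nd (B : Bad D v T b N) (hI : Iso D) : (N : ℝ) + 2 ≤ d := by
  have h1 := B.cardlt hI
  have h2 := B.lt
  exact_mod_cast (by omega : N + 2 ≤ d)

theorem H0 (B : Bad D v T b N) (hI : Iso D) : 0 < (d : ℝ) - N := by
  have := B.Nd hI
  linarith

theorem cfT (B : Bad D v T b N) {i : Fin d} (hi : i ∈ T) : cf D b v i = -1 :=
  (end_cf D B.hv B.hb B.pos ((B.hT i).1 hi)).1

theorem memT (B : Bad D v T b N) {i : Fin d} (hi : i ∈ T) :
    toR v + (N : ℝ) • toR (D.e v i) ∈ P := by
  have h1 := (end_cf D B.hv B.hb B.pos ((B.hT i).1 hi)).2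
  rwa [B.pfv] at h1

/-- The face seen from the other end of an edge of the face. -/
theorem swap (B : Bad D v T b N) {i : Fin d} (hi : i ∈ T) {q : Fin d → ℤ} {L : ℕ}
    {τ : Equiv.Perm (Fin d)} (A : Adj D v i q L τ) :
    L = N ∧ D.u b.1 b.2 = D.u q (τ i) ∧ (∀ j, j ≠ i → cf D (v, i) q (τ j) = cf D b v j) ∧
      (∀ s ∈ T.map τ.toEmbedding, End D q s (v, i)) := by
  have h1 := A.end_spec B.hb B.pos ((B.hT i).1 hi)
  have hL : L = N := by
    have e1 := h1.2.1
    rw [B.pfv] at e1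
    exact_mod_cast e1.symm
  have hcf : ∀ j, j ≠ i → cf D (v, i) q (τ j) = cf D b v j := by
    intro j hj
    have e1 := A.cf_l b hj
    have e2 : cf D b q (τ j) = cf D (q, τ i) q (τ j) := by
      unfold cf
      rw [h1.1]
    rw [e2, cf_self D A.hq, if_neg (fun h => hj (τ.injective h).symm), B.cfT hi] at e1
    linarith
  refine ⟨hL, h1.1, hcf, ?_⟩
  intro s hs
  rw [Finset.mem_map] at hs
  obtain ⟨l, hl, rfl⟩ := hs
  change End D q (τ l) (v, i)
  refine ⟨N, B.N0, ?_, ?_⟩
  · by_cases hli : l = i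
    · rw [hli, A.e, A.toReq, hL, toR_neg, smul_neg, add_neg_cancel_right]
      exact D.vmem B.hv
    · rw [A.e_l hli, hcf l hli, B.cfT hl, A.toReq, hL, toR_add, toR_zsmul]
      have e1 : toR v + (N : ℝ) • toR (D.e v i) +
          (N : ℝ) • (toR (D.e v l) + ((-1 : ℤ) : ℝ) • toR (D.e v i)) =
          toR v + (N : ℝ) • toR (D.e v l) := by
        push_cast
        module
      rw [e1]
      exact B.memT hl
  · rw [pf_smul_add, A.pf_i_q, hL]
    by_cases hli : l = i
    · rw [hli, A.cf_i, cf_self D B.hv, if_pos rfl]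
      push_cast
      ring
    · rw [hcf l hli, B.cfT hl]
      push_cast
      ring

end Bad

/-- The other end of an edge of a short simplex face lies on a short simplex face. -/
theorem bad_step {D : SD P} {p : Fin d → ℤ} {K : Finset (Fin d)} {r : (Fin d → ℤ) × Fin d}
    {N : ℕ} (B : Bad D p K r N) {l : Fin d} (hl : l ∈ K) {q : Fin d → ℤ} {L : ℕ}
    {τ : Equiv.Perm (Fin d)} (A : Adj D p l q L τ) :
    ∃ K', K.map τ.toEmbedding ⊆ K' ∧ Bad D q K' (p, l) N := by
  obtain ⟨hL, -, -, hE⟩ := B.swap hl A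
  obtain ⟨K', N', h1, h2⟩ := bad_of D A.hq (S := K.map τ.toEmbedding) (a := (p, l)) B.hv (by
    rw [A.pf_i_q, hL]
    exact B.N0) (by
    rw [A.pf_i_q, hL, Finset.card_map]
    exact_mod_cast B.lt) hE
  have h3 : N' = N := by
    have h4 := h2.pfv
    rw [A.pf_i_q, hL] at h4
    exact_mod_cast h4.symm
  rw [h3] at h2
  exact ⟨K', h1, h2⟩

theorem bad_step' {D : SD P} {p : Fin d → ℤ} {K : Finset (Fin d)} {r : (Fin d → ℤ) × Fin d}
    {N : ℕ} (B : Bad D p K r N) {l : Fin d} (hl : l ∈ K) {q : Fin d → ℤ} {L : ℕ}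
    {τ : Equiv.Perm (Fin d)} (A : Adj D p l q L τ) : ∃ K' r' N', Bad D q K' r' N' := by
  obtain ⟨K', -, B'⟩ := bad_step B hl A
  exact ⟨K', _, N, B'⟩

/-- A vertex of the simplex is the base vertex or the end of an edge. -/
theorem bad_vertex {D : SD P} {p : Fin d → ℤ} {K : Finset (Fin d)} {r : (Fin d → ℤ) × Fin d}
    {N : ℕ} (B : Bad D p K r N) {w : Fin d → ℤ} (hw : w ∈ D.Vt) (hwK : toR w ∈ Qf D p K) :
    ∃ K' r' N', Bad D w K' r' N' := by
  classical
  have h1 := qf_simplex D B.hv K B.hb B.pos (fun _ => (N : ℝ)) (fun i hi => ⟨B.N0, B.memT hi, by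
    rw [pf_smul_add, B.pfv, B.cfT hi]
    push_cast
    ring⟩)
  have h2 : toR w ∈ (Qf D p K).extremePoints ℝ :=
    inter_extremePoints_subset_extremePoints_of_subset (qf_face D B.hv K).2.2.1.1
      ⟨hwK, D.ext w hw⟩
  rw [h1] at h2
  have h3 := extremePoints_convexHull_subset h2
  rcases h3 with h3 | ⟨l, hl, h3⟩
  · rw [toR_injective h3]
    exact ⟨K, r, N, B⟩
  · obtain ⟨q, L, τ, A⟩ := far_end D B.hv l
    obtain ⟨hL, -, -, -⟩ := B.swap (Finset.mem_coe.1 hl) A
    have h4 : q = w := by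
      apply toR_injective
      rw [A.toReq, hL, ← h3]
    rw [← h4]
    exact bad_step' B (Finset.mem_coe.1 hl) A

/-- The point above another vertex of the face, in a direction leaving the face. -/
theorem Bad.far_long {D : SD P} {v : Fin d → ℤ} {T : Finset (Fin d)} {b : (Fin d → ℤ) × Fin d}
    {N : ℕ} (B : Bad D v T b N) (hI : Iso D) {i : Fin d} (hi : i ∈ T) {j : Fin d}
    (hj : j ∉ T) : toR v + (N : ℝ) • toR (D.e v i) +
      ((d : ℝ) - N) • (toR (D.e v j) + (cf D b v j : ℝ) • toR (D.e v i)) ∈ P := by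
  obtain ⟨q, L, τ, A⟩ := far_end D B.hv i
  obtain ⟨hL, hu, hcf, hE⟩ := B.swap hi A
  obtain ⟨K, hsub, B'⟩ := bad_step B hi A
  have hji : j ≠ i := by
    rintro rfl
    exact hj hi
  have he : toR (D.e q (τ j)) = toR (D.e v j) + (cf D b v j : ℝ) • toR (D.e v i) := by
    rw [A.e_l hji, hcf j hji, toR_add, toR_zsmul]
  by_cases hK : τ j ∈ K
  · exfalso
    have h1 := B'.cfT hK
    have h2 := B'.memT hK
    rw [hcf j hji] at h1
    rw [he, h1, A.toReq, hL] at h2
    have e1 : toR v + (N : ℝ) • toR (D.e v i) +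
        (N : ℝ) • (toR (D.e v j) + ((-1 : ℤ) : ℝ) • toR (D.e v i)) =
        toR v + (N : ℝ) • toR (D.e v j) := by
      push_cast
      module
    rw [e1] at h2
    apply hj
    rw [B.hT]
    refine ⟨N, B.N0, h2, ?_⟩
    rw [pf_smul_add, B.pfv, h1]
    push_cast
    ring
  · have h := hI.long q K (v, i) N B' (τ j) hK
    rw [he, A.toReq, hL] at h
    exact h

end H98OD
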