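import Pool.Agent.H98.OI.Max

/-!
# Consequences: edges of length at least `d / 2`, and multiples
-/

namespace H98OD

open H66OD H19OZ Matrix
open scoped Pointwise

variable {d : ℕ} {P : Set (Fin d → ℝ)}

theorem long_of_edges {l : ℕ} (hcv : Convex ℝ P) (hl : d ≤ 2 * l) (h : EdgesAtLeast l P) :
    LongLeavingEdges P := by
  intro k N F hk hkd hNk _ hN _ v hv _ e he _
  obtain ⟨hN1, v₀, hv₀, e₀, he₀, hext, -, -⟩ := hN
  have hl0 : (0 : ℝ) < l := by
    have : 0 < l := by omega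
    exact_mod_cast this
  have hN0 : (0 : ℝ) < N := by
    have : 0 < N := hN1
    exact_mod_cast this
  have hlN : l ≤ N := by
    by_contra hcon
    have hlt : (N : ℝ) < l := by exact_mod_cast not_le.1 hcon
    have h1 : v₀ + (N : ℝ) • toR e₀ ∈ openSegment ℝ v₀ (v₀ + (l : ℝ) • toR e₀) := by
      refine ⟨1 - (N : ℝ) / l, (N : ℝ) / l, ?_, div_pos hN0 hl0, by ring, ?_⟩
      · rw [sub_pos, div_lt_one hl0]
        exact hlt
      · have h2 : (N : ℝ) / l * l = N := div_mul_cancel₀ _ hl0.ne'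
        rw [smul_add, smul_smul, h2, ← add_assoc, ← add_smul, sub_add_cancel, one_smul]
    have h2 := (mem_extremePoints.1 hext).2 _ (extremePoints_subset hv₀) _ (h v₀ hv₀ e₀ he₀) h1
    have h3 : (N : ℝ) • toR e₀ = 0 := left_eq_add.1 h2.1
    have h4 : toR e₀ = 0 := by
      rcases smul_eq_zero.1 h3 with h | h
      · exact absurd h hN0.ne'
      · exact h
    apply he₀.1.1
    apply toR_injective
    rw [h4, toR_zero]
  have h1 : (d : ℝ) - N ≤ l := by
    have h2 : d ≤ l + N := by omega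
    have h3 : (d : ℝ) ≤ l + N := by exact_mod_cast h2
    linarith
  have h2 : 0 ≤ (d : ℝ) - N := by
    have h3 : (N : ℝ) ≤ d := by exact_mod_cast (by omega : N ≤ d)
    linarith
  have h3 := hcv (extremePoints_subset hv) (h v hv e he) (a := 1 - ((d : ℝ) - N) / l)
    (b := ((d : ℝ) - N) / l)
    (by rw [sub_nonneg, div_le_one hl0]; exact h1) (div_nonneg h2 hl0.le) (by ring)
  have h4 : (1 - ((d : ℝ) - N) / l) • v + (((d : ℝ) - N) / l) • (v + (l : ℝ) • toR e) =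
      v + ((d : ℝ) - N) • toR e := by
    rw [smul_add, smul_smul, div_mul_cancel₀ _ hl0.ne', ← add_assoc, ← add_smul, sub_add_cancel,
      one_smul]
  rw [h4] at h3
  exact h3

theorem smooth_convex (hP : IsSmooth P) : Convex ℝ P := by
  obtain ⟨⟨S, hS⟩, -⟩ := hP
  rw [hS]
  exact convex_convexHull ℝ _

/-- All edges of lattice length at least `l`, `d ≤ 2 l`. -/
theorem idp_of_half {l : ℕ} (hP : IsSmooth P) (hl : d ≤ 2 * l) (h : EdgesAtLeast l P) :
    HasIDP P :=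
  idp_of_leaving hP (long_of_edges (smooth_convex hP) hl h)

/-! ### Multiples -/

theorem extreme_smul {c : ℝ} (hc : c ≠ 0) {F : Set (Fin d → ℝ)} (h : IsExtreme ℝ P F) :
    IsExtreme ℝ (c • P) (c • F) := by
  refine ⟨Set.smul_set_mono h.1, ?_⟩
  rintro _ ⟨x, hx, rfl⟩ _ ⟨y, hy, rfl⟩ _ ⟨z, hz, rfl⟩ ⟨s, t, hs, ht, hst, hz'⟩
  refine Set.smul_mem_smul_set (h.2 hx hy hz ⟨s, t, hs, ht, hst, ?_⟩)
  have h1 : c • (s • x + t • y) = c • z := by
    change s • c • x + t • c • y = c • z at hz'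
    rw [← hz', smul_add, smul_comm c s, smul_comm c t]
  exact smul_right_injective _ hc h1

theorem edge_smul {c : ℝ} (hc : c ≠ 0) {F : Set (Fin d → ℝ)} (h : IsEdge P F) :
    IsEdge (c • P) (c • F) := by
  refine ⟨h.1.smul c, extreme_smul hc h.2.1, ?_⟩
  have h1 := (LinearEquiv.smulOfNeZero ℝ (Fin d → ℝ) c hc).toLinearMap.toAffineMap.map_vectorSpan
    (s := F)
  have h2 : (LinearEquiv.smulOfNeZero ℝ (Fin d → ℝ) c hc).toLinearMap.toAffineMap '' F = c • F := by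
    ext z
    constructor
    · rintro ⟨x, hx, rfl⟩
      exact Set.smul_mem_smul_set hx
    · rintro ⟨x, hx, rfl⟩
      exact ⟨x, hx, rfl⟩
  rw [h2] at h1
  rw [← h1]
  have h3 := LinearEquiv.finrank_map_eq (LinearEquiv.smulOfNeZero ℝ (Fin d → ℝ) c hc)
    (vectorSpan ℝ F)
  exact h3.trans h.2.2

theorem edgeVectors_smul_sub {c : ℝ} (hc : 0 < c) (v : Fin d → ℝ) :
    edgeVectors P v ⊆ edgeVectors (c • P) (c • v) := by
  rintro e ⟨he, F, hF, hv, t, ht, hte⟩
  refine ⟨he, c • F, edge_smul hc.ne' hF, Set.smul_mem_smul_set hv, c * t, mul_pos hc ht, ?_⟩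
  have h1 : c • v + (c * t) • toR e = c • (v + t • toR e) := by
    rw [smul_add, smul_smul]
  rw [h1]
  exact Set.smul_mem_smul_set hte

theorem edgeVectors_smul {c : ℝ} (hc : 0 < c) (v : Fin d → ℝ) :
    edgeVectors (c • P) (c • v) = edgeVectors P v := by
  refine Set.Subset.antisymm ?_ (edgeVectors_smul_sub hc v)
  have h1 := edgeVectors_smul_sub (P := c • P) (inv_pos.2 hc) (c • v)
  rwa [inv_smul_smul₀ hc.ne', inv_smul_smul₀ hc.ne'] at h1

theorem smooth_smul {c : ℕ} (hc : 1 ≤ c) (hP : IsSmooth P) : IsSmooth ((c : ℝ) • P) := by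
  classical
  have hc0 : (0 : ℝ) < c := by
    have : 0 < c := hc
    exact_mod_cast this
  obtain ⟨⟨S, hS⟩, hint, hv⟩ := hP
  refine ⟨⟨S.image fun z => (c : ℤ) • z, ?_⟩, ?_, ?_⟩
  · rw [hS, ← convexHull_smul]
    congr 1
    ext z
    rw [Finset.coe_image]
    constructor
    · rintro ⟨_, ⟨x, hx, rfl⟩, rfl⟩
      refine ⟨(c : ℤ) • x, ⟨x, hx, rfl⟩, ?_⟩
      rw [toR_zsmul, Int.cast_natCast]
    · rintro ⟨_, ⟨x, hx, rfl⟩, rfl⟩
      refine ⟨toR x, ⟨x, hx, rfl⟩, ?_⟩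
      change (c : ℝ) • toR x = toR ((c : ℤ) • x)
      rw [toR_zsmul, Int.cast_natCast]
  · rw [interior_smul₀ hc0.ne']
    exact hint.smul_set
  · intro w hw
    obtain ⟨v, hvP, rfl⟩ := hw.1
    have hvext : v ∈ P.extremePoints ℝ := by
      refine mem_extremePoints_iff_left.2 ⟨hvP, fun x hx y hy hxy => ?_⟩
      have h1 := (mem_extremePoints_iff_left.1 hw).2 ((c : ℝ) • x) (Set.smul_mem_smul_set hx)
        ((c : ℝ) • y) (Set.smul_mem_smul_set hy) (by
          obtain ⟨s, t, hs, ht, hst, rfl⟩ := hxy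
          refine ⟨s, t, hs, ht, hst, ?_⟩
          change s • (c : ℝ) • x + t • (c : ℝ) • y = (c : ℝ) • (s • x + t • y)
          rw [smul_add, smul_comm (c : ℝ) s, smul_comm (c : ℝ) t])
      exact smul_right_injective _ hc0.ne' h1
    obtain ⟨bb, hbb⟩ := hv v hvext
    refine ⟨bb, ?_⟩
    rw [hbb]
    exact (edgeVectors_smul hc0 v).symm

theorem edges_smul {c : ℕ} (hc : 1 ≤ c) (hP : IsSmooth P) : EdgesAtLeast c ((c : ℝ) • P) := by
  have hc0 : (0 : ℝ) < c := by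
    have : 0 < c := hc
    exact_mod_cast this
  obtain ⟨D⟩ := sd_of_smooth P hP
  intro w hw e he
  obtain ⟨v, hvP, rfl⟩ := hw.1
  have hvext : v ∈ P.extremePoints ℝ := by
    refine mem_extremePoints_iff_left.2 ⟨hvP, fun x hx y hy hxy => ?_⟩
    have h1 := (mem_extremePoints_iff_left.1 hw).2 ((c : ℝ) • x) (Set.smul_mem_smul_set hx)
      ((c : ℝ) • y) (Set.smul_mem_smul_set hy) (by
        obtain ⟨s, t, hs, ht, hst, rfl⟩ := hxy
        refine ⟨s, t, hs, ht, hst, ?_⟩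
        change s • (c : ℝ) • x + t • (c : ℝ) • y = (c : ℝ) • (s • x + t • y)
        rw [smul_add, smul_comm (c : ℝ) s, smul_comm (c : ℝ) t])
    exact smul_right_injective _ hc0.ne' h1
  obtain ⟨v', hv', rfl⟩ := ext_vt D hvext
  have he' : e ∈ edgeVectors P (toR v') := by
    rw [← edgeVectors_smul hc0 (toR v')]
    exact he
  rw [← D.edge v' hv'] at he'
  obtain ⟨i, rfl⟩ := he'
  have h1 := D.mem v' hv' i
  rw [toR_add] at h1
  change (c : ℝ) • toR v' + (c : ℝ) • toR (D.e v' i) ∈ (c : ℝ) • P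
  rw [← smul_add]
  exact Set.smul_mem_smul_set h1

/-- Multiples `c P` with `d ≤ 2 c`. -/
theorem idp_of_multiple {c : ℕ} (hP : IsSmooth P) (hc : 1 ≤ c) (hdc : d ≤ 2 * c) :
    HasIDP ((c : ℝ) • P) :=
  idp_of_half (smooth_smul hc hP) hdc (edges_smul hc hP)

end H98OD
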