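import Pool.Agent.H98.OI.Bad

/-!
# The covering theorem with shifted boxes

Charts: for every `v` in a finite set `S` of vertices a set `I v` of directions, such that all the lattices
spanned by `e v i`, `i ∈ I v`, agree, and lattice points `a v`, `a' v` with
`x - a v - a' v = ∑ i ∈ I v, t v i e v i`, `t v i ≥ 1`. If `a v + ∑ c_i e v i ∈ A` and
`a' v + ∑ c_i e v i ∈ B` for `0 ≤ c ≤ 1`, then `x = p + (x - p)` with a lattice point `p ∈ A`, `x - p ∈ B`.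
-/

namespace H98OD

open H66OD H19OZ Matrix
open scoped Classical

variable {d : ℕ} {P : Set (Fin d → ℝ)}

theorem mu_gen (S : Finset (Fin d → ℤ)) (g : (Fin d → ℤ) → Fin d → ℝ)
    (hn : ∀ n : Fin d → ℝ, ∃ v ∈ S, 0 ≤ n ⬝ᵥ g v) :
    ∃ μ : (Fin d → ℤ) → ℝ, (∀ v ∈ S, 0 ≤ μ v) ∧ ∑ v ∈ S, μ v = 1 ∧ ∑ v ∈ S, μ v • g v = 0 := by
  let L : (S → ℝ) →ₗ[ℝ] (Fin d → ℝ) :=
    ∑ v : S, (LinearMap.proj v).smulRight (g v.1)
  have hL : ∀ μ, L μ = ∑ v : S, μ v • g v.1 := by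
    intro μ
    simp only [L, LinearMap.sum_apply, LinearMap.smulRight_apply, LinearMap.proj_apply]
  by_cases h0 : (0 : Fin d → ℝ) ∈ L '' stdSimplex ℝ S
  · obtain ⟨μ, ⟨hμ0, hμ1⟩, hμ⟩ := h0
    refine ⟨fun v => if h : v ∈ S then μ ⟨v, h⟩ else 0, fun v hv => ?_, ?_, ?_⟩
    · simp only [dif_pos hv]
      exact hμ0 _
    · rw [← Finset.sum_coe_sort S]
      rw [← hμ1]
      exact Finset.sum_congr rfl fun v _ => by simp only [v.2, dite_true]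
    · rw [← Finset.sum_coe_sort S]
      rw [← hμ, hL]
      exact Finset.sum_congr rfl fun v _ => by simp only [v.2, dite_true]
  · exfalso
    have hconv : Convex ℝ (L '' stdSimplex ℝ S) := (convex_stdSimplex ℝ _).linear_image L
    have hcpt : IsCompact (L '' stdSimplex ℝ S) :=
      (isCompact_stdSimplex ℝ _).image (LinearMap.continuous_on_pi L)
    obtain ⟨f, u, hf1, hf2⟩ := geometric_hahn_banach_closed_point hconv hcpt.isClosed h0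
    rw [map_zero] at hf2
    have hfn : ∀ z, f z = (fun i => f (Pi.single i 1)) ⬝ᵥ z := by
      intro z
      have h1 := LinearMap.pi_apply_eq_sum_univ (f : (Fin d → ℝ) →ₗ[ℝ] ℝ) z
      have h2 : f z = ∑ i, z i • f (fun j => if i = j then 1 else 0) := h1
      rw [h2]
      unfold dotProduct
      refine Finset.sum_congr rfl fun i _ => ?_
      rw [smul_eq_mul, mul_comm]
      congr 2
      funext j
      rw [Pi.single_apply]
      exact if_congr eq_comm rfl rfl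
    obtain ⟨v, hv, hnn⟩ := hn (fun i => f (Pi.single i 1))
    rw [← hfn] at hnn
    have hmem : g v ∈ L '' stdSimplex ℝ S := by
      refine ⟨Pi.single ⟨v, hv⟩ 1, single_mem_stdSimplex ℝ _, ?_⟩
      rw [hL, Finset.sum_eq_single (⟨v, hv⟩ : S)]
      · rw [Pi.single_eq_same, one_smul]
      · intro w _ hw
        rw [Pi.single_eq_of_ne hw, zero_smul]
      · intro h; exact absurd (Finset.mem_univ _) h
    have := hf1 _ hmem
    linarith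

/-- Extension by zero. -/
noncomputable def ext0 (S : Finset (Fin d → ℤ)) (I : (Fin d → ℤ) → Finset (Fin d))
    (γ : ∀ s : {v // v ∈ S}, {i // i ∈ I s.1} → ℝ) (v : Fin d → ℤ) (i : Fin d) : ℝ :=
  if h : v ∈ S then (if h' : i ∈ I v then γ ⟨v, h⟩ ⟨i, h'⟩ else 0) else 0

theorem ext0_apply (S : Finset (Fin d → ℤ)) (I : (Fin d → ℤ) → Finset (Fin d))
    (γ : ∀ s : {v // v ∈ S}, {i // i ∈ I s.1} → ℝ) {v : Fin d → ℤ} {i : Fin d}
    (h : v ∈ S) (h' : i ∈ I v) : ext0 S I γ v i = γ ⟨v, h⟩ ⟨i, h'⟩ := by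
  rw [ext0, dif_pos h, dif_pos h']

theorem ext0_sum (S : Finset (Fin d → ℤ)) (I : (Fin d → ℤ) → Finset (Fin d))
    (γ : ∀ s : {v // v ∈ S}, {i // i ∈ I s.1} → ℝ) (a : (Fin d → ℤ) → Fin d → ℝ) :
    ∑ s : {v // v ∈ S}, ∑ i : {i // i ∈ I s.1}, γ s i * a s.1 i.1 =
      ∑ v ∈ S, ∑ i ∈ I v, ext0 S I γ v i * a v i := by
  rw [← Finset.sum_coe_sort S]
  refine Finset.sum_congr rfl fun s _ => ?_
  rw [← Finset.sum_coe_sort (I s.1)]
  refine Finset.sum_congr rfl fun i _ => ?_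
  rw [ext0_apply S I γ s.2 i.2]

/-- The coefficients. -/
noncomputable def ccf (μ : ℝ) (g : ℝ) : ℝ := if μ = 0 then 1 / 2 else 1 / 2 - g / μ

theorem ccf_bd {μ g : ℝ} (h0 : 0 ≤ μ) (hg : |g| ≤ μ / 2) : 0 ≤ ccf μ g ∧ ccf μ g ≤ 1 := by
  unfold ccf
  split_ifs with h2
  · constructor <;> norm_num
  · have h3 : 0 < μ := lt_of_le_of_ne h0 (Ne.symm h2)
    have h4 := abs_le.1 hg
    have h5 : g / μ ≤ 1 / 2 := by
      rw [div_le_iff₀ h3]
      linarith [h4.2]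
    have h6 : -(1 / 2) ≤ g / μ := by
      rw [le_div_iff₀ h3]
      linarith [h4.1]
    constructor <;> linarith

theorem ccf_mul {μ g : ℝ} (hg : |g| ≤ μ / 2) : μ * ccf μ g = μ / 2 - g := by
  unfold ccf
  split_ifs with h2
  · rw [h2, zero_div] at hg
    have h5 : g = 0 := abs_eq_zero.1 (le_antisymm hg (abs_nonneg _))
    rw [h2, h5]
    ring
  · field_simp

/-- Coordinates of the edge vectors at `v` in the edge basis at `v0`. -/
def Bm (D : SD P) (I : (Fin d → ℤ) → Finset (Fin d)) (v0 v : Fin d → ℤ) :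
    Matrix {i // i ∈ I v} {j // j ∈ I v0} ℤ :=
  fun i j => D.u v0 j.1 ⬝ᵥ D.e v i.1

theorem bm_mul (D : SD P) {v v0 : Fin d → ℤ} (hv : v ∈ D.Vt) (hv0 : v0 ∈ D.Vt)
    {I : (Fin d → ℤ) → Finset (Fin d)}
    (hdir : ∀ i ∈ I v, ∀ j, j ∉ I v0 → D.u v0 j ⬝ᵥ D.e v i = 0) :
    Bm D I v0 v * Bm D I v v0 = 1 := by
  ext i i'
  have hexp : D.e v i.1 = ∑ j, (D.u v0 j ⬝ᵥ D.e v i.1) • D.e v0 j := by
    apply toR_injective
    rw [toR_sum]
    conv_lhs => rw [D.span v0 hv0 (toR (D.e v i.1))]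
    refine Finset.sum_congr rfl fun j _ => ?_
    rw [toR_dot, toR_zsmul]
  have h1 : D.u v i'.1 ⬝ᵥ D.e v i.1 =
      ∑ j, (D.u v0 j ⬝ᵥ D.e v i.1) * (D.u v i'.1 ⬝ᵥ D.e v0 j) := by
    conv_lhs => rw [hexp]
    rw [dotProduct_sum]
    refine Finset.sum_congr rfl fun j _ => ?_
    rw [dotProduct_smul, smul_eq_mul]
  have h2 : ∑ j, (D.u v0 j ⬝ᵥ D.e v i.1) * (D.u v i'.1 ⬝ᵥ D.e v0 j) =
      ∑ j ∈ I v0, (D.u v0 j ⬝ᵥ D.e v i.1) * (D.u v i'.1 ⬝ᵥ D.e v0 j) := by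
    symm
    refine Finset.sum_subset (Finset.subset_univ _) fun j _ hj => ?_
    rw [hdir i.1 i.2 j hj, zero_mul]
  rw [Matrix.mul_apply]
  have h3 : ∑ j : {j // j ∈ I v0}, Bm D I v0 v i j * Bm D I v v0 j i' =
      ∑ j ∈ I v0, (D.u v0 j ⬝ᵥ D.e v i.1) * (D.u v i'.1 ⬝ᵥ D.e v0 j) :=
    Finset.sum_coe_sort (I v0)
      (fun j => (D.u v0 j ⬝ᵥ D.e v i.1) * (D.u v i'.1 ⬝ᵥ D.e v0 j))
  rw [h3, ← h2, ← h1, D.dual v hv]
  by_cases h : i = i'
  · rw [h, Matrix.one_apply_eq, if_pos rfl]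
  · rw [Matrix.one_apply_ne h, if_neg fun h' => h (Subtype.ext h'.symm)]

theorem cover (D : SD P) (S : Finset (Fin d → ℤ)) (hS : ∀ v ∈ S, v ∈ D.Vt)
    (I : (Fin d → ℤ) → Finset (Fin d))
    (hdir : ∀ v ∈ S, ∀ v' ∈ S, ∀ i ∈ I v, ∀ j, j ∉ I v' → D.u v' j ⬝ᵥ D.e v i = 0)
    (a a' : (Fin d → ℤ) → (Fin d → ℤ))
    (hpt : ∀ v ∈ S, ∀ v' ∈ S, ∀ j, j ∉ I v' → D.u v' j ⬝ᵥ (a v - a v') = 0)
    (x : Fin d → ℤ) (t : (Fin d → ℤ) → Fin d → ℝ)
    (hx : ∀ v ∈ S, toR x - toR (a v) - toR (a' v) = ∑ i ∈ I v, t v i • toR (D.e v i))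
    (ht : ∀ v ∈ S, ∀ i ∈ I v, 1 ≤ t v i)
    (hn : ∀ n : Fin d → ℝ, ∃ v ∈ S, ∀ i ∈ I v, 0 ≤ n ⬝ᵥ toR (D.e v i))
    (A B : Set (Fin d → ℝ)) (hA : Convex ℝ A) (hB : Convex ℝ B)
    (hAb : ∀ v ∈ S, ∀ c : Fin d → ℝ, (∀ i ∈ I v, 0 ≤ c i ∧ c i ≤ 1) →
      toR (a v) + ∑ i ∈ I v, c i • toR (D.e v i) ∈ A)
    (hBb : ∀ v ∈ S, ∀ c : Fin d → ℝ, (∀ i ∈ I v, 0 ≤ c i ∧ c i ≤ 1) →
      toR (a' v) + ∑ i ∈ I v, c i • toR (D.e v i) ∈ B) :
    ∃ p : Fin d → ℤ, toR p ∈ A ∧ toR (x - p) ∈ B := by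
  obtain ⟨μ, hμ0, hμ1, hμg⟩ := mu_gen S (fun v => ∑ i ∈ I v, (t v i - 1) • toR (D.e v i)) (by
    intro n
    obtain ⟨v, hv, h⟩ := hn n
    refine ⟨v, hv, ?_⟩
    rw [dotProduct_sum]
    refine Finset.sum_nonneg fun i hi => ?_
    rw [dotProduct_smul, smul_eq_mul]
    have := ht v hv i hi
    exact mul_nonneg (by linarith) (h i hi))
  obtain ⟨v0, hv0, -⟩ := hn 0
  have hv0t := hS v0 hv0
  obtain ⟨c0, hc0⟩ : ∃ c0 : Fin d → ℝ, c0 = ∑ v ∈ S,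
      μ v • (toR (a v) + (1 / 2 : ℝ) • ∑ i ∈ I v, toR (D.e v i)) := ⟨_, rfl⟩
  obtain ⟨γ, hγ, m, hm⟩ := lz_rect (S := {v // v ∈ S}) (J := {j // j ∈ I v0})
    (fun v => {i // i ∈ I v.1}) (fun v => Bm D I v0 v.1) (fun v => Bm D I v.1 v0)
    (fun v => bm_mul D (hS v.1 v.2) hv0t (hdir v.1 v.2 v0 hv0))
    (fun v => bm_mul D hv0t (hS v.1 v.2) (hdir v0 hv0 v.1 v.2)) (fun v => μ v.1)
    (fun v => hμ0 v.1 v.2) (by rw [Finset.sum_coe_sort S μ]; exact hμ1)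
    (fun j => toR (D.u v0 j.1) ⬝ᵥ (c0 - toR (a v0)))
  obtain ⟨g, hg⟩ : ∃ g : (Fin d → ℤ) → Fin d → ℝ, g = ext0 S I γ := ⟨_, rfl⟩
  have hgb : ∀ v ∈ S, ∀ i ∈ I v, |g v i| ≤ μ v / 2 := by
    intro v hv i hi
    rw [hg, ext0_apply S I γ hv hi]
    exact hγ ⟨v, hv⟩ ⟨i, hi⟩
  have hmj : ∀ j (hj : j ∈ I v0), toR (D.u v0 j) ⬝ᵥ (c0 - toR (a v0)) - (m ⟨j, hj⟩ : ℝ) =
      ∑ v ∈ S, ∑ i ∈ I v, g v i * (toR (D.u v0 j) ⬝ᵥ toR (D.e v i)) := by
    intro j hj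
    have h1 := hm ⟨j, hj⟩
    rw [h1, hg, ← ext0_sum S I γ (fun v i => toR (D.u v0 j) ⬝ᵥ toR (D.e v i))]
    refine Finset.sum_congr rfl fun s _ => Finset.sum_congr rfl fun i _ => ?_
    rw [toR_dot]
    rfl
  obtain ⟨c, hc⟩ : ∃ c : (Fin d → ℤ) → Fin d → ℝ, c = fun v i => ccf (μ v) (g v i) := ⟨_, rfl⟩
  have hc01 : ∀ v ∈ S, ∀ i ∈ I v, 0 ≤ c v i ∧ c v i ≤ 1 := by
    intro v hv i hi
    rw [hc]
    exact ccf_bd (hμ0 v hv) (hgb v hv i hi)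
  have hcm : ∀ v ∈ S, ∀ i ∈ I v, μ v * c v i = μ v / 2 - g v i := by
    intro v hv i hi
    rw [hc]
    exact ccf_mul (hgb v hv i hi)
  obtain ⟨z, hz⟩ : ∃ z : Fin d → ℝ, z = ∑ v ∈ S,
      μ v • (toR (a v) + ∑ i ∈ I v, c v i • toR (D.e v i)) := ⟨_, rfl⟩
  have hzA : z ∈ A := by
    rw [hz]
    exact hA.sum_mem hμ0 hμ1 fun v hv => hAb v hv (c v) (hc01 v hv)
  have hz2 : z = c0 - ∑ v ∈ S, ∑ i ∈ I v, g v i • toR (D.e v i) := by
    rw [hz, hc0, ← Finset.sum_sub_distrib]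
    refine Finset.sum_congr rfl fun v hv => ?_
    rw [smul_add, smul_add, Finset.smul_sum, Finset.smul_sum,
      Finset.smul_sum, add_sub_assoc, ← Finset.sum_sub_distrib]
    congr 1
    refine Finset.sum_congr rfl fun i hi => ?_
    rw [smul_smul, hcm v hv i hi, smul_smul]
    module
  have hz3 : z - toR (a v0) = ∑ v ∈ S,
      μ v • ((toR (a v) - toR (a v0)) + ∑ i ∈ I v, c v i • toR (D.e v i)) := by
    have h1 : toR (a v0) = ∑ v ∈ S, μ v • toR (a v0) := by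
      rw [← Finset.sum_smul, hμ1, one_smul]
    calc z - toR (a v0) = z - ∑ v ∈ S, μ v • toR (a v0) := by rw [← h1]
      _ = _ := by
        rw [hz, ← Finset.sum_sub_distrib]
        refine Finset.sum_congr rfl fun v hv => ?_
        module
  have hcoef1 : ∀ j (hj : j ∈ I v0), toR (D.u v0 j) ⬝ᵥ (z - toR (a v0)) = (m ⟨j, hj⟩ : ℝ) := by
    intro j hj
    have h1 : z - toR (a v0) = (c0 - toR (a v0)) -
        ∑ v ∈ S, ∑ i ∈ I v, g v i • toR (D.e v i) := by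
      rw [hz2]
      abel
    have h2 : toR (D.u v0 j) ⬝ᵥ (∑ v ∈ S, ∑ i ∈ I v, g v i • toR (D.e v i)) =
        ∑ v ∈ S, ∑ i ∈ I v, g v i * (toR (D.u v0 j) ⬝ᵥ toR (D.e v i)) := by
      rw [dotProduct_sum]
      refine Finset.sum_congr rfl fun v _ => ?_
      rw [dotProduct_sum]
      refine Finset.sum_congr rfl fun i _ => ?_
      rw [dotProduct_smul, smul_eq_mul]
    rw [h1, dotProduct_sub, h2, ← hmj j hj]
    ring
  have hcoef0 : ∀ j, j ∉ I v0 → toR (D.u v0 j) ⬝ᵥ (z - toR (a v0)) = 0 := by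
    intro j hj
    rw [hz3, dotProduct_sum]
    refine Finset.sum_eq_zero fun v hv => ?_
    have h1 : toR (D.u v0 j) ⬝ᵥ (toR (a v) - toR (a v0)) = 0 := by
      rw [← toR_sub, toR_dot, hpt v hv v0 hv0 j hj]
      simp
    rw [dotProduct_smul, dotProduct_add, h1, dotProduct_sum,
      Finset.sum_eq_zero, add_zero, smul_zero]
    intro i hi
    rw [dotProduct_smul, toR_dot, hdir v hv v0 hv0 i hi j hj]
    simp
  obtain ⟨p, hp⟩ : ∃ p : Fin d → ℤ, p = a v0 + ∑ j : {j // j ∈ I v0}, m j • D.e v0 j.1 :=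
    ⟨_, rfl⟩
  have hpz : toR p = z := by
    have h1 := D.span v0 hv0t (z - toR (a v0))
    have h2 : ∑ i, (toR (D.u v0 i) ⬝ᵥ (z - toR (a v0))) • toR (D.e v0 i) =
        ∑ i ∈ I v0, (toR (D.u v0 i) ⬝ᵥ (z - toR (a v0))) • toR (D.e v0 i) := by
      symm
      refine Finset.sum_subset (Finset.subset_univ _) fun i _ hi => ?_
      rw [hcoef0 i hi, zero_smul]
    have h3 : toR p = toR (a v0) + ∑ j : {j // j ∈ I v0}, (m j : ℝ) • toR (D.e v0 j.1) := by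
      rw [hp, toR_add, toR_sum]
      congr 1
      exact Finset.sum_congr rfl fun j _ => toR_zsmul _ _
    rw [h3]
    rw [h2, ← Finset.sum_coe_sort (I v0)] at h1
    have h4 : ∑ j : {j // j ∈ I v0}, (m j : ℝ) • toR (D.e v0 j.1) = z - toR (a v0) := by
      rw [h1]
      exact Finset.sum_congr rfl fun j _ => by rw [hcoef1 j.1 j.2]
    rw [h4]
    abel
  refine ⟨p, hpz ▸ hzA, ?_⟩
  have h1 : toR x = ∑ v ∈ S, μ v • toR x := by
    rw [← Finset.sum_smul, hμ1, one_smul]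
  have h2 : toR (x - p) = ∑ v ∈ S, μ v • (∑ i ∈ I v, (t v i - 1) • toR (D.e v i)) +
      ∑ v ∈ S, μ v • (toR (a' v) + ∑ i ∈ I v, (1 - c v i) • toR (D.e v i)) := by
    calc toR (x - p) = ∑ v ∈ S, μ v • toR x - z := by rw [toR_sub, hpz, ← h1]
      _ = _ := by
        rw [hz, ← Finset.sum_sub_distrib, ← Finset.sum_add_distrib]
        refine Finset.sum_congr rfl fun v hv => ?_
        have h5 : toR x = toR (a v) + toR (a' v) + ∑ i ∈ I v, t v i • toR (D.e v i) := by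
          rw [← hx v hv]
          abel
        rw [h5]
        have h6 : ∑ i ∈ I v, (t v i - 1) • toR (D.e v i) =
            ∑ i ∈ I v, t v i • toR (D.e v i) - ∑ i ∈ I v, toR (D.e v i) := by
          rw [← Finset.sum_sub_distrib]
          exact Finset.sum_congr rfl fun i _ => by rw [sub_smul, one_smul]
        have h7 : ∑ i ∈ I v, (1 - c v i) • toR (D.e v i) =
            ∑ i ∈ I v, toR (D.e v i) - ∑ i ∈ I v, c v i • toR (D.e v i) := by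
          rw [← Finset.sum_sub_distrib]
          exact Finset.sum_congr rfl fun i _ => by rw [sub_smul, one_smul]
        rw [h6, h7]
        module
  rw [h2, hμg, zero_add]
  refine hB.sum_mem hμ0 hμ1 fun v hv => hBb v hv _ fun i hi => ?_
  have := hc01 v hv i hi
  constructor <;> linarith

end H98OD
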