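import Pool.Agent.H98.OD.Defs

/-!
# Edges leaving short simplex faces (definitions)

Definitions for MP_a35d42_co (Oda: is every smooth lattice polytope IDP?).
-/

namespace H98OD

open H66OD

/-- `F` has an edge of lattice length `N ≥ 1`: two vertices `v` and `v + N e` of `P` belong to `F`, where `e` is a
primitive integer vector pointing from `v` along an edge of `P`. -/
def HasEdgeOfLength {d : ℕ} (N : ℕ) (P F : Set (Fin d → ℝ)) : Prop :=
  1 ≤ N ∧ ∃ v ∈ P.extremePoints ℝ, ∃ e ∈ edgeVectors P v,
    v + (N : ℝ) • toR e ∈ P.extremePoints ℝ ∧ v ∈ F ∧ v + (N : ℝ) • toR e ∈ F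

/-- Edges leaving short simplex faces are long. Let `F` be a face of `P` which is a simplex of dimension `k`,
`2 ≤ k < d`, with an edge of lattice length `N < k`, and suppose that `F` is not contained in a larger face of `P`
which is a simplex. Then every edge of `P` which meets `F` in one vertex `v` only has lattice length at least
`d - N`: if `e` is its primitive vector pointing from `v`, then `v + (d - N) e` is in `P`. -/
def LongLeavingEdges {d : ℕ} (P : Set (Fin d → ℝ)) : Prop :=
  ∀ (k N : ℕ) (F : Set (Fin d → ℝ)), 2 ≤ k → k < d → N < k → IsSimplexFace k P F →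
    HasEdgeOfLength N P F →
    (∀ (k' : ℕ) (F' : Set (Fin d → ℝ)), IsSimplexFace k' P F' → F ⊆ F' → F' = F) →
    ∀ v ∈ P.extremePoints ℝ, v ∈ F → ∀ e ∈ edgeVectors P v, (∀ t : ℝ, 0 < t → v + t • toR e ∉ F) →
      v + ((d : ℝ) - N) • toR e ∈ P

end H98OD
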