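import Pool.Agent.H98.OI.Good
import Pool.Agent.H98.OI.Cover

/-!
# Points of `(k+1) P` far from the short simplex faces

`far_step`: if for every short simplex face, seen from a vertex `v`, the heights `t j` of `x` over the face satisfy
`|T| ≤ N + ∑ j ∉ T, c_j ⌊(t_j - 1) / 2⌋`, then `x = p + (x - p)` with lattice points `p ∈ P`, `x - p ∈ k P`.
-/

namespace H98OD

open H66OD H19OZ Matrix
open scoped Classical Pointwise

variable {d : ℕ} {P : Set (Fin d → ℝ)}

/-- Every linear form is nonnegative on the edge directions at some vertex of the minimal face. -/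
theorem nn_dir (D : SD P) {y : Fin d → ℝ} (hy : y ∈ P) (n : Fin d → ℝ) :
    ∃ v ∈ VF D y, ∀ i ∈ If D y v, 0 ≤ n ⬝ᵥ toR (D.e v i) := by
  obtain ⟨v, hv, hvF, hmin⟩ := fc_lp D hy n
  refine ⟨v, Finset.mem_filter.2 ⟨hv, hvF⟩, fun i hi => ?_⟩
  have hi' := (Finset.mem_filter.1 hi).2
  have hF : toR (v + D.e v i) ∈ Fc P y := by
    refine fc_of_tight D hy (D.mem v hv i) hv hvF fun j hj => ?_
    have hji : j ≠ i := by
      rintro rfl
      rw [hj] at hi'
      exact lt_irrefl _ hi'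
    rw [toR_add, add_sub_cancel_left, toR_dot, D.dual v hv j i, if_neg hji, Int.cast_zero]
  have h1 := hmin _ hF
  rw [toR_add, dotProduct_add] at h1
  linarith

/-- Integer coordinates of `x - (k+1) v`. -/
def tv (D : SD P) (k : ℕ) (x : Fin d → ℤ) (v : Fin d → ℤ) (i : Fin d) : ℕ :=
  (D.u v i ⬝ᵥ (x - ((k : ℤ) + 1) • v)).toNat

theorem tv_real (D : SD P) {k : ℕ} {x : Fin d → ℤ} {y : Fin d → ℝ} (hy : y ∈ P)
    (hxy : toR x = ((k : ℝ) + 1) • y) {v : Fin d → ℤ} (hv : v ∈ D.Vt) (i : Fin d) :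
    ((tv D k x v i : ℕ) : ℝ) = ((k : ℝ) + 1) * pf D (v, i) y := by
  have h1 : ((D.u v i ⬝ᵥ (x - ((k : ℤ) + 1) • v) : ℤ) : ℝ) = ((k : ℝ) + 1) * pf D (v, i) y := by
    rw [← toR_dot, toR_sub, toR_zsmul, hxy]
    simp only [pf]
    push_cast
    rw [← smul_sub, dotProduct_smul, smul_eq_mul]
  have h2 : (0 : ℝ) ≤ ((D.u v i ⬝ᵥ (x - ((k : ℤ) + 1) • v) : ℤ) : ℝ) := by
    rw [h1]
    exact mul_nonneg (by positivity) (pf_nn D (a := (v, i)) hv hy)
  have h3 : 0 ≤ D.u v i ⬝ᵥ (x - ((k : ℤ) + 1) • v) := by exact_mod_cast h2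
  rw [← h1]
  have h4 : ((tv D k x v i : ℕ) : ℤ) = D.u v i ⬝ᵥ (x - ((k : ℤ) + 1) • v) := Int.toNat_of_nonneg h3
  rw [← h4]
  simp

theorem tv_sum (D : SD P) {k : ℕ} {x : Fin d → ℤ} {y : Fin d → ℝ} (hy : y ∈ P)
    (hxy : toR x = ((k : ℝ) + 1) • y) {v : Fin d → ℤ} (hv : v ∈ D.Vt) :
    toR x - ((k : ℝ) + 1) • toR v = ∑ i, (tv D k x v i : ℝ) • toR (D.e v i) := by
  have e2 := D.span v hv (toR x - ((k : ℝ) + 1) • toR v)
  refine e2.trans (Finset.sum_congr rfl fun i _ => ?_)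
  congr 1
  rw [tv_real D hy hxy hv, hxy, ← smul_sub, dotProduct_smul, smul_eq_mul]
  rfl

theorem tv_If (D : SD P) {k : ℕ} {x : Fin d → ℤ} {y : Fin d → ℝ} (hy : y ∈ P)
    (hxy : toR x = ((k : ℝ) + 1) • y) {v : Fin d → ℤ} (hv : v ∈ D.Vt) (i : Fin d) :
    i ∈ If D y v ↔ 1 ≤ tv D k x v i := by
  have h1 := tv_real D hy hxy hv i
  have hk : (0 : ℝ) < (k : ℝ) + 1 := by positivity
  have h2 : i ∈ If D y v ↔ 0 < pf D (v, i) y := by
    rw [If, Finset.mem_filter]
    exact ⟨fun h => h.2, fun h => ⟨Finset.mem_univ _, h⟩⟩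
  rw [h2]
  constructor
  · intro h
    have h3 : (0 : ℝ) < ((tv D k x v i : ℕ) : ℝ) := by
      rw [h1]
      exact mul_pos hk h
    have h4 : 0 < tv D k x v i := by exact_mod_cast h3
    exact h4
  · intro h
    have h3 : (0 : ℝ) < ((tv D k x v i : ℕ) : ℝ) := by
      have : 0 < tv D k x v i := h
      exact_mod_cast this
    rw [h1] at h3
    exact (pos_iff_pos_of_mul_pos h3).1 hk

/-- Boxes at one vertex. -/
theorem boxAt (D : SD P) {v : Fin d → ℤ} (hB : ∀ T, toR (bx D v T) ∈ P) (c : Fin d → ℝ)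
    (h0 : ∀ i, 0 ≤ c i) (h1 : ∀ i, c i ≤ 1) : toR v + ∑ i, c i • toR (D.e v i) ∈ P := by
  have key : ∀ T : Finset (Fin d), ∀ T' : Finset (Fin d), Disjoint T T' →
      toR v + ∑ i ∈ T', toR (D.e v i) + ∑ i ∈ T, c i • toR (D.e v i) ∈ P := by
    intro T
    induction T using Finset.induction_on with
    | empty =>
      intro T' _
      have := hB T'
      rw [bx, toR_add, toR_sum] at this
      simpa using this
    | insert a T ha ih =>
      intro T' hd
      rw [Finset.disjoint_insert_left] at hd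
      have h2 := ih T' hd.2
      have h3 := ih (insert a T') (by
        rw [Finset.disjoint_insert_right]
        exact ⟨ha, hd.2⟩)
      have h4 := D.convex h2 h3 (sub_nonneg.2 (h1 a)) (h0 a) (sub_add_cancel 1 (c a))
      rw [Finset.sum_insert hd.1] at h4
      rw [Finset.sum_insert ha]
      convert h4 using 1
      module
  have := key Finset.univ ∅ (Finset.disjoint_empty_right _)
  simpa using this

theorem pf_lin (D : SD P) {v : Fin d → ℤ} (hv : v ∈ D.Vt) (c : Fin d → ℝ) (l : Fin d) :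
    pf D (v, l) (toR v + ∑ i, c i • toR (D.e v i)) = c l := by
  rw [pf_add, pf_self, zero_add, dotProduct_sum]
  rw [Finset.sum_congr rfl fun i _ => by rw [dotProduct_smul, ue D hv, smul_eq_mul]]
  simp

/-- Admissible shifts at a vertex on a short simplex face. -/
theorem shift_bad {D : SD P} (hI : Iso D) {v : Fin d → ℤ} {T : Finset (Fin d)}
    {b : (Fin d → ℤ) × Fin d} {N : ℕ} (B : Bad D v T b N) (t : Fin d → ℕ)
    (hfar : T.card ≤ N + ∑ j ∈ Tᶜ, (cf D b v j).toNat * ((t j - 1) / 2)) :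
    ∃ s : Fin d → ℕ, (∀ i, s i ≤ (t i - 1) / 2) ∧ ∀ c : Fin d → ℝ, (∀ i, 0 ≤ c i) →
      (∀ i, c i ≤ 1) → toR v + ∑ i, ((s i : ℝ) + c i) • toR (D.e v i) ∈ P := by
  obtain ⟨c0, hc0⟩ : ∃ c0 : Fin d → ℕ, c0 = fun j => (cf D b v j).toNat := ⟨_, rfl⟩
  have hc0' : ∀ j ∈ Tᶜ, ((c0 j : ℕ) : ℤ) = cf D b v j := by
    intro j hj
    rw [hc0]
    exact Int.toNat_of_nonneg (B.cf_nn hI (Finset.mem_compl.1 hj))
  have hc0R : ∀ j ∈ Tᶜ, ((cf D b v j : ℤ) : ℝ) = (c0 j : ℝ) := by
    intro j hj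
    rw [← hc0' j hj]
    simp
  obtain ⟨J, hJ⟩ : ∃ J : Finset (Fin d), J = Tᶜ.filter fun j => 1 ≤ c0 j := ⟨_, rfl⟩
  have hfar' : T.card ≤ N + ∑ j ∈ J, c0 j * ((t j - 1) / 2) := by
    have h1 : ∑ j ∈ J, c0 j * ((t j - 1) / 2) = ∑ j ∈ Tᶜ, c0 j * ((t j - 1) / 2) := by
      rw [hJ]
      refine Finset.sum_subset (Finset.filter_subset _ _) fun j hj hj' => ?_
      have h2 : c0 j = 0 := by
        by_contra hcon
        exact hj' (Finset.mem_filter.2 ⟨hj, by omega⟩)
      rw [h2, zero_mul]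
    rw [h1, hc0]
    exact hfar
  -- choice of the shift on `J`
  obtain ⟨g, hg, hg1, hg2⟩ : ∃ g : Fin d → ℕ, (∀ i, g i ≤ (t i - 1) / 2) ∧
      T.card ≤ N + ∑ j ∈ J, c0 j * g j ∧ N + ∑ j ∈ J, g j ≤ T.card := by
    have hlt := B.lt
    by_cases h : T.card - N ≤ ∑ j ∈ J, (t j - 1) / 2
    · obtain ⟨g, hg, hs⟩ := exists_le_sum J (fun j => (t j - 1) / 2) (T.card - N) h
      have h1 : ∑ j ∈ J, g j ≤ ∑ j ∈ J, c0 j * g j := by
        refine Finset.sum_le_sum fun j hj => ?_
        rw [hJ] at hj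
        exact Nat.le_mul_of_pos_left _ (Finset.mem_filter.1 hj).2
      exact ⟨g, hg, by omega, by omega⟩
    · have h1 := not_le.1 h
      refine ⟨fun j => (t j - 1) / 2, fun _ => le_refl _, hfar', ?_⟩
      change N + ∑ j ∈ J, (t j - 1) / 2 ≤ T.card
      omega
  refine ⟨fun i => if i ∈ J then g i else 0, fun i => ?_, fun c hc0' hc1 => ?_⟩
  · dsimp only
    split_ifs
    · exact hg i
    · exact Nat.zero_le _
  obtain ⟨m, hm⟩ : ∃ m : Fin d → ℝ, m = fun i => ((if i ∈ J then g i else 0 : ℕ) : ℝ) + c i :=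
    ⟨_, rfl⟩
  have hz : toR v + ∑ i, (((if i ∈ J then g i else 0 : ℕ) : ℝ) + c i) • toR (D.e v i) =
      toR v + ∑ i, m i • toR (D.e v i) := by rw [hm]
  rw [hz]
  have hm0 : ∀ i, 0 ≤ m i := by
    intro i
    rw [hm]
    exact add_nonneg (Nat.cast_nonneg _) (hc0' i)
  have hJT : ∀ j, j ∈ J → j ∈ Tᶜ := fun j hj => by
    rw [hJ] at hj
    exact (Finset.mem_filter.1 hj).1
  have hsumJ : ∀ w : Fin d → ℝ, ∑ j ∈ Tᶜ, w j * (((if j ∈ J then g j else 0 : ℕ)) : ℝ) =
      ∑ j ∈ J, w j * (g j : ℝ) := by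
    intro w
    symm
    rw [← Finset.sum_subset (show J ⊆ Tᶜ from fun j hj => hJT j hj)]
    · refine Finset.sum_congr rfl fun j hj => ?_
      rw [if_pos hj]
    · intro j _ hj
      rw [if_neg hj]
      simp
  have hTd : (T.card : ℝ) + ((Tᶜ).card : ℝ) = d := by
    have := Finset.card_add_card_compl T
    rw [Fintype.card_fin] at this
    exact_mod_cast this
  refine B.wedge hI _ (fun l => ?_) ?_ ?_
  · rw [pf_lin D B.hv]
    exact hm0 l
  · rw [B.pfb]
    have h1 : ∀ l, pf D (v, l) (toR v + ∑ i, m i • toR (D.e v i)) = m l := pf_lin D B.hv m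
    simp only [h1]
    have h2 : ∑ i ∈ T, m i ≤ T.card := by
      have h3 : ∑ i ∈ T, m i ≤ ∑ i ∈ T, (1 : ℝ) := by
        refine Finset.sum_le_sum fun i hi => ?_
        rw [hm]
        have h4 : i ∉ J := fun h => (Finset.mem_compl.1 (hJT i h)) hi
        simp only [if_neg h4]
        have := hc1 i
        push_cast
        linarith
      rwa [Finset.sum_const, nsmul_eq_mul, mul_one] at h3
    have h3 : ∑ j ∈ J, (c0 j : ℝ) * (g j : ℝ) ≤ ∑ j ∈ Tᶜ, (cf D b v j : ℝ) * m j := by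
      rw [← hsumJ (fun j => (c0 j : ℝ))]
      refine Finset.sum_le_sum fun j hj => ?_
      rw [hc0R j hj, hm]
      refine mul_le_mul_of_nonneg_left ?_ (Nat.cast_nonneg _)
      have := hc0' j
      dsimp only
      linarith
    have h4 : (T.card : ℝ) ≤ N + ∑ j ∈ J, (c0 j : ℝ) * (g j : ℝ) := by exact_mod_cast hg1
    linarith
  · have h1 : ∀ l, pf D (v, l) (toR v + ∑ i, m i • toR (D.e v i)) = m l := pf_lin D B.hv m
    simp only [h1]
    have h2 : ∑ j ∈ Tᶜ, m j ≤ ∑ j ∈ J, (g j : ℝ) + ((Tᶜ).card : ℝ) := by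
      have e1 : ∑ j ∈ J, (g j : ℝ) = ∑ j ∈ Tᶜ, (((if j ∈ J then g j else 0 : ℕ)) : ℝ) := by
        have := hsumJ (fun _ => 1)
        simp only [one_mul] at this
        exact this.symm
      have e2 : ((Tᶜ).card : ℝ) = ∑ j ∈ Tᶜ, (1 : ℝ) := by
        rw [Finset.sum_const, nsmul_eq_mul, mul_one]
      rw [e1, e2, ← Finset.sum_add_distrib]
      refine Finset.sum_le_sum fun j _ => ?_
      rw [hm]
      have := hc1 j
      dsimp only
      linarith
    have h3 : (N : ℝ) + ∑ j ∈ J, (g j : ℝ) ≤ T.card := by exact_mod_cast hg2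
    linarith

/-- Admissible shifts at every vertex. -/
theorem shift_ex {D : SD P} (hI : Iso D) (t : (Fin d → ℤ) → Fin d → ℕ)
    (hfar : ∀ v T b N, Bad D v T b N →
      T.card ≤ N + ∑ j ∈ Tᶜ, (cf D b v j).toNat * ((t v j - 1) / 2))
    (v : Fin d → ℤ) : ∃ s : Fin d → ℕ, v ∈ D.Vt → (∀ i, s i ≤ (t v i - 1) / 2) ∧
      ∀ c : Fin d → ℝ, (∀ i, 0 ≤ c i) →
        (∀ i, c i ≤ 1) → toR v + ∑ i, ((s i : ℝ) + c i) • toR (D.e v i) ∈ P := by
  by_cases hv : v ∈ D.Vt
  swap
  · exact ⟨fun _ => 0, fun h => absurd h hv⟩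
  by_cases hb : ∃ T b N, Bad D v T b N
  · obtain ⟨T, b, N, B⟩ := hb
    obtain ⟨s, hs⟩ := shift_bad hI B (t v) (hfar v T b N B)
    exact ⟨s, fun _ => hs⟩
  · refine ⟨fun _ => 0, fun _ => ⟨fun _ => Nat.zero_le _, fun c h0 h1 => ?_⟩⟩
    have h2 := boxAt D (v := v) (fun T => box_of_good hI T.card T rfl v hv hb) c h0 h1
    simpa using h2

theorem far_step {D : SD P} (hI : Iso D) (k : ℕ) (hk : 1 ≤ k) (x : Fin d → ℤ) {y : Fin d → ℝ}
    (hy : y ∈ P) (hxy : toR x = ((k : ℝ) + 1) • y)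
    (hfar : ∀ v T b N, Bad D v T b N →
      T.card ≤ N + ∑ j ∈ Tᶜ, (cf D b v j).toNat * ((tv D k x v j - 1) / 2)) :
    ∃ p : Fin d → ℤ, toR p ∈ P ∧ ∃ z ∈ P, toR (x - p) = (k : ℝ) • z := by
  have hkR : (1 : ℝ) ≤ (k : ℝ) := by exact_mod_cast hk
  have hk0 : (0 : ℝ) < (k : ℝ) := by linarith
  have hsx := shift_ex hI (tv D k x) hfar
  choose s hs using hsx
  have hVF : ∀ v ∈ VF D y, v ∈ D.Vt ∧ toR v ∈ Fc P y := fun v hv => Finset.mem_filter.1 hv
  -- `s = 0` outside `If`
  have hs0 : ∀ v ∈ VF D y, ∀ i, i ∉ If D y v → s v i = 0 := by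
    intro v hv i hi
    have hvt := (hVF v hv).1
    rw [tv_If D hy hxy hvt] at hi
    have := (hs v hvt).1 i
    omega
  have hs2 : ∀ v ∈ VF D y, ∀ i ∈ If D y v, 1 + 2 * s v i ≤ tv D k x v i := by
    intro v hv i hi
    have hvt := (hVF v hv).1
    rw [tv_If D hy hxy hvt] at hi
    have := (hs v hvt).1 i
    omega
  have hIfsum : ∀ v, ∀ c : Fin d → ℝ, ∑ i, (if i ∈ If D y v then c i else 0) • toR (D.e v i) =
      ∑ i ∈ If D y v, c i • toR (D.e v i) := by
    intro v c
    symm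
    rw [← Finset.sum_subset (Finset.subset_univ (If D y v))]
    · exact Finset.sum_congr rfl fun i hi => by rw [if_pos hi]
    · intro i _ hi
      rw [if_neg hi, zero_smul]
  obtain ⟨p, hpA, hpB⟩ := cover D (VF D y) (fun v hv => (hVF v hv).1) (If D y)
    (fun v hv v' hv' i hi j hj => dir D hy hv hv' hi hj)
    (fun v => v + ∑ i, (s v i : ℤ) • D.e v i) (fun v => (k : ℤ) • v + ∑ i, (s v i : ℤ) • D.e v i)
    (by
      intro v hv v' hv' j hj
      have hvt := (hVF v hv).1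
      have hvt' := (hVF v' hv').1
      have hj0 : toR (D.u v' j) ⬝ᵥ (y - toR v') = 0 := by
        refine le_antisymm (not_lt.1 fun h => hj ?_) (D.cone v' hvt' j y hy)
        exact Finset.mem_filter.2 ⟨Finset.mem_univ _, h⟩
      have h1 := fc_tight D (hVF v hv).2 hvt' hj0
      rw [← toR_sub, toR_dot] at h1
      have h2 : D.u v' j ⬝ᵥ (v - v') = 0 := by exact_mod_cast h1
      have h3 : D.u v' j ⬝ᵥ (∑ i, (s v i : ℤ) • D.e v i) = 0 := by
        rw [dotProduct_sum]
        refine Finset.sum_eq_zero fun i _ => ?_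
        rw [dotProduct_smul, smul_eq_mul]
        by_cases hi : i ∈ If D y v
        · rw [dir D hy hv hv' hi hj, mul_zero]
        · rw [hs0 v hv i hi]
          simp
      have h4 : D.u v' j ⬝ᵥ (∑ i, (s v' i : ℤ) • D.e v' i) = 0 := by
        rw [dotProduct_sum]
        refine Finset.sum_eq_zero fun i _ => ?_
        rw [dotProduct_smul, smul_eq_mul, D.dual v' hvt']
        by_cases hi : j = i
        · rw [← hi, hs0 v' hv' j hj]
          simp
        · rw [if_neg hi, mul_zero]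
      have h5 : (v + ∑ i, (s v i : ℤ) • D.e v i) - (v' + ∑ i, (s v' i : ℤ) • D.e v' i) =
          (v - v') + ∑ i, (s v i : ℤ) • D.e v i - ∑ i, (s v' i : ℤ) • D.e v' i := by abel
      rw [h5, dotProduct_sub, dotProduct_add, h2, h3, h4]
      rfl)
    x (fun v i => (tv D k x v i : ℝ) - 2 * s v i)
    (by
      intro v hv
      have hvt := (hVF v hv).1
      have h1 := tv_sum D hy hxy hvt
      have h2 : ∑ i ∈ If D y v, ((tv D k x v i : ℝ) - 2 * s v i) • toR (D.e v i) =
          ∑ i, ((tv D k x v i : ℝ) - 2 * s v i) • toR (D.e v i) := by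
        refine Finset.sum_subset (Finset.subset_univ _) fun i _ hi => ?_
        have h3 := hs0 v hv i hi
        rw [tv_If D hy hxy hvt] at hi
        have h4 : tv D k x v i = 0 := by omega
        rw [h3, h4]
        simp
      rw [h2]
      have h3 : ∑ i, ((tv D k x v i : ℝ) - 2 * s v i) • toR (D.e v i) =
          ∑ i, (tv D k x v i : ℝ) • toR (D.e v i) - (2 : ℝ) • ∑ i, (s v i : ℝ) • toR (D.e v i) := by
        rw [Finset.smul_sum, ← Finset.sum_sub_distrib]
        exact Finset.sum_congr rfl fun i _ => by rw [sub_smul, smul_smul]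
      have h4 : toR (∑ i, (s v i : ℤ) • D.e v i) = ∑ i, (s v i : ℝ) • toR (D.e v i) := by
        rw [toR_sum]
        exact Finset.sum_congr rfl fun i _ => by rw [toR_zsmul]; simp
      rw [h3, ← h1, toR_add, toR_add, h4, toR_zsmul]
      push_cast
      module)
    (by
      intro v hv i hi
      have h1 := hs2 v hv i hi
      have h2 : (1 : ℝ) + 2 * s v i ≤ tv D k x v i := by exact_mod_cast h1
      linarith)
    (nn_dir D hy) P ((k : ℝ) • P) D.convex (D.convex.smul _)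
    (by
      intro v hv c hc
      have hvt := (hVF v hv).1
      have h1 := (hs v hvt).2 (fun i => if i ∈ If D y v then c i else 0)
        (fun i => by
          split_ifs with h
          · exact (hc i h).1
          · exact le_refl _)
        (fun i => by
          split_ifs with h
          · exact (hc i h).2
          · exact zero_le_one)
      have h2 : toR (v + ∑ i, (s v i : ℤ) • D.e v i) + ∑ i ∈ If D y v, c i • toR (D.e v i) =
          toR v + ∑ i, ((s v i : ℝ) + (if i ∈ If D y v then c i else 0)) • toR (D.e v i) := by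
        simp only [add_smul, Finset.sum_add_distrib]
        rw [hIfsum, toR_add, toR_sum, add_assoc]
        congr 2
        exact Finset.sum_congr rfl fun i _ => by rw [toR_zsmul]; simp
      rw [h2]
      exact h1)
    (by
      intro v hv c hc
      have hvt := (hVF v hv).1
      have h1 := (hs v hvt).2 (fun i => if i ∈ If D y v then c i else 0)
        (fun i => by
          split_ifs with h
          · exact (hc i h).1
          · exact le_refl _)
        (fun i => by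
          split_ifs with h
          · exact (hc i h).2
          · exact zero_le_one)
      obtain ⟨W, hW⟩ : ∃ W : Fin d → ℝ, W = ∑ i, ((s v i : ℝ) +
          (if i ∈ If D y v then c i else 0)) • toR (D.e v i) := ⟨_, rfl⟩
      have h2 : toR v + W ∈ P := by rw [hW]; exact h1
      have h3 : toR v + (1 / (k : ℝ)) • W ∈ P := by
        have h4 := D.convex (D.vmem hvt) h2 (a := 1 - 1 / (k : ℝ)) (b := 1 / (k : ℝ))
          (by rw [sub_nonneg, div_le_one hk0]; exact hkR) (by positivity) (by ring)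
        have h5 : (1 - 1 / (k : ℝ)) • toR v + (1 / (k : ℝ)) • (toR v + W) =
            toR v + (1 / (k : ℝ)) • W := by module
        rw [h5] at h4
        exact h4
      refine Set.mem_smul_set.2 ⟨_, h3, ?_⟩
      have h6 : toR ((k : ℤ) • v + ∑ i, (s v i : ℤ) • D.e v i) +
          ∑ i ∈ If D y v, c i • toR (D.e v i) = (k : ℝ) • toR v + W := by
        rw [hW]
        simp only [add_smul, Finset.sum_add_distrib]
        rw [hIfsum, toR_add, toR_sum, toR_zsmul, add_assoc]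
        have e1 : ∑ i, toR ((s v i : ℤ) • D.e v i) = ∑ i, (s v i : ℝ) • toR (D.e v i) :=
          Finset.sum_congr rfl fun i _ => by rw [toR_zsmul, Int.cast_natCast]
        rw [e1, Int.cast_natCast]
      rw [h6, smul_add, smul_smul, mul_one_div_cancel hk0.ne', one_smul])
  obtain ⟨z, hz, hzp⟩ := Set.mem_smul_set.1 hpB
  exact ⟨p, hpA, z, hz, hzp.symm⟩

end H98OD
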