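import Pool.Agent.H98.OI.Adj

/-!
# Violated vertex parallelepipeds lead to short simplex faces

`bx D v T = v + ∑ i ∈ T, e v i`.

`step1`: if `bx D v T ∉ P` there is a violated facet `a` such that all edges in directions of `T` end in
`a`, or `bx D v (T.erase i) ∉ P` for some `i`, or for some edge `i ∈ T` with end point `w` the corresponding
point at `w` is not in `P`.

`find`: if `bx D v T ∉ P`, some vertex `p` of the face of `P` at `v` spanned by `T` has a set `S` of
directions whose edges all end in a facet `r` with `pf r p < |S|`.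
-/

namespace H98OD

open H66OD H19OZ Matrix

variable {d : ℕ} {P : Set (Fin d → ℝ)}

/-- The box point. -/
def bx (D : SD P) (v : Fin d → ℤ) (T : Finset (Fin d)) : Fin d → ℤ := v + ∑ i ∈ T, D.e v i

theorem pf_bx (D : SD P) (a : (Fin d → ℤ) × Fin d) (v : Fin d → ℤ) (T : Finset (Fin d)) :
    pf D a (toR (bx D v T)) = pf D a (toR v) + ∑ i ∈ T, (cf D a v i : ℝ) := by
  rw [bx, toR_add, pf_add, toR_sum, dotProduct_sum]
  congr 1
  exact Finset.sum_congr rfl fun i _ => cf_real D a v i

theorem pf_bx_self (D : SD P) {v : Fin d → ℤ} (hv : v ∈ D.Vt) (T : Finset (Fin d)) (l : Fin d) :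
    pf D (v, l) (toR (bx D v T)) = if l ∈ T then 1 else 0 := pf_box D hv T l

theorem Adj.pf_bx_far {D : SD P} {v q : Fin d → ℤ} {i : Fin d} {L : ℕ} {τ : Equiv.Perm (Fin d)}
    (A : Adj D v i q L τ) (a : (Fin d → ℤ) × Fin d) {T : Finset (Fin d)} :
    pf D a (toR (bx D v T)) = pf D a (toR (bx D q ((T.erase i).map τ.toEmbedding))) +
      pf D (q, τ i) (toR (bx D v T)) * (cf D a q (τ i) : ℝ) := by
  classical
  rw [pf_expand D a A.hq (toR (bx D v T)), pf_bx D a q]
  rw [← Equiv.sum_comp τ, ← Finset.add_sum_erase _ _ (Finset.mem_univ i), Finset.sum_map]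
  have h1 : ∑ l ∈ Finset.univ.erase i, pf D (q, τ l) (toR (bx D v T)) * (cf D a q (τ l) : ℝ) =
      ∑ l ∈ T.erase i, (cf D a q (τ l) : ℝ) := by
    have h2 : ∀ l ∈ Finset.univ.erase i,
        pf D (q, τ l) (toR (bx D v T)) * (cf D a q (τ l) : ℝ) =
          if l ∈ T then (cf D a q (τ l) : ℝ) else 0 := by
      intro l hl
      rw [A.pf_l (Finset.ne_of_mem_erase hl), pf_bx_self D A.hv]
      split_ifs <;> ring
    rw [Finset.sum_congr rfl h2, ← Finset.sum_filter]
    refine Finset.sum_congr ?_ fun _ _ => rfl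
    ext l
    simp only [Finset.mem_filter, Finset.mem_erase, Finset.mem_univ, and_true]
  rw [h1]
  simp only [Equiv.coe_toEmbedding]
  ring

theorem step1 (D : SD P) {v : Fin d → ℤ} (hv : v ∈ D.Vt) {T : Finset (Fin d)}
    (hx : toR (bx D v T) ∉ P) : ∃ a : (Fin d → ℤ) × Fin d, a.1 ∈ D.Vt ∧
      pf D a (toR (bx D v T)) < 0 ∧ 0 < pf D a (toR v) ∧
      ((∀ i ∈ T, End D v i a) ∨ (∃ i ∈ T, toR (bx D v (T.erase i)) ∉ P) ∨
        ∃ i ∈ T, ∃ w L τ, Adj D v i w L τ ∧
          toR (bx D w ((T.erase i).map τ.toEmbedding)) ∉ P ∧ 0 ≤ (cf D a w (τ i) : ℝ) ∧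
          0 ≤ pf D (w, τ i) (toR (bx D v T))) := by
  classical
  have hvP : toR v ∈ P := D.vmem hv
  set S : Finset ((Fin d → ℤ) × Fin d) :=
    (D.Vt ×ˢ Finset.univ).filter fun a => pf D a (toR (bx D v T)) < 0 with hS
  have hSne : S.Nonempty := by
    by_contra hcon
    rw [Finset.not_nonempty_iff_eq_empty] at hcon
    apply hx
    refine D.mem_of_cone _ fun q hq i => ?_
    by_contra hneg
    have : (q, i) ∈ S := by
      rw [hS, Finset.mem_filter, Finset.mem_product]
      exact ⟨⟨hq, Finset.mem_univ _⟩, not_le.1 hneg⟩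
    rw [hcon] at this
    simp at this
  obtain ⟨a, haS, hamin⟩ := Finset.exists_min_image S (fun a => pf D a (toR v)) hSne
  have haS' := Finset.mem_filter.1 haS
  have haV : a.1 ∈ D.Vt := (Finset.mem_product.1 haS'.1).1
  have hax : pf D a (toR (bx D v T)) < 0 := haS'.2
  have hcfm : ∀ i, 0 ≤ pf D a (toR v) + (cf D a v i : ℝ) := by
    intro i
    have h3 := pf_nn D haV (D.mem v hv i)
    rw [toR_add, pf_add, cf_real] at h3
    exact h3
  have h1 : 0 < pf D a (toR v) := by
    by_contra hcon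
    have h0 : pf D a (toR v) = 0 := le_antisymm (not_lt.1 hcon) (pf_nn D haV hvP)
    rw [pf_bx, h0, zero_add] at hax
    have h5 : 0 ≤ ∑ i ∈ T, (cf D a v i : ℝ) := Finset.sum_nonneg fun i _ => by
      have := hcfm i
      rw [h0, zero_add] at this
      exact this
    linarith
  refine ⟨a, haV, hax, h1, ?_⟩
  by_cases hE : ∀ i ∈ T, End D v i a
  · exact Or.inl hE
  right
  push Not at hE
  obtain ⟨i, hi, hE⟩ := hE
  by_cases hc : 0 ≤ (cf D a v i : ℝ)
  · left
    refine ⟨i, hi, fun hP => ?_⟩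
    have h2 := pf_nn D haV hP
    rw [pf_bx] at h2 hax
    rw [← Finset.add_sum_erase _ _ hi] at hax
    linarith
  · right
    obtain ⟨w, L, τ, A⟩ := far_end D hv i
    have hLpos : (0 : ℝ) < L := by exact_mod_cast A.pos
    have hwne : pf D a (toR w) ≠ 0 := fun h => hE ((A.end_iff haV h1).2 h)
    have hw1 : 1 ≤ pf D a (toR w) := by
      have e1 := pf_int D a w
      have e2 := pf_nn D haV (D.vmem A.hq)
      rw [e1] at e2 hwne ⊢
      have e4 : 0 ≤ D.u a.1 a.2 ⬝ᵥ (w - a.1) := by exact_mod_cast e2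
      have e5 : D.u a.1 a.2 ⬝ᵥ (w - a.1) ≠ 0 := by exact_mod_cast hwne
      have e6 : 1 ≤ D.u a.1 a.2 ⬝ᵥ (w - a.1) := by omega
      exact_mod_cast e6
    have hcneg : (cf D a v i : ℝ) ≤ -1 := by
      have e1 : (cf D a v i : ℝ) < 0 := not_le.1 hc
      have e2 : cf D a v i < 0 := by exact_mod_cast e1
      have e3 : cf D a v i ≤ -1 := by omega
      exact_mod_cast e3
    have hcw : (cf D a w (τ i) : ℝ) = -(cf D a v i : ℝ) := by
      rw [A.cf_i]
      push_cast
      ring
    have hh : 0 ≤ pf D (w, τ i) (toR (bx D v T)) := by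
      by_contra hcon
      have hmem : (w, τ i) ∈ S := by
        rw [hS, Finset.mem_filter, Finset.mem_product]
        exact ⟨⟨A.hq, Finset.mem_univ _⟩, not_le.1 hcon⟩
      have h2 := hamin _ hmem
      rw [A.pf_opp_v] at h2
      have h3 := A.pf_q a
      have h4 : (L : ℝ) * (cf D a v i : ℝ) ≤ L * (-1) := mul_le_mul_of_nonneg_left hcneg hLpos.le
      linarith
    refine ⟨i, hi, w, L, τ, A, fun hP => ?_, by rw [hcw]; linarith, hh⟩
    have h2 := pf_nn D haV hP
    rw [A.pf_bx_far a] at hax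
    have h3 : 0 ≤ pf D (w, τ i) (toR (bx D v T)) * (cf D a w (τ i) : ℝ) :=
      mul_nonneg hh (by rw [hcw]; linarith)
    linarith

/-- Membership of points in a face of a face. -/
theorem qf_far {D : SD P} {v q : Fin d → ℤ} {i : Fin d} {L : ℕ} {τ : Equiv.Perm (Fin d)}
    (A : Adj D v i q L τ) {T : Finset (Fin d)} {z : Fin d → ℝ}
    (hz : z ∈ Qf D q ((T.erase i).map τ.toEmbedding)) (hi : i ∈ T) : z ∈ Qf D v T := by
  refine ⟨hz.1, fun l hl => ?_⟩
  have hli : l ≠ i := by
    rintro rfl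
    exact hl hi
  rw [← A.pf_l hli]
  refine hz.2 _ fun h => ?_
  rw [Finset.mem_map] at h
  obtain ⟨l', hl', h'⟩ := h
  have h2 : l' = l := τ.injective h'
  rw [h2] at hl'
  exact hl (Finset.mem_of_mem_erase hl')

theorem qf_mono {D : SD P} {v : Fin d → ℤ} {T T' : Finset (Fin d)} (h : T ⊆ T')
    {z : Fin d → ℝ} (hz : z ∈ Qf D v T) : z ∈ Qf D v T' :=
  ⟨hz.1, fun l hl => hz.2 l fun h' => hl (h h')⟩

/-- If `bx D v T ∉ P` there is a short simplex at some vertex `p` of the face of `P` at `v` spanned by `T`, in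
directions `S` of this face. -/
theorem find (D : SD P) {v : Fin d → ℤ} (hv : v ∈ D.Vt) {T : Finset (Fin d)}
    (hx : toR (bx D v T) ∉ P) : ∃ p ∈ D.Vt, ∃ S : Finset (Fin d),
      ∃ r : (Fin d → ℤ) × Fin d, r.1 ∈ D.Vt ∧ 0 < pf D r (toR p) ∧ pf D r (toR p) < S.card ∧
        (∀ s ∈ S, End D p s r) ∧ toR p ∈ Qf D v T ∧
        ∀ s ∈ S, ∀ k, k ∉ T → cf D (v, k) p s = 0 := by
  classical
  have main : ∀ n : ℕ, ∀ T : Finset (Fin d), T.card = n → ∀ v ∈ D.Vt, toR (bx D v T) ∉ P →
      ∃ p ∈ D.Vt, ∃ S : Finset (Fin d), ∃ r : (Fin d → ℤ) × Fin d, r.1 ∈ D.Vt ∧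
        0 < pf D r (toR p) ∧ pf D r (toR p) < S.card ∧ (∀ s ∈ S, End D p s r) ∧
        toR p ∈ Qf D v T ∧ ∀ s ∈ S, ∀ k, k ∉ T → cf D (v, k) p s = 0 := by
    intro n
    induction n with
    | zero =>
      intro T hT v hv hx
      exfalso
      apply hx
      rw [Finset.card_eq_zero.1 hT, bx, Finset.sum_empty, add_zero]
      exact D.vmem hv
    | succ n ih =>
      intro T hT v hv hx
      obtain ⟨a, haV, hax, h0, h⟩ := step1 D hv hx
      rcases h with h | ⟨i, hi, h⟩ | ⟨i, hi, w, L, τ, A, h, -, -⟩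
      · refine ⟨v, hv, T, a, haV, h0, ?_, h, qf_self D hv T, fun s hs k hk => ?_⟩
        · rw [pf_bx] at hax
          have h1 : ∑ i ∈ T, (cf D a v i : ℝ) = -(T.card : ℝ) := by
            rw [Finset.sum_congr rfl (fun i hi => by
              rw [(end_cf D hv haV h0 (h i hi)).1]), Finset.sum_const, nsmul_eq_mul]
            push_cast
            ring
          rw [h1] at hax
          linarith
        · rw [cf_self D hv, if_neg]
          rintro rfl
          exact hk hs
      · obtain ⟨p, hp, S, r, h1, h2, h3, h4, h5, h6⟩ := ih (T.erase i) (by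
          rw [Finset.card_erase_of_mem hi, hT]
          omega) v hv h
        exact ⟨p, hp, S, r, h1, h2, h3, h4, qf_mono (Finset.erase_subset _ _) h5,
          fun s hs k hk => h6 s hs k fun h' => hk (Finset.mem_of_mem_erase h')⟩
      · obtain ⟨p, hp, S, r, h1, h2, h3, h4, h5, h6⟩ := ih ((T.erase i).map τ.toEmbedding) (by
          rw [Finset.card_map, Finset.card_erase_of_mem hi, hT]
          omega) w A.hq h
        refine ⟨p, hp, S, r, h1, h2, h3, h4, qf_far A h5 hi, fun s hs k hk => ?_⟩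
        have hki : k ≠ i := by
          rintro rfl
          exact hk hi
        have h7 := h6 s hs (τ k) (by
          rw [Finset.mem_map]
          rintro ⟨l, hl, h'⟩
          have h'' : l = k := τ.injective h'
          rw [h''] at hl
          exact hk (Finset.mem_of_mem_erase hl))
        have h8 : cf D (w, τ k) p s = cf D (v, k) p s := by
          unfold cf
          rw [A.u k hki]
        rw [← h8]
        exact h7
  exact main _ T rfl v hv hx

end H98OD
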