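import Pool.Agent.H98.OI.Trans

/-!
# Vertices on no short simplex face have their parallelepipeds in `P`

PROOF of `box_of_good`. Induction on the number of directions. In the last case of `step1` let `w` be the other end
of the edge `i` at `v`; `w` lies on a short simplex face `(T, b, N)` which does not contain `v`, and the slope of `b`
along the edge to `v` is `≥ 1`. Let `z_t` be the box point of the remaining directions `S` at `w`, moved by `t` in the
direction of `v`. By `Bad.wedge` `z_s ∈ P` for `s = |S ∩ T| - N` and `z_θ ∈ P` for `θ = H - |S \ T|`. The facet `(v, i)` is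
nonnegative at `z_θ`; this says that the height `h` of the box point at `v` is at least `θ - 1 ≥ s`. So the violated facet
would be violated at `z_s`. Here `H = d - N`.
-/

namespace H98OD

open H66OD H19OZ Matrix

variable {d : ℕ} {P : Set (Fin d → ℝ)}

theorem box_of_good {D : SD P} (hI : Iso D) :
    ∀ n : ℕ, ∀ T' : Finset (Fin d), T'.card = n →
      ∀ v ∈ D.Vt, (¬∃ T b N, Bad D v T b N) → toR (bx D v T') ∈ P := by
  classical
  intro n
  induction n with
  | zero =>
    intro T' hT v hv _
    rw [Finset.card_eq_zero.1 hT, bx, Finset.sum_empty, add_zero]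
    exact D.vmem hv
  | succ n ih =>
    intro T' hT' v hv hgood
    by_contra hx
    obtain ⟨a, haV, hax, h0, h⟩ := step1 D hv hx
    rcases h with h | ⟨i, hi, h⟩ | ⟨i, hi, w, L, τ, A, hbox, hcw, hh⟩
    · have hax' := hax
      rw [pf_bx] at hax'
      have h1 : ∑ i ∈ T', (cf D a v i : ℝ) = -(T'.card : ℝ) := by
        rw [Finset.sum_congr rfl (fun i hi => by
          rw [(end_cf D hv haV h0 (h i hi)).1]), Finset.sum_const, nsmul_eq_mul]
        push_cast
        ring
      rw [h1] at hax'
      obtain ⟨T, N, -, B⟩ := bad_of D hv haV h0 (by linarith) h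
      exact hgood ⟨T, a, N, B⟩
    · exact h (ih (T'.erase i) (by rw [Finset.card_erase_of_mem hi, hT']; omega) v hv hgood)
    · by_cases hw : ∃ T b N, Bad D w T b N
      swap
      · exact hbox (ih ((T'.erase i).map τ.toEmbedding) (by
          rw [Finset.card_map, Finset.card_erase_of_mem hi, hT']; omega) w A.hq hw)
      obtain ⟨T, b, N, B⟩ := hw
      by_cases hiT : τ i ∈ T
      · obtain ⟨K', r', N', B'⟩ := bad_step' B hiT A.symm
        exact hgood ⟨K', r', N', B'⟩
      have hc0 := B.cf_nn hI hiT
      by_cases hc : cf D b w (τ i) = 0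
      · have B' := B.trans hI hiT hc A.symm
        exact hgood ⟨_, _, _, B'⟩
      have hc1 : 1 ≤ cf D b w (τ i) := by omega
      have hc1' : (1 : ℝ) ≤ (cf D b w (τ i) : ℝ) := by exact_mod_cast hc1
      obtain ⟨S, hS⟩ : ∃ S : Finset (Fin d), S = (T'.erase i).map τ.toEmbedding := ⟨_, rfl⟩
      rw [← hS] at hbox
      have hiS : τ i ∉ S := by
        intro hcon
        rw [hS, Finset.mem_map] at hcon
        obtain ⟨l, hl, h'⟩ := hcon
        exact (Finset.ne_of_mem_erase hl) (τ.injective h')
      -- cardinalities
      have hcards : ((S ∩ T).card : ℝ) ≤ T.card ∧ ((S \ T).card : ℝ) + 1 + T.card ≤ d := by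
        refine ⟨by exact_mod_cast Finset.card_le_card Finset.inter_subset_right, ?_⟩
        have h1 : insert (τ i) (S \ T) ⊆ Tᶜ := by
          intro l hl
          rw [Finset.mem_compl]
          rcases Finset.mem_insert.1 hl with rfl | hl
          · exact hiT
          · exact (Finset.mem_sdiff.1 hl).2
        have h2 := Finset.card_le_card h1
        rw [Finset.card_insert_of_notMem fun h => hiS (Finset.mem_sdiff.1 h).1] at h2
        have h3 := Finset.card_add_card_compl T
        rw [Fintype.card_fin] at h3
        have h4 : (S \ T).card + 1 + T.card ≤ d := by omega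
        exact_mod_cast h4
      obtain ⟨hS1, hS2⟩ := hcards
      have hN0 := B.N0
      obtain ⟨H, hH⟩ : ∃ H : ℝ, H = (d : ℝ) - N := ⟨_, rfl⟩
      have hNT : (N : ℝ) + 1 ≤ T.card := by exact_mod_cast B.lt
      -- shifted box points
      have hco : ∀ θ : ℝ, ∀ l, pf D (w, l) (toR (bx D w S) + θ • toR (D.e w (τ i))) =
          (if l ∈ S then 1 else 0) + if l = τ i then θ else 0 := by
        intro θ l
        rw [pf_smul_add, pf_bx_self D A.hq, cf_self D A.hq]
        congr 1
        split_ifs <;> simp
      have hpb : ∀ θ : ℝ, 0 ≤ θ → (N : ℝ) - (S ∩ T).card + θ ≤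
          pf D b (toR (bx D w S) + θ • toR (D.e w (τ i))) := by
        intro θ hθ
        rw [pf_smul_add, pf_bx, B.pfv]
        have h1 : -((S ∩ T).card : ℝ) ≤ ∑ s ∈ S, (cf D b w s : ℝ) := by
          rw [← Finset.sum_inter_add_sum_sdiff S T]
          have e1 : ∑ s ∈ S ∩ T, (cf D b w s : ℝ) = -((S ∩ T).card : ℝ) := by
            rw [Finset.sum_congr rfl fun s hs => by rw [B.cfT (Finset.mem_inter.1 hs).2],
              Finset.sum_const, nsmul_eq_mul]
            push_cast
            ring
          have e2 : 0 ≤ ∑ s ∈ S \ T, (cf D b w s : ℝ) := Finset.sum_nonneg fun s hs => by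
            exact_mod_cast B.cf_nn hI (Finset.mem_sdiff.1 hs).2
          linarith
        have h2 := mul_le_mul_of_nonneg_left hc1' hθ
        linarith
      have hht : ∀ θ : ℝ, ∑ j ∈ Tᶜ, pf D (w, j) (toR (bx D w S) + θ • toR (D.e w (τ i))) =
          (S \ T).card + θ := by
        intro θ
        rw [Finset.sum_congr rfl fun l _ => hco θ l, Finset.sum_add_distrib,
          Finset.sum_ite_eq' Tᶜ, if_pos (Finset.mem_compl.2 hiT), ← Finset.sum_filter,
          Finset.sum_const, nsmul_eq_mul, mul_one]
        congr 2
        have e1 : Tᶜ.filter (fun l => l ∈ S) = S \ T := by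
          ext l
          rw [Finset.mem_filter, Finset.mem_compl, Finset.mem_sdiff]
          exact And.comm
        rw [e1]
      have hz : ∀ θ : ℝ, 0 ≤ θ → ((S ∩ T).card : ℝ) ≤ N + θ → ((S \ T).card : ℝ) + θ ≤ H →
          toR (bx D w S) + θ • toR (D.e w (τ i)) ∈ P := by
        intro θ hθ h1 h2
        refine B.wedge hI _ (fun l => ?_) ?_ ?_
        · rw [hco θ l]
          split_ifs <;> linarith
        · have := hpb θ hθ
          linarith
        · rw [hht θ, ← hH]
          exact h2
      -- the height
      obtain ⟨h, hh'⟩ : ∃ h : ℝ, h = pf D (w, τ i) (toR (bx D v T')) := ⟨_, rfl⟩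
      have hax2 := hax
      rw [A.pf_bx_far a, ← hh', ← hS] at hax2
      have hR := A.pf_bx_far (v, i) (T := T')
      have hcfi : cf D (v, i) w (τ i) = -1 := by
        rw [A.cf_i, cf_self D A.hv, if_pos rfl]
      rw [pf_bx_self D A.hv, if_pos hi, ← hh', ← hS, hcfi] at hR
      push_cast at hR
      have hθ := pf_nn D (a := (v, i)) A.hv (hz (H - (S \ T).card) (by linarith)
        (by linarith) (by linarith))
      rw [pf_smul_add, hcfi] at hθ
      push_cast at hθ
      have hhge : H - (S \ T).card - 1 ≤ h := by linarith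
      rw [← hh'] at hh
      -- the smaller shift
      obtain ⟨s, hs⟩ : ∃ s : ℝ, s = max (((S ∩ T).card : ℝ) - N) 0 := ⟨_, rfl⟩
      have hs0 : 0 ≤ s := by rw [hs]; exact le_max_right _ _
      have hs1 : ((S ∩ T).card : ℝ) - N ≤ s := by rw [hs]; exact le_max_left _ _
      have hsh : s ≤ h := by
        rw [hs]
        refine max_le ?_ hh
        linarith
      have hsH : ((S \ T).card : ℝ) + s ≤ H := by
        have h1 : s ≤ H - (S \ T).card := by
          rw [hs]
          refine max_le ?_ ?_ <;> linarith
        linarith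
      have hza := pf_nn D haV (hz s hs0 (by linarith) hsH)
      rw [pf_smul_add] at hza
      have h6 : s * (cf D a w (τ i) : ℝ) ≤ h * (cf D a w (τ i) : ℝ) :=
        mul_le_mul_of_nonneg_right hsh hcw
      linarith

end H98OD
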