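import Pool.Agent.H98.OI.Near

/-!
# Points of `(k+1) P` near a short simplex face: the decomposition step
-/

namespace H98OD

open H66OD H19OZ Matrix
open scoped Classical Pointwise

variable {d : ℕ} {P : Set (Fin d → ℝ)}

/-- A facet which contains a point `z` at height less than `d - N` over the short simplex face at `w` contains `w`,
unless it is the facet `b`. -/
theorem vanish {D : SD P} (hI : Iso D) {w : Fin d → ℤ} {K : Finset (Fin d)}
    {b : (Fin d → ℤ) × Fin d} {N : ℕ} (B : Bad D w K b N) {f : (Fin d → ℤ) × Fin d}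
    (hf : f.1 ∈ D.Vt) (hfb : pf D b (toR f.1) ≠ 0) {z : Fin d → ℝ} (hz : z ∈ P)
    (hzH : ∑ j ∈ Kᶜ, pf D (w, j) z < (d : ℝ) - N) (hfz : pf D f z = 0) : pf D f (toR w) = 0 := by
  by_contra hne
  obtain ⟨F, hF⟩ : ∃ F : ℝ, F = pf D f (toR w) := ⟨_, rfl⟩
  have hpos : 0 < F := by
    rw [hF]
    exact lt_of_le_of_ne (pf_nn D hf (D.vmem B.hv)) (Ne.symm hne)
  have hNpos := B.N0
  obtain ⟨H, hH⟩ : ∃ H : ℝ, H = (d : ℝ) - N := ⟨_, rfl⟩
  have hH0 : 0 < H := by rw [hH]; exact B.H0 hI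
  rw [← hH] at hzH
  obtain ⟨x, hx⟩ : ∃ x : Fin d → ℝ, x = fun i => pf D (w, i) z := ⟨_, rfl⟩
  obtain ⟨c, hc⟩ : ∃ c : Fin d → ℝ, c = fun j => (cf D b w j : ℝ) := ⟨_, rfl⟩
  obtain ⟨φ, hφ⟩ : ∃ φ : Fin d → ℝ, φ = fun j => (cf D f w j : ℝ) := ⟨_, rfl⟩
  have hx0 : ∀ i, 0 ≤ x i := fun i => by
    rw [hx]
    exact pf_nn D (a := (w, i)) B.hv hz
  have hc0 : ∀ j ∈ Kᶜ, 0 ≤ c j := by
    intro j hj
    have h1 := B.cf_nn hI (Finset.mem_compl.1 hj)
    have h2 : (0 : ℝ) ≤ (cf D b w j : ℝ) := by exact_mod_cast h1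
    rw [hc]
    exact h2
  have hzH' : ∑ j ∈ Kᶜ, x j < H := by rw [hx]; exact hzH
  -- values
  have e1 : pf D f z = F + ∑ i ∈ K, x i * φ i + ∑ j ∈ Kᶜ, x j * φ j := by
    rw [pf_expand D f B.hv z, ← hF, ← Finset.sum_add_sum_compl K, hx, hφ]
    ring
  obtain ⟨s, hs⟩ : ∃ s : ℝ, s = N + ∑ j ∈ Kᶜ, c j * x j := ⟨_, rfl⟩
  have hspos : 0 < s := by
    have : 0 ≤ ∑ j ∈ Kᶜ, c j * x j :=
      Finset.sum_nonneg fun j hj => mul_nonneg (hc0 j hj) (hx0 j)
    rw [hs]
    linarith
  have e2 : pf D b z = s - ∑ i ∈ K, x i := by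
    rw [B.pfb z, hs, hc, hx]
  have hb0 := pf_nn D B.hb hz
  -- columns
  have hcol : ∀ (g : ℝ) (ψ : Fin d → ℝ), (∀ j ∈ Kᶜ, 0 ≤ g + H * ψ j) →
      (H - ∑ j ∈ Kᶜ, x j) * g ≤ H * (g + ∑ j ∈ Kᶜ, x j * ψ j) := by
    intro g ψ hψ
    have h1 : 0 ≤ ∑ j ∈ Kᶜ, x j * (g + H * ψ j) :=
      Finset.sum_nonneg fun j hj => mul_nonneg (hx0 j) (hψ j hj)
    have h2 : ∑ j ∈ Kᶜ, x j * (g + H * ψ j) =
        (∑ j ∈ Kᶜ, x j) * g + H * ∑ j ∈ Kᶜ, x j * ψ j := by
      rw [Finset.sum_mul, Finset.mul_sum, ← Finset.sum_add_distrib]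
      exact Finset.sum_congr rfl fun j _ => by ring
    rw [h2] at h1
    linarith
  have hG0 := hcol F φ (by
    intro j hj
    have h1 := pf_nn D hf (hI.long w K b N B j (Finset.mem_compl.1 hj))
    rw [pf_smul_add, ← hF, ← hH] at h1
    rw [hφ]
    exact h1)
  have hFi : ∀ i ∈ K, 0 ≤ F + N * φ i := by
    intro i hi
    have h1 := pf_nn D hf (B.memT hi)
    rw [pf_smul_add, ← hF] at h1
    rw [hφ]
    exact h1
  have hGi : ∀ i ∈ K, (H - ∑ j ∈ Kᶜ, x j) * (F + N * φ i) ≤
      H * ((F + N * φ i) + ∑ j ∈ Kᶜ, x j * (φ j + c j * φ i)) := by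
    intro i hi
    refine hcol _ (fun j => φ j + c j * φ i) fun j hj => ?_
    have h1 := pf_nn D hf (B.far_long hI hi (Finset.mem_compl.1 hj))
    rw [smul_add, smul_smul, ← add_assoc, pf_smul_add, pf_smul_add, pf_smul_add, ← hF,
      ← hH] at h1
    rw [hφ, hc]
    dsimp only
    linarith
  obtain ⟨G0, hG0'⟩ : ∃ G0 : ℝ, G0 = F + ∑ j ∈ Kᶜ, x j * φ j := ⟨_, rfl⟩
  obtain ⟨G, hG⟩ : ∃ G : Fin d → ℝ,
      G = fun i => (F + N * φ i) + ∑ j ∈ Kᶜ, x j * (φ j + c j * φ i) := ⟨_, rfl⟩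
  have hGi' : ∀ i ∈ K, (H - ∑ j ∈ Kᶜ, x j) * (F + N * φ i) ≤ H * G i := by
    intro i hi
    rw [hG]
    exact hGi i hi
  rw [← hG0'] at hG0
  have hHx : 0 < H - ∑ j ∈ Kᶜ, x j := by linarith
  have hG0pos : 0 < G0 := by
    have h1 := mul_pos hHx hpos
    have h2 : 0 < H * G0 := by linarith
    exact (pos_iff_pos_of_mul_pos h2).1 hH0
  have hGnn : ∀ i ∈ K, 0 ≤ G i := by
    intro i hi
    have h1 := mul_nonneg hHx.le (hFi i hi)
    have h2 := hGi' i hi
    have h3 : 0 ≤ H * G i := by linarith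
    exact nonneg_of_mul_nonneg_right h3 hH0
  -- the identity
  have key : pf D b z * G0 + ∑ i ∈ K, x i * G i = 0 := by
    have e3 : ∑ i ∈ K, x i * G i =
        (∑ i ∈ K, x i) * G0 + s * ∑ i ∈ K, x i * φ i := by
      rw [Finset.sum_mul, Finset.mul_sum, ← Finset.sum_add_distrib]
      refine Finset.sum_congr rfl fun i _ => ?_
      have e4 : G i = G0 + s * φ i := by
        rw [hG, hG0', hs]
        dsimp only
        have e5 : ∑ j ∈ Kᶜ, x j * (φ j + c j * φ i) =
            ∑ j ∈ Kᶜ, x j * φ j + (∑ j ∈ Kᶜ, c j * x j) * φ i := by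
          rw [Finset.sum_mul, ← Finset.sum_add_distrib]
          exact Finset.sum_congr rfl fun j _ => by ring
        rw [e5]
        ring
      rw [e4]
      ring
    rw [e3, e2]
    have e6 : G0 + ∑ i ∈ K, x i * φ i = 0 := by
      rw [hfz] at e1
      rw [hG0']
      linarith
    have e7 : ∑ i ∈ K, x i * φ i = -G0 := by linarith
    rw [e7]
    ring
  have hs0 : 0 ≤ ∑ i ∈ K, x i * G i :=
    Finset.sum_nonneg fun i hi => mul_nonneg (hx0 i) (hGnn i hi)
  have hp0 : 0 ≤ pf D b z * G0 := mul_nonneg hb0 hG0pos.le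
  have hbz : pf D b z = 0 := by
    have h1 : pf D b z * G0 = 0 := by linarith
    rcases mul_eq_zero.1 h1 with h | h
    · exact h
    · exact absurd h hG0pos.ne'
  have hsz : ∑ i ∈ K, x i * G i = 0 := by linarith
  have hall := (Finset.sum_eq_zero_iff_of_nonneg fun i hi => mul_nonneg (hx0 i) (hGnn i hi)).1 hsz
  obtain ⟨i, hi, hi0⟩ : ∃ i ∈ K, x i ≠ 0 := by
    by_contra hcon
    push Not at hcon
    rw [hbz, Finset.sum_eq_zero hcon] at e2
    linarith
  have hGi0 : G i = 0 := by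
    rcases mul_eq_zero.1 (hall i hi) with h | h
    · exact absurd h hi0
    · exact h
  have hfi0 : F + N * φ i = 0 := by
    have h1 := hGi' i hi
    rw [hGi0, mul_zero] at h1
    refine le_antisymm ?_ (hFi i hi)
    by_contra hcon
    have := mul_pos hHx (not_le.1 hcon)
    linarith
  obtain ⟨q, L, ρ, A⟩ := far_end D B.hv i
  obtain ⟨hL, hub, -, -⟩ := B.swap hi A
  have hq0 : pf D f (toR q) = 0 := by
    rw [A.pf_q, hL, ← hF]
    rw [hφ] at hfi0
    exact hfi0
  have hqb : pf D b (toR q) = 0 := by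
    rw [A.pf_q, hL, B.pfv, B.cfT hi]
    push_cast
    ring
  have huf := A.opp_of_zero hf (by rw [← hF]; exact hpos) hq0
  have h1 : ∀ z, pf D b z = pf D f z :=
    pf_congr D (a := b) (b := f) (by rw [hub, huf]) (q := toR q) (by rw [hqb, hq0])
  apply hfb
  rw [h1]
  exact pf_self D f.1 f.2

namespace Nr

variable {D : SD P} {v : Fin d → ℤ} {T : Finset (Fin d)} {b : (Fin d → ℤ) × Fin d}
  {N k : ℕ} {x : Fin d → ℤ} {y : Fin d → ℝ} {m r : Fin d → ℕ}

/-- First part of the point. -/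
abbrev al (D : SD P) (m : Fin d → ℕ) (w : Fin d → ℤ) (τ : Equiv.Perm (Fin d)) : Fin d → ℝ :=
  pt D w τ (fun i => (m i : ℝ))

/-- Second part of the point, divided by `k`. -/
noncomputable abbrev be (D : SD P) (k : ℕ) (r : Fin d → ℕ) (w : Fin d → ℤ) (τ : Equiv.Perm (Fin d)) :
    Fin d → ℝ :=
  pt D w τ (fun i => (r i : ℝ) / k)

/-- Remaining coordinates. -/
noncomputable abbrev tt (D : SD P) (b : (Fin d → ℤ) × Fin d) (v : Fin d → ℤ) (k : ℕ)
    (x : Fin d → ℤ) (w : Fin d → ℤ) (τ : Equiv.Perm (Fin d)) (i : Fin d) : ℝ :=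
  if cf D b v i = 0 then (tv D k x w (τ i) : ℝ) else 0

theorem k0 (R : Nr D v T b N k x y m r) : (0 : ℝ) < k := by
  have : 0 < k := R.k1
  exact_mod_cast this

theorem J0nn : (0 : ℝ) ≤ ((Finset.univ.filter fun j => cf D b v j = 0).card : ℝ) :=
  Nat.cast_nonneg _

theorem alP (R : Nr D v T b N k x y m r) (hI : Iso D) {w : Fin d → ℤ}
    {τ : Equiv.Perm (Fin d)} (C : Ch D v T b N w τ) : al D m w τ ∈ P := by
  refine C.mem hI _ (fun i => Nat.cast_nonneg _) R.hm1 ?_
  have h1 := R.hH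
  have h2 := J0nn (D := D) (b := b) (v := v)
  linarith

theorem sum_r (R : Nr D v T b N k x y m r) :
    ∑ j ∈ Tᶜ, (r j : ℝ) / k ≤ ∑ j ∈ Tᶜ, (r j : ℝ) := by
  refine Finset.sum_le_sum fun j _ => ?_
  have h1 : (1 : ℝ) ≤ k := by exact_mod_cast R.k1
  exact div_le_self (Nat.cast_nonneg _) h1

theorem beP (R : Nr D v T b N k x y m r) (hI : Iso D) {w : Fin d → ℤ}
    {τ : Equiv.Perm (Fin d)} (C : Ch D v T b N w τ) : be D k r w τ ∈ P := by
  refine C.mem hI _ (fun i => div_nonneg (Nat.cast_nonneg _) R.k0.le) R.hr1 ?_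
  have h1 := R.hH'
  have h2 := J0nn (D := D) (b := b) (v := v)
  have h3 := R.sum_r
  linarith

/-- `β` stays in `P` when moved by `1` in a direction of growth zero. -/
theorem beH (R : Nr D v T b N k x y m r) (hI : Iso D) {w : Fin d → ℤ}
    {τ : Equiv.Perm (Fin d)} (C : Ch D v T b N w τ) {j : Fin d} (hj : cf D b v j = 0) :
    be D k r w τ + (1 : ℝ) • toR (D.e w (τ j)) ∈ P := by
  have h1 : pt D w τ (fun i => (r i : ℝ) / k + if i = j then (1 : ℝ) else 0) =
      be D k r w τ + (1 : ℝ) • toR (D.e w (τ j)) := by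
    simp only [be, pt, add_smul, Finset.sum_add_distrib]
    rw [← add_assoc]
    congr 1
    rw [Finset.sum_eq_single j]
    · rw [if_pos rfl]
    · intro i _ hi
      rw [if_neg hi, zero_smul]
    · intro h
      exact absurd (Finset.mem_univ _) h
  rw [← h1]
  refine C.mem hI _ (fun i => ?_) ?_ ?_
  · have := div_nonneg (Nat.cast_nonneg (α := ℝ) (r i)) R.k0.le
    split_ifs
    · linarith
    · linarith
  · simp only [add_mul, Finset.sum_add_distrib]
    have h2 : ∑ i, (if i = j then (1 : ℝ) else 0) * (cf D b v i : ℝ) = 0 := by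
      refine Finset.sum_eq_zero fun i _ => ?_
      by_cases h : i = j
      · rw [h, hj]
        simp
      · rw [if_neg h, zero_mul]
    rw [h2, add_zero]
    exact R.hr1
  · rw [Finset.sum_add_distrib, Finset.sum_ite_eq']
    have h3 := R.hH'
    have h4 := J0nn (D := D) (b := b) (v := v)
    have h5 := R.sum_r
    split_ifs
    · linarith
    · linarith

/-- The points of adjacent charts. -/
theorem adj_eq (R : Nr D v T b N k x y m r) (hI : Iso D) {w w' : Fin d → ℤ}
    {τ ρ : Equiv.Perm (Fin d)} {L : ℕ} (C : Ch D v T b N w τ) {j : Fin d} (hj : cf D b v j = 0)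
    (A : Adj D w (τ j) w' L ρ) : ∃ l : ℝ, 0 < l ∧
      al D m w' (τ.trans ρ) + (k : ℝ) • be D k r w' (τ.trans ρ) =
        al D m w τ + (k : ℝ) • be D k r w τ + l • toR (D.e w (τ j)) := by
  obtain ⟨hm, hr⟩ := R.h0 j hj
  have h1 : al D m w' (τ.trans ρ) =
      al D m w τ + pf D (w', ρ (τ j)) (al D m w τ) • toR (D.e w (τ j)) :=
    pt_step A (fun i => (m i : ℝ)) (by rw [hm]; simp)
  have h2 : be D k r w' (τ.trans ρ) =
      be D k r w τ + pf D (w', ρ (τ j)) (be D k r w τ) • toR (D.e w (τ j)) :=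
    pt_step A (fun i => (r i : ℝ) / k) (by rw [hr]; simp)
  have h3 := pf_nn D (a := (w', ρ (τ j))) A.hq (R.alP hI C)
  have h4 := pf_nn D (a := (w', ρ (τ j))) A.hq (R.beH hI C hj)
  rw [pf_smul_add, A.cf_opp] at h4
  push_cast at h4
  refine ⟨pf D (w', ρ (τ j)) (al D m w τ) + k * pf D (w', ρ (τ j)) (be D k r w τ), ?_, ?_⟩
  · have h5 : 0 < pf D (w', ρ (τ j)) (be D k r w τ) := by linarith
    have := mul_pos R.k0 h5
    linarith
  · rw [h1, h2]
    module

theorem ttnn {w : Fin d → ℤ} {τ : Equiv.Perm (Fin d)} (i : Fin d) : 0 ≤ tt D b v k x w τ i := by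
  unfold tt
  split_ifs
  · exact Nat.cast_nonneg _
  · exact le_refl _

theorem coord (R : Nr D v T b N k x y m r) {w : Fin d → ℤ} {τ : Equiv.Perm (Fin d)}
    (C : Ch D v T b N w τ) (i : Fin d) :
    (tv D k x w (τ i) : ℝ) = (m i : ℝ) + r i + tt D b v k x w τ i := by
  by_cases hi : cf D b v i = 0
  · obtain ⟨h1, h2⟩ := R.h0 i hi
    unfold tt
    rw [if_pos hi, h1, h2]
    simp
  · unfold tt
    rw [if_neg hi, add_zero]
    obtain ⟨h1, h2⟩ := C.hu i hi
    have h3 : pf D (w, τ i) y = pf D (v, i) y :=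
      pf_congr D (a := (w, τ i)) (b := (v, i)) h1 (q := toR w) (by rw [pf_self, h2]) y
    rw [tv_real D R.hy R.hxy C.B.hv, h3, ← tv_real D R.hy R.hxy R.B.hv, ← R.hmr i hi]
    push_cast
    ring

theorem expand (R : Nr D v T b N k x y m r) {w : Fin d → ℤ} {τ : Equiv.Perm (Fin d)}
    (C : Ch D v T b N w τ) : toR x = al D m w τ + (k : ℝ) • be D k r w τ +
      ∑ i, tt D b v k x w τ i • toR (D.e w (τ i)) := by
  have h1 := tv_sum D R.hy R.hxy C.B.hv
  rw [← Equiv.sum_comp τ] at h1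
  have h2 : ∑ i, (tv D k x w (τ i) : ℝ) • toR (D.e w (τ i)) =
      ∑ i, (m i : ℝ) • toR (D.e w (τ i)) + (k : ℝ) • ∑ i, ((r i : ℝ) / k) • toR (D.e w (τ i)) +
        ∑ i, tt D b v k x w τ i • toR (D.e w (τ i)) := by
    rw [Finset.smul_sum, ← Finset.sum_add_distrib, ← Finset.sum_add_distrib]
    refine Finset.sum_congr rfl fun i _ => ?_
    rw [R.coord C i, smul_smul, mul_div_cancel₀ _ R.k0.ne', add_smul, add_smul]
  rw [h2] at h1
  have h3 : toR x = ((k : ℝ) + 1) • toR w + (toR x - ((k : ℝ) + 1) • toR w) := by abel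
  rw [h3, h1]
  simp only [al, be, pt]
  module

theorem expand_pf (R : Nr D v T b N k x y m r) {w : Fin d → ℤ} {τ : Equiv.Perm (Fin d)}
    (C : Ch D v T b N w τ) (f : (Fin d → ℤ) × Fin d) :
    ((k : ℝ) + 1) * pf D f y = pf D f (al D m w τ) + k * pf D f (be D k r w τ) +
      ∑ i, tt D b v k x w τ i * (cf D f w (τ i) : ℝ) := by
  have h1 : ((k : ℝ) + 1) * pf D f y =
      toR (D.u f.1 f.2) ⬝ᵥ (toR x - ((k : ℝ) + 1) • toR f.1) := by
    rw [R.hxy, ← smul_sub, dotProduct_smul, smul_eq_mul]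
    rfl
  have h2 : ∑ i, tt D b v k x w τ i * (cf D f w (τ i) : ℝ) =
      toR (D.u f.1 f.2) ⬝ᵥ (∑ i, tt D b v k x w τ i • toR (D.e w (τ i))) := by
    rw [dotProduct_sum]
    refine Finset.sum_congr rfl fun i _ => ?_
    rw [dotProduct_smul, smul_eq_mul, cf_real]
  rw [h1, h2, R.expand C]
  simp only [pf]
  simp only [dotProduct_sub, dotProduct_add, dotProduct_smul, smul_eq_mul]
  ring

end Nr

/-- The decomposition step for points near a short simplex face. -/
theorem near_step {D : SD P} (hI : Iso D) {v : Fin d → ℤ} {T : Finset (Fin d)}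
    {b : (Fin d → ℤ) × Fin d} {N k : ℕ} {x : Fin d → ℤ} {y : Fin d → ℝ} {m r : Fin d → ℕ}
    (R : Nr D v T b N k x y m r) :
    ∃ p : Fin d → ℤ, toR p ∈ P ∧ ∃ z ∈ P, toR (x - p) = (k : ℝ) • z := by
  have hk0 := R.k0
  have hk1 : (1 : ℝ) ≤ k := by exact_mod_cast R.k1
  -- the vertices with charts
  obtain ⟨BB, hBB⟩ : ∃ BB : Finset (Fin d → ℤ),
      BB = D.Vt.filter fun w => ∃ τ, Ch D v T b N w τ := ⟨_, rfl⟩
  have hBm : ∀ w τ, Ch D v T b N w τ → w ∈ BB := by
    intro w τ C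
    rw [hBB]
    exact Finset.mem_filter.2 ⟨C.B.hv, τ, C⟩
  have hex : ∀ w, ∃ τ : Equiv.Perm (Fin d), w ∈ BB → Ch D v T b N w τ := by
    intro w
    by_cases hw : w ∈ BB
    · have hw' := hw
      rw [hBB] at hw'
      obtain ⟨τ, C⟩ := (Finset.mem_filter.1 hw').2
      exact ⟨τ, fun _ => C⟩
    · exact ⟨Equiv.refl _, fun h => absurd h hw⟩
  choose τ hτ using hex
  have hvB : v ∈ BB := hBm v _ (ch_refl R.B)
  -- the facets through `y`
  obtain ⟨Z, hZ⟩ : ∃ Z : Finset ((Fin d → ℤ) × Fin d), Z = (BB ×ˢ Finset.univ).filter fun f =>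
      (∃ j, cf D b v j = 0 ∧ τ f.1 j = f.2) ∧ pf D f y = 0 := ⟨_, rfl⟩
  have hZB : ∀ f ∈ Z, f.1 ∈ BB ∧ (∃ j, cf D b v j = 0 ∧ τ f.1 j = f.2) ∧ pf D f y = 0 := by
    intro f hf
    rw [hZ] at hf
    obtain ⟨h1, h2⟩ := Finset.mem_filter.1 hf
    exact ⟨(Finset.mem_product.1 h1).1, h2⟩
  have hZm : ∀ w ∈ BB, ∀ j, cf D b v j = 0 → pf D (w, τ w j) y = 0 → (w, τ w j) ∈ Z := by
    intro w hw j hj hy0
    rw [hZ]
    exact Finset.mem_filter.2 ⟨Finset.mem_product.2 ⟨hw, Finset.mem_univ _⟩, ⟨j, hj, rfl⟩, hy0⟩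
  have hZV : ∀ f ∈ Z, f.1 ∈ D.Vt := fun f hf => (hτ _ (hZB f hf).1).B.hv
  obtain ⟨S, hS⟩ : ∃ S : Finset (Fin d → ℤ),
      S = BB.filter fun w => ∀ f ∈ Z, pf D f (toR w) = 0 := ⟨_, rfl⟩
  have hSm : ∀ w ∈ S, w ∈ BB ∧ ∀ f ∈ Z, pf D f (toR w) = 0 := by
    intro w hw
    rw [hS] at hw
    exact Finset.mem_filter.1 hw
  -- consequences of tightness at `w ∈ S`
  have tight : ∀ w ∈ S, ∀ f ∈ Z, pf D f (Nr.al D m w (τ w)) = 0 ∧
      ∀ i, Nr.tt D b v k x w (τ w) i * (cf D f w (τ w i) : ℝ) = 0 := by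
    intro w hw f hf
    obtain ⟨hwB, hwZ⟩ := hSm w hw
    have C := hτ w hwB
    have h1 := R.expand_pf C f
    rw [(hZB f hf).2.2, mul_zero] at h1
    have h2 := pf_nn D (hZV f hf) (R.alP hI C)
    have h3 := mul_nonneg hk0.le (pf_nn D (hZV f hf) (R.beP hI C))
    have h4 : ∀ i ∈ Finset.univ, 0 ≤ Nr.tt D b v k x w (τ w) i * (cf D f w (τ w i) : ℝ) := by
      intro i _
      have h5 := cf_nn_of_zero D (hZV f hf) C.B.hv (hwZ f hf) (τ w i)
      exact mul_nonneg (Nr.ttnn i) (by exact_mod_cast h5)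
    have h5 := Finset.sum_nonneg h4
    refine ⟨by linarith, fun i => ?_⟩
    exact (Finset.sum_eq_zero_iff_of_nonneg h4).1 (by linarith) i (Finset.mem_univ _)
  -- the index sets
  obtain ⟨I, hIdef⟩ : ∃ I : (Fin d → ℤ) → Finset (Fin d), I = fun w => Finset.univ.filter fun l =>
      cf D b v ((τ w).symm l) = 0 ∧ 1 ≤ tv D k x w l := ⟨_, rfl⟩
  have hIm : ∀ w i, τ w i ∈ I w ↔ cf D b v i = 0 ∧ 1 ≤ tv D k x w (τ w i) := by
    intro w i
    rw [hIdef]
    simp only [Finset.mem_filter, Finset.mem_univ, true_and, Equiv.symm_apply_apply]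
  have hIn : ∀ w ∈ S, ∀ i, τ w i ∉ I w → cf D b v i = 0 → (w, τ w i) ∈ Z := by
    intro w hw i hi hc
    have hwB := (hSm w hw).1
    refine hZm w hwB i hc ?_
    have h1 : tv D k x w (τ w i) = 0 := by
      by_contra hcon
      exact hi ((hIm w i).2 ⟨hc, by omega⟩)
    have h2 := tv_real D R.hy R.hxy (hτ w hwB).B.hv (τ w i)
    rw [h1, Nat.cast_zero] at h2
    rcases mul_eq_zero.1 h2.symm with h3 | h3
    · exfalso
      linarith
    · exact h3
  have hIsum : ∀ w, ∀ c : Fin d → ℝ, ∑ l ∈ I w, c l • toR (D.e w l) =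
      ∑ i, (if τ w i ∈ I w then c (τ w i) else 0) • toR (D.e w (τ w i)) := by
    intro w c
    rw [Equiv.sum_comp (τ w) (fun l => (if l ∈ I w then c l else 0) • toR (D.e w l))]
    rw [← Finset.sum_subset (Finset.subset_univ (I w))]
    · exact Finset.sum_congr rfl fun i hi => by rw [if_pos hi]
    · intro i _ hi
      rw [if_neg hi, zero_smul]
  -- the base points
  obtain ⟨a, ha⟩ : ∃ a : (Fin d → ℤ) → Fin d → ℤ,
      a = fun w => w + ∑ i, (m i : ℤ) • D.e w (τ w i) := ⟨_, rfl⟩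
  obtain ⟨a', ha'⟩ : ∃ a' : (Fin d → ℤ) → Fin d → ℤ,
      a' = fun w => (k : ℤ) • w + ∑ i, (r i : ℤ) • D.e w (τ w i) := ⟨_, rfl⟩
  have haR : ∀ w, toR (a w) = Nr.al D m w (τ w) := by
    intro w
    rw [ha]
    simp only [Nr.al, pt]
    rw [toR_add, toR_sum]
    congr 1
    exact Finset.sum_congr rfl fun i _ => by rw [toR_zsmul, Int.cast_natCast]
  have haR' : ∀ w, toR (a' w) = (k : ℝ) • Nr.be D k r w (τ w) := by
    intro w
    rw [ha']
    simp only [Nr.be, pt]
    rw [toR_add, toR_sum, toR_zsmul, smul_add, Finset.smul_sum, Int.cast_natCast]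
    congr 1
    refine Finset.sum_congr rfl fun i _ => ?_
    rw [toR_zsmul, Int.cast_natCast, smul_smul, mul_div_cancel₀ _ hk0.ne']
  -- heights
  have hheight : ∀ w, ∀ c : Fin d → ℝ, (∀ i ∈ I w, 0 ≤ c i ∧ c i ≤ 1) →
      (∀ i, 0 ≤ (if τ w i ∈ I w then c (τ w i) else 0)) ∧
      (∑ i, (if τ w i ∈ I w then c (τ w i) else 0) * (cf D b v i : ℝ) = 0) ∧
      ∑ j ∈ Tᶜ, (if τ w j ∈ I w then c (τ w j) else 0) ≤
        ((Finset.univ.filter fun j => cf D b v j = 0).card : ℝ) := by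
    intro w c hc
    have h0 : ∀ i, 0 ≤ (if τ w i ∈ I w then c (τ w i) else 0) := by
      intro i
      split_ifs with h
      · exact (hc _ h).1
      · exact le_refl _
    refine ⟨h0, Finset.sum_eq_zero fun i _ => ?_, ?_⟩
    · by_cases h : τ w i ∈ I w
      · rw [((hIm w i).1 h).1]
        simp
      · rw [if_neg h, zero_mul]
    · calc ∑ j ∈ Tᶜ, (if τ w j ∈ I w then c (τ w j) else 0)
          ≤ ∑ j, (if τ w j ∈ I w then c (τ w j) else 0) :=
            Finset.sum_le_sum_of_subset_of_nonneg (Finset.subset_univ _) fun j _ _ => h0 j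
        _ ≤ ∑ j, (if cf D b v j = 0 then (1 : ℝ) else 0) := by
            refine Finset.sum_le_sum fun j _ => ?_
            by_cases h : τ w j ∈ I w
            · rw [if_pos h, if_pos ((hIm w j).1 h).1]
              exact (hc _ h).2
            · rw [if_neg h]
              split_ifs
              · exact zero_le_one
              · exact le_refl _
        _ = ((Finset.univ.filter fun j => cf D b v j = 0).card : ℝ) := by
            rw [← Finset.sum_filter, Finset.sum_const, nsmul_eq_mul, mul_one]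
  obtain ⟨p, hpA, hpB⟩ := cover D S (fun w hw => (hτ w (hSm w hw).1).B.hv) I
    (by
      intro w hw w' hw' i hi j hj
      have hwB := (hSm w hw).1
      have hwB' := (hSm w' hw').1
      have C := hτ w hwB
      have C' := hτ w' hwB'
      obtain ⟨i₁, rfl⟩ := (τ w).surjective i
      obtain ⟨j₁, rfl⟩ := (τ w').surjective j
      obtain ⟨hc, ht1⟩ := (hIm w i₁).1 hi
      by_cases hj1 : cf D b v j₁ = 0
      · have hf := hIn w' hw' j₁ hj hj1
        have h1 := (tight w hw _ hf).2 i₁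
        have h2 : Nr.tt D b v k x w (τ w) i₁ ≠ 0 := by
          unfold Nr.tt
          rw [if_pos hc]
          have : 0 < tv D k x w (τ w i₁) := ht1
          exact_mod_cast this.ne'
        have h3 : (cf D (w', τ w' j₁) w (τ w i₁) : ℝ) = 0 := by
          rcases mul_eq_zero.1 h1 with h | h
          · exact absurd h h2
          · exact h
        exact_mod_cast h3
      · rw [(C'.hu j₁ hj1).1, ← (C.hu j₁ hj1).1, D.dual w C.B.hv, if_neg]
        intro h
        apply hj1
        rw [(τ w).injective h]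
        exact hc)
    a a'
    (by
      intro w hw w' hw' j hj
      have hwB := (hSm w hw).1
      have hwB' := (hSm w' hw').1
      have C := hτ w hwB
      have C' := hτ w' hwB'
      obtain ⟨j₁, rfl⟩ := (τ w').surjective j
      have h1 : pf D (w', τ w' j₁) (toR (a w)) = pf D (w', τ w' j₁) (toR (a w')) := by
        rw [haR, haR, pf_pt_self D C'.B.hv]
        by_cases hj1 : cf D b v j₁ = 0
        · have hf := hIn w' hw' j₁ hj hj1
          rw [(tight w hw _ hf).1, (R.h0 j₁ hj1).1]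
          simp
        · have h2 : pf D (w', τ w' j₁) (Nr.al D m w (τ w)) =
              pf D (v, j₁) (Nr.al D m w (τ w)) :=
            pf_congr D (a := (w', τ w' j₁)) (b := (v, j₁)) (C'.hu j₁ hj1).1 (q := toR w')
              (by rw [pf_self, (C'.hu j₁ hj1).2]) _
          have h3 : pf D (w, τ w j₁) (Nr.al D m w (τ w)) =
              pf D (v, j₁) (Nr.al D m w (τ w)) :=
            pf_congr D (a := (w, τ w j₁)) (b := (v, j₁)) (C.hu j₁ hj1).1 (q := toR w)
              (by rw [pf_self, (C.hu j₁ hj1).2]) _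
          rw [h2, ← h3, pf_pt_self D C.B.hv]
      have h2 : ((D.u w' (τ w' j₁) ⬝ᵥ (a w - a w') : ℤ) : ℝ) =
          pf D (w', τ w' j₁) (toR (a w)) - pf D (w', τ w' j₁) (toR (a w')) := by
        rw [← toR_dot, toR_sub]
        simp only [pf]
        rw [← dotProduct_sub]
        congr 1
        abel
      rw [h1, sub_self] at h2
      exact_mod_cast h2)
    x (fun w l => (tv D k x w l : ℝ))
    (by
      intro w hw
      have hwB := (hSm w hw).1
      have C := hτ w hwB
      rw [hIsum, haR, haR', R.expand C]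
      have h1 : ∀ i, (if τ w i ∈ I w then (tv D k x w (τ w i) : ℝ) else 0) =
          Nr.tt D b v k x w (τ w) i := by
        intro i
        unfold Nr.tt
        by_cases hc : cf D b v i = 0
        · rw [if_pos hc]
          by_cases h : τ w i ∈ I w
          · rw [if_pos h]
          · rw [if_neg h]
            have h2 : tv D k x w (τ w i) = 0 := by
              by_contra hcon
              exact h ((hIm w i).2 ⟨hc, by omega⟩)
            rw [h2]
            simp
        · rw [if_neg hc, if_neg fun h => hc ((hIm w i).1 h).1]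
      simp only [h1]
      abel)
    (by
      intro w hw i hi
      obtain ⟨i₁, rfl⟩ := (τ w).surjective i
      have := ((hIm w i₁).1 hi).2
      exact_mod_cast this)
    (by
      intro n
      -- a strict bound
      obtain ⟨M, hM⟩ : ∃ M : ℝ, M = 1 + ∑ w ∈ D.Vt, ∑ l, |n ⬝ᵥ toR (D.e w l)| := ⟨_, rfl⟩
      have hMb : ∀ w ∈ D.Vt, ∀ l, n ⬝ᵥ toR (D.e w l) < M := by
        intro w hw l
        have h1 : |n ⬝ᵥ toR (D.e w l)| ≤ ∑ l, |n ⬝ᵥ toR (D.e w l)| :=
          Finset.single_le_sum (f := fun l => |n ⬝ᵥ toR (D.e w l)|)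
            (fun l _ => abs_nonneg _) (Finset.mem_univ l)
        have h2 : ∑ l, |n ⬝ᵥ toR (D.e w l)| ≤ ∑ w ∈ D.Vt, ∑ l, |n ⬝ᵥ toR (D.e w l)| :=
          Finset.single_le_sum (f := fun w => ∑ l, |n ⬝ᵥ toR (D.e w l)|)
            (fun w _ => Finset.sum_nonneg fun l _ => abs_nonneg _) hw
        have h3 := le_abs_self (n ⬝ᵥ toR (D.e w l))
        rw [hM]
        linarith
      have hM0 : 0 ≤ M := by
        rw [hM]
        have : 0 ≤ ∑ w ∈ D.Vt, ∑ l, |n ⬝ᵥ toR (D.e w l)| :=
          Finset.sum_nonneg fun w _ => Finset.sum_nonneg fun l _ => abs_nonneg _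
        linarith
      obtain ⟨n', hn'⟩ : ∃ n' : Fin d → ℝ, n' = n + M • ∑ f ∈ Z, toR (D.u f.1 f.2) := ⟨_, rfl⟩
      have hn'e : ∀ w l, n' ⬝ᵥ toR (D.e w l) =
          n ⬝ᵥ toR (D.e w l) + M * ((∑ f ∈ Z, cf D f w l : ℤ) : ℝ) := by
        intro w l
        rw [hn', add_dotProduct, smul_dotProduct, smul_eq_mul, sum_dotProduct]
        congr 2
        push_cast
        exact Finset.sum_congr rfl fun f _ => cf_real D f w l
      obtain ⟨w, hw, hmin⟩ := Finset.exists_min_image BB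
        (fun w => n' ⬝ᵥ (Nr.al D m w (τ w) + (k : ℝ) • Nr.be D k r w (τ w))) ⟨v, hvB⟩
      have C := hτ w hw
      -- nonnegativity along the edges of growth zero
      have hedge : ∀ j, cf D b v j = 0 → 0 ≤ n' ⬝ᵥ toR (D.e w (τ w j)) := by
        intro j hj
        obtain ⟨w', L, ρ, A⟩ := far_end D C.B.hv (τ w j)
        have C' := C.step hI hj A
        have hw' := hBm w' _ C'
        have C'' := hτ w' hw'
        obtain ⟨l, hl, heq⟩ := R.adj_eq hI C hj A
        have e1 : Nr.al D m w' (τ w') = Nr.al D m w' ((τ w).trans ρ) :=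
          C''.pt_eq C' _ fun i hi => by rw [(R.h0 i hi).1]; simp
        have e2 : Nr.be D k r w' (τ w') = Nr.be D k r w' ((τ w).trans ρ) :=
          C''.pt_eq C' _ fun i hi => by rw [(R.h0 i hi).2]; simp
        have h1 := hmin w' hw'
        rw [e1, e2, heq, dotProduct_add n' (Nr.al D m w (τ w) + (k : ℝ) • Nr.be D k r w (τ w)),
          dotProduct_smul, smul_eq_mul] at h1
        have h2 : 0 ≤ l * (n' ⬝ᵥ toR (D.e w (τ w j))) := by linarith
        by_contra hcon
        have h3 := mul_neg_of_pos_of_neg hl (not_le.1 hcon)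
        linarith
      have hcZ : ∀ j, cf D b v j = 0 → 0 ≤ ∑ f ∈ Z, cf D f w (τ w j) := by
        intro j hj
        have h1 := hedge j hj
        rw [hn'e] at h1
        by_contra hcon
        have h2 : ∑ f ∈ Z, cf D f w (τ w j) ≤ -1 := by omega
        have h3 : ((∑ f ∈ Z, cf D f w (τ w j) : ℤ) : ℝ) ≤ -1 := by exact_mod_cast h2
        have h4 := hMb w C.B.hv (τ w j)
        have h5 := mul_le_mul_of_nonneg_left h3 hM0
        linarith
      -- the total
      have hzero : ∑ f ∈ Z, (pf D f (Nr.al D m w (τ w)) + k * pf D f (Nr.be D k r w (τ w))) +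
          ∑ i, Nr.tt D b v k x w (τ w) i * ((∑ f ∈ Z, cf D f w (τ w i) : ℤ) : ℝ) = 0 := by
        have h1 : ∑ i, Nr.tt D b v k x w (τ w) i * ((∑ f ∈ Z, cf D f w (τ w i) : ℤ) : ℝ) =
            ∑ f ∈ Z, ∑ i, Nr.tt D b v k x w (τ w) i * (cf D f w (τ w i) : ℝ) := by
          rw [Finset.sum_comm]
          refine Finset.sum_congr rfl fun i _ => ?_
          push_cast
          rw [Finset.mul_sum]
        rw [h1, ← Finset.sum_add_distrib]
        refine Finset.sum_eq_zero fun f hf => ?_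
        rw [← R.expand_pf C f, (hZB f hf).2.2, mul_zero]
      have hn1 : ∀ f ∈ Z, 0 ≤ pf D f (Nr.al D m w (τ w)) + k * pf D f (Nr.be D k r w (τ w)) := by
        intro f hf
        exact add_nonneg (pf_nn D (hZV f hf) (R.alP hI C))
          (mul_nonneg hk0.le (pf_nn D (hZV f hf) (R.beP hI C)))
      have hn2 : ∀ i ∈ Finset.univ, 0 ≤ Nr.tt D b v k x w (τ w) i *
          ((∑ f ∈ Z, cf D f w (τ w i) : ℤ) : ℝ) := by
        intro i _
        by_cases hc : cf D b v i = 0
        · exact mul_nonneg (Nr.ttnn i) (by exact_mod_cast hcZ i hc)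
        · unfold Nr.tt
          rw [if_neg hc, zero_mul]
      have hs1 := Finset.sum_nonneg hn1
      have hs2 := Finset.sum_nonneg hn2
      have hz1 := (Finset.sum_eq_zero_iff_of_nonneg hn1).1 (by linarith)
      have hz2 := (Finset.sum_eq_zero_iff_of_nonneg hn2).1 (by linarith)
      have hwS : w ∈ S := by
        rw [hS]
        refine Finset.mem_filter.2 ⟨hw, fun f hf => ?_⟩
        have hbe0 : pf D f (Nr.be D k r w (τ w)) = 0 := by
          have h1 := hz1 f hf
          have h2 := pf_nn D (hZV f hf) (R.alP hI C)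
          have h3 := pf_nn D (hZV f hf) (R.beP hI C)
          have h4 := mul_nonneg hk0.le h3
          have h5 : (k : ℝ) * pf D f (Nr.be D k r w (τ w)) = 0 := by linarith
          rcases mul_eq_zero.1 h5 with h | h
          · exact absurd h hk0.ne'
          · exact h
        refine vanish hI C.B (hZV f hf) ?_ (R.beP hI C) ?_ hbe0
        · have h1 := (hτ _ (hZB f hf).1).B.pos
          exact h1.ne'
        · rw [Ch.compl_map, Finset.sum_map]
          have h3 : ∀ j ∈ Tᶜ, pf D (w, (τ w).toEmbedding j) (Nr.be D k r w (τ w)) =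
              (r j : ℝ) / k := fun j _ => pf_pt_self D C.B.hv (τ w) _ j
          rw [Finset.sum_congr rfl h3]
          have h4 := R.hH'
          have h5 := Nr.J0nn (D := D) (b := b) (v := v)
          have h6 := R.sum_r
          linarith
      refine ⟨w, hwS, fun l hl => ?_⟩
      obtain ⟨i, rfl⟩ := (τ w).surjective l
      obtain ⟨hc, ht1⟩ := (hIm w i).1 hl
      have h1 := hedge i hc
      rw [hn'e] at h1
      have h2 := hz2 i (Finset.mem_univ _)
      have h3 : Nr.tt D b v k x w (τ w) i ≠ 0 := by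
        unfold Nr.tt
        rw [if_pos hc]
        have : 0 < tv D k x w (τ w i) := ht1
        exact_mod_cast this.ne'
      have h4 : ((∑ f ∈ Z, cf D f w (τ w i) : ℤ) : ℝ) = 0 := by
        rcases mul_eq_zero.1 h2 with h | h
        · exact absurd h h3
        · exact h
      rw [h4, mul_zero, add_zero] at h1
      exact h1)
    P ((k : ℝ) • P) D.convex (D.convex.smul _)
    (by
      intro w hw c hc
      have C := hτ w (hSm w hw).1
      obtain ⟨g0, g1, g2⟩ := hheight w c hc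
      rw [hIsum, haR]
      have h1 : Nr.al D m w (τ w) +
          ∑ i, (if τ w i ∈ I w then c (τ w i) else 0) • toR (D.e w (τ w i)) =
          pt D w (τ w) (fun i => (m i : ℝ) + if τ w i ∈ I w then c (τ w i) else 0) := by
        simp only [Nr.al, pt, add_smul, Finset.sum_add_distrib, add_assoc]
      rw [h1]
      refine C.mem hI _ (fun i => add_nonneg (Nat.cast_nonneg _) (g0 i)) ?_ ?_
      · simp only [add_mul, Finset.sum_add_distrib]
        rw [g1, add_zero]
        exact R.hm1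
      · rw [Finset.sum_add_distrib]
        have := R.hH
        linarith)
    (by
      intro w hw c hc
      have C := hτ w (hSm w hw).1
      obtain ⟨g0, g1, g2⟩ := hheight w c hc
      rw [hIsum, haR']
      refine Set.mem_smul_set.2 ⟨pt D w (τ w) (fun i => (r i : ℝ) / k +
        (1 / (k : ℝ)) * (if τ w i ∈ I w then c (τ w i) else 0)), ?_, ?_⟩
      · refine C.mem hI _ (fun i => add_nonneg (div_nonneg (Nat.cast_nonneg _) hk0.le)
          (mul_nonneg (by positivity) (g0 i))) ?_ ?_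
        · simp only [add_mul, Finset.sum_add_distrib, mul_assoc]
          rw [← Finset.mul_sum, g1, mul_zero, add_zero]
          exact R.hr1
        · rw [Finset.sum_add_distrib, ← Finset.mul_sum]
          have h1 := R.hH'
          have h2 := R.sum_r
          have h3 : 0 ≤ ∑ j ∈ Tᶜ, (if τ w j ∈ I w then c (τ w j) else 0) :=
            Finset.sum_nonneg fun j _ => g0 j
          have h4 : 1 / (k : ℝ) ≤ 1 := by
            rw [div_le_one hk0]
            exact hk1
          have h5 := mul_le_mul_of_nonneg_right h4 h3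
          linarith
      · simp only [Nr.be, pt, add_smul, Finset.sum_add_distrib, smul_add, Finset.smul_sum,
          smul_smul, ← add_assoc]
        congr 1
        refine Finset.sum_congr rfl fun i _ => ?_
        congr 1
        field_simp)
  obtain ⟨z, hz, hzp⟩ := Set.mem_smul_set.1 hpB
  exact ⟨p, hpA, z, hz, hzp.symm⟩

/-- The integer decomposition property in index form. -/
theorem idp_of_iso (D : SD P) (hI : Iso D) : HasIDP P := by
  refine idp_of_step fun k hk x y hy hxy => ?_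
  by_cases h : ∀ v T b N, Bad D v T b N →
      T.card ≤ N + ∑ j ∈ Tᶜ, (cf D b v j).toNat * ((tv D k x v j - 1) / 2)
  · exact far_step hI k hk x hy hxy h
  · push Not at h
    obtain ⟨v, T, b, N, B, hlt⟩ := h
    obtain ⟨m, r, R⟩ := nr_ex hI B hk hy hxy hlt
    exact near_step hI R

end H98OD
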