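import Pool.Agent.H98.OI.Defs
import Pool.Agent.H98.OI.Near2
import Pool.Agent.H98.OD.Main

/-!
# From the geometric condition to the index form

`seg_dir`: an edge of `P` between two vertices has the direction of an edge vector.
`simplex_seg`: the segments between the vertices of a simplex face are faces.
`qf_max`: the face spanned by all directions ending in `b` is in no larger simplex face.
`iso_of_long`: `LongLeavingEdges P` implies `Iso D` if `P` is not a simplex.
-/

namespace H98OD

open H66OD H19OZ Matrix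

variable {d : ℕ} {P : Set (Fin d → ℝ)}

theorem ext_vt (D : SD P) {z : Fin d → ℝ} (hz : z ∈ P.extremePoints ℝ) :
    ∃ w ∈ D.Vt, z = toR w := by
  have h1 : P.extremePoints ℝ ⊆ toR '' (D.Vt : Set (Fin d → ℤ)) := by
    conv_lhs => rw [D.hull]
    exact extremePoints_convexHull_subset
  obtain ⟨w, hw, rfl⟩ := h1 hz
  exact ⟨w, hw, rfl⟩

theorem seg_dir (D : SD P) {v w : Fin d → ℤ} (hv : v ∈ D.Vt) (hw : w ∈ D.Vt) (hne : v ≠ w)
    (hE : IsExtreme ℝ P (segment ℝ (toR v) (toR w))) :
    ∃ l, ∃ t : ℝ, 0 < t ∧ toR w = toR v + t • toR (D.e v l) := by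
  classical
  have hx0 : ∀ l, 0 ≤ pf D (v, l) (toR w) := fun l => pf_nn D (a := (v, l)) hv (D.vmem hw)
  have hspan := span_pf D hv (toR w)
  obtain ⟨l, hl⟩ : ∃ l, pf D (v, l) (toR w) ≠ 0 := by
    by_contra hcon
    push Not at hcon
    apply hne
    apply toR_injective
    rw [hspan, Finset.sum_eq_zero fun l _ => by rw [hcon l, zero_smul], add_zero]
  have hlpos : 0 < pf D (v, l) (toR w) := lt_of_le_of_ne (hx0 l) (Ne.symm hl)
  refine ⟨l, pf D (v, l) (toR w), hlpos, ?_⟩
  have hall : ∀ m, m ≠ l → pf D (v, m) (toR w) = 0 := by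
    intro m hm
    by_contra hmne
    obtain ⟨X, hX⟩ : ∃ X : ℝ, X = ∑ n, pf D (v, n) (toR w) := ⟨_, rfl⟩
    have hXl : pf D (v, l) (toR w) ≤ X := by
      rw [hX]
      exact Finset.single_le_sum (f := fun n => pf D (v, n) (toR w)) (fun n _ => hx0 n)
        (Finset.mem_univ l)
    have hX0 : 0 < X := by linarith
    obtain ⟨ε, hε⟩ : ∃ ε : ℝ, ε = 1 / (2 * X + 1) := ⟨_, rfl⟩
    have hε0 : 0 < ε := by rw [hε]; positivity
    have hεX : 2 * ε * X ≤ 1 := by
      rw [hε]
      have : 2 * (1 / (2 * X + 1)) * X = (2 * X) / (2 * X + 1) := by ring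
      rw [this, div_le_one (by positivity)]
      linarith
    have hε1 : ε ≤ 1 := by
      rw [hε, div_le_one (by positivity)]
      linarith
    -- the two points
    have ha : toR v + ∑ n ∈ {l}, (2 * ε * pf D (v, n) (toR w)) • toR (D.e v n) ∈ P := by
      refine conv_cols D.convex one_pos (D.vmem hv) {l} (fun n => toR (D.e v n)) (fun n _ => ?_)
        (fun n => 2 * ε * pf D (v, n) (toR w)) (fun n _ => ?_) ?_
      · rw [one_smul, ← toR_add]
        exact D.mem v hv n
      · exact mul_nonneg (by positivity) (hx0 n)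
      · rw [Finset.sum_singleton]
        calc 2 * ε * pf D (v, l) (toR w) ≤ 2 * ε * X :=
              mul_le_mul_of_nonneg_left hXl (by positivity)
          _ ≤ 1 := hεX
    have hb : toR v + ∑ n ∈ Finset.univ.erase l,
        (2 * ε * pf D (v, n) (toR w)) • toR (D.e v n) ∈ P := by
      refine conv_cols D.convex one_pos (D.vmem hv) (Finset.univ.erase l)
        (fun n => toR (D.e v n)) (fun n _ => ?_)
        (fun n => 2 * ε * pf D (v, n) (toR w)) (fun n _ => ?_) ?_
      · rw [one_smul, ← toR_add]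
        exact D.mem v hv n
      · exact mul_nonneg (by positivity) (hx0 n)
      · rw [← Finset.mul_sum]
        refine le_trans (mul_le_mul_of_nonneg_left ?_ (by positivity)) hεX
        rw [hX]
        exact Finset.sum_le_sum_of_subset_of_nonneg (Finset.subset_univ _) fun n _ _ => hx0 n
    rw [Finset.sum_singleton] at ha
    have hc : toR v + ε • (toR w - toR v) ∈ segment ℝ (toR v) (toR w) := by
      refine ⟨1 - ε, ε, by linarith, hε0.le, by ring, ?_⟩
      module
    have hco : toR v + ε • (toR w - toR v) ∈ openSegment ℝ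
        (toR v + (2 * ε * pf D (v, l) (toR w)) • toR (D.e v l))
        (toR v + ∑ n ∈ Finset.univ.erase l,
          (2 * ε * pf D (v, n) (toR w)) • toR (D.e v n)) := by
      refine ⟨1 / 2, 1 / 2, by norm_num, by norm_num, by norm_num, ?_⟩
      have e1 : toR w - toR v = ∑ n, pf D (v, n) (toR w) • toR (D.e v n) := by
        conv_lhs => rw [hspan]
        abel
      have e2 : ∑ n ∈ Finset.univ.erase l, (2 * ε * pf D (v, n) (toR w)) • toR (D.e v n) =
          (2 * ε) • ∑ n ∈ Finset.univ.erase l, pf D (v, n) (toR w) • toR (D.e v n) := by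
        rw [Finset.smul_sum]
        exact Finset.sum_congr rfl fun n _ => by rw [smul_smul]
      rw [e1, e2, ← Finset.add_sum_erase _ _ (Finset.mem_univ l)]
      module
    have h1 := hE.2 ha hb hc hco
    obtain ⟨s, θ, -, -, hsθ, h2⟩ := h1
    have h3 := pf_aff D (v, m) s θ (toR v) (toR w) hsθ
    rw [h2, pf_self, pf_smul_add, pf_self, cf_self D hv, if_neg hm] at h3
    have h4 : θ = 0 := by
      have h5 : θ * pf D (v, m) (toR w) = 0 := by
        push_cast at h3
        linarith
      rcases mul_eq_zero.1 h5 with h | h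
      · exact h
      · exact absurd h hmne
    have h5 := pf_aff D (v, l) s θ (toR v) (toR w) hsθ
    rw [h2, pf_self, pf_smul_add, pf_self, cf_self D hv, if_pos rfl, h4] at h5
    push_cast at h5
    have h6 := mul_pos (by positivity : (0 : ℝ) < 2 * ε) hlpos
    linarith
  conv_lhs => rw [hspan]
  congr 1
  rw [Finset.sum_eq_single l]
  · intro m _ hm
    rw [hall m hm, zero_smul]
  · intro h
    exact absurd (Finset.mem_univ _) h

theorem hull_rep {n : ℕ} (p : Fin (n + 1) → Fin d → ℝ) {z : Fin d → ℝ}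
    (hz : z ∈ convexHull ℝ (Set.range p)) :
    ∃ w : Fin (n + 1) → ℝ, (∀ i, 0 ≤ w i) ∧ ∑ i, w i = 1 ∧ ∑ i, w i • p i = z := by
  classical
  have hconv : Convex ℝ {z : Fin d → ℝ | ∃ w : Fin (n + 1) → ℝ, (∀ i, 0 ≤ w i) ∧
      ∑ i, w i = 1 ∧ ∑ i, w i • p i = z} := by
    rintro x ⟨α, hα, hα1, rfl⟩ y ⟨β, hβ, hβ1, rfl⟩ s t hs ht hst
    refine ⟨fun i => s * α i + t * β i, fun i => add_nonneg (mul_nonneg hs (hα i))
      (mul_nonneg ht (hβ i)), ?_, ?_⟩
    · rw [Finset.sum_add_distrib, ← Finset.mul_sum, ← Finset.mul_sum, hα1, hβ1]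
      linarith
    · simp only [add_smul, mul_smul, Finset.sum_add_distrib, Finset.smul_sum]
  refine convexHull_min ?_ hconv hz
  rintro _ ⟨i, rfl⟩
  refine ⟨Pi.single i 1, fun j => ?_, ?_, ?_⟩
  · by_cases h : j = i
    · subst h
      rw [Pi.single_eq_same]
      exact zero_le_one
    · rw [Pi.single_eq_of_ne h]
  · rw [Finset.sum_eq_single i]
    · rw [Pi.single_eq_same]
    · intro j _ hj
      rw [Pi.single_eq_of_ne hj]
    · intro h
      exact absurd (Finset.mem_univ _) h
  · rw [Finset.sum_eq_single i]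
    · rw [Pi.single_eq_same, one_smul]
    · intro j _ hj
      rw [Pi.single_eq_of_ne hj, zero_smul]
    · intro h
      exact absurd (Finset.mem_univ _) h

/-- Segments between the vertices of a simplex face are faces. -/
theorem simplex_seg {n : ℕ} {p : Fin (n + 1) → Fin d → ℝ} (ai : AffineIndependent ℝ p)
    (hF : IsExtreme ℝ P (convexHull ℝ (Set.range p))) (a b : Fin (n + 1)) :
    IsExtreme ℝ P (segment ℝ (p a) (p b)) := by
  classical
  refine hF.trans ⟨?_, ?_⟩
  · exact (convex_convexHull ℝ _).segment_subset (subset_convexHull ℝ _ ⟨a, rfl⟩)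
      (subset_convexHull ℝ _ ⟨b, rfl⟩)
  · rintro x hx y hy z ⟨θ₁, θ₂, hθ₁, hθ₂, hθ, hz⟩ ⟨s, t, hs, ht, hst, hz'⟩
    obtain ⟨α, hα, hα1, rfl⟩ := hull_rep p hx
    obtain ⟨β, hβ, hβ1, rfl⟩ := hull_rep p hy
    have key : ∀ i, s * α i + t * β i - θ₁ * (if i = a then 1 else 0) -
        θ₂ * (if i = b then 1 else 0) = 0 := by
      intro i
      refine affineIndependent_iff.1 ai Finset.univ (fun i => s * α i + t * β i -
        θ₁ * (if i = a then 1 else 0) - θ₂ * (if i = b then 1 else 0)) ?_ ?_ i (Finset.mem_univ i)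
      · rw [Finset.sum_sub_distrib, Finset.sum_sub_distrib, Finset.sum_add_distrib,
          ← Finset.mul_sum, ← Finset.mul_sum, ← Finset.mul_sum, ← Finset.mul_sum, hα1, hβ1,
          Finset.sum_ite_eq', Finset.sum_ite_eq', if_pos (Finset.mem_univ _),
          if_pos (Finset.mem_univ _)]
        linarith
      · have e1 : ∑ i, (s * α i + t * β i - θ₁ * (if i = a then 1 else 0) -
            θ₂ * (if i = b then 1 else 0)) • p i =
            s • ∑ i, α i • p i + t • ∑ i, β i • p i - θ₁ • p a - θ₂ • p b := by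
          have e2 : ∀ (θ : ℝ) (c : Fin (n + 1)), θ • p c =
              ∑ i, (θ * (if i = c then 1 else 0)) • p i := by
            intro θ c
            rw [Finset.sum_eq_single c]
            · rw [if_pos rfl, mul_one]
            · intro i _ hi
              rw [if_neg hi, mul_zero, zero_smul]
            · intro h
              exact absurd (Finset.mem_univ _) h
          rw [e2 θ₁ a, e2 θ₂ b, Finset.smul_sum, Finset.smul_sum, ← Finset.sum_add_distrib,
            ← Finset.sum_sub_distrib, ← Finset.sum_sub_distrib]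
          refine Finset.sum_congr rfl fun i _ => ?_
          module
        rw [e1, hz', ← hz]
        abel
    have hzero : ∀ i, i ≠ a → i ≠ b → α i = 0 := by
      intro i hia hib
      have h1 := key i
      rw [if_neg hia, if_neg hib, mul_zero, mul_zero, sub_zero, sub_zero] at h1
      have h2 := mul_nonneg hs.le (hα i)
      have h3 := mul_nonneg ht.le (hβ i)
      have h4 : s * α i = 0 := by linarith
      rcases mul_eq_zero.1 h4 with h | h
      · exact absurd h hs.ne'
      · exact h
    have h5 := (convex_segment (𝕜 := ℝ) (p a) (p b)).sum_mem (t := Finset.univ) (w := α)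
      (z := fun i => if i = a then p a else if i = b then p b else p a)
      (fun i _ => hα i) hα1 (fun i _ => by
        split_ifs
        · exact left_mem_segment ℝ _ _
        · exact right_mem_segment ℝ _ _
        · exact left_mem_segment ℝ _ _)
    have h6 : ∑ i, α i • (if i = a then p a else if i = b then p b else p a) =
        ∑ i, α i • p i := by
      refine Finset.sum_congr rfl fun i _ => ?_
      by_cases hia : i = a
      · rw [if_pos hia, hia]
      · by_cases hib : i = b
        · rw [if_neg hia, if_pos hib, hib]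
        · rw [hzero i hia hib, zero_smul, zero_smul]
    rw [h6] at h5
    exact h5

theorem simplex_ai {n : ℕ} {F : Set (Fin d → ℝ)} (hF : IsFaceOfDim n P F)
    {p : Fin (n + 1) → Fin d → ℝ} (hp : F = convexHull ℝ (Set.range p)) :
    AffineIndependent ℝ p := by
  have h1 : Module.finrank ℝ (vectorSpan ℝ (Set.range p)) = n := by
    have h2 := hF.2.2.2
    rw [hp] at h2
    rw [← direction_affineSpan, ← affineSpan_convexHull, direction_affineSpan]
    exact h2
  exact (affineIndependent_iff_finrank_vectorSpan_eq ℝ p (Fintype.card_fin _)).2 h1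

/-- The face spanned by all directions ending in `b` is in no larger simplex face. -/
theorem qf_max {D : SD P} {v : Fin d → ℤ} {T : Finset (Fin d)} {b : (Fin d → ℤ) × Fin d} {N : ℕ}
    (B : Bad D v T b N) {k' : ℕ} {F' : Set (Fin d → ℝ)} (hF' : IsSimplexFace k' P F')
    (hsub : Qf D v T ⊆ F') : F' = Qf D v T := by
  classical
  obtain ⟨hface, p, hp⟩ := hF'
  have ai := simplex_ai hface hp
  have hext : IsExtreme ℝ P (convexHull ℝ (Set.range p)) := hp ▸ hface.2.2.1
  have hpe : ∀ a, ∃ w ∈ D.Vt, p a = toR w := by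
    intro a
    have h1 := simplex_seg ai hext a a
    rw [segment_same] at h1
    exact ext_vt D (isExtreme_singleton.1 h1)
  have hvr : ∀ w ∈ D.Vt, toR w ∈ F' → ∃ a, p a = toR w := by
    intro w hw hwF
    have h1 : toR w ∈ F'.extremePoints ℝ :=
      inter_extremePoints_subset_extremePoints_of_subset hface.2.2.1.1 ⟨hwF, D.ext w hw⟩
    rw [hp] at h1
    have h2 : toR w ∈ Set.range p := extremePoints_convexHull_subset h1
    exact h2
  refine Set.Subset.antisymm ?_ hsub
  rw [hp]
  refine convexHull_min ?_ (qf_face D B.hv T).2.1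
  rintro _ ⟨a, rfl⟩
  by_contra hna
  obtain ⟨w, hw, hwa⟩ := hpe a
  rw [hwa] at hna
  -- the edge from `v`
  obtain ⟨a₀, ha₀⟩ := hvr v B.hv (hsub (qf_self D B.hv T))
  have h1 := simplex_seg ai hext a₀ a
  rw [ha₀, hwa] at h1
  obtain ⟨l, t, ht, hwl⟩ := seg_dir D B.hv hw (by
    rintro rfl
    exact hna (qf_self D B.hv T)) h1
  have hlT : l ∉ T := by
    intro hl
    apply hna
    rw [hwl]
    exact qf_mem D B.hv hl (by rw [← hwl]; exact D.vmem hw)
  -- the edge from another vertex
  obtain ⟨i, hi⟩ : T.Nonempty := by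
    rw [← Finset.card_pos]
    have := B.lt
    omega
  have hli : l ≠ i := by
    rintro rfl
    exact hlT hi
  obtain ⟨q, L, τ, A⟩ := far_end D B.hv i
  obtain ⟨hL, hub, -, -⟩ := B.swap hi A
  have hqF : toR q ∈ Qf D v T := by
    rw [A.toReq]
    exact qf_mem D B.hv hi (by rw [← A.toReq]; exact D.vmem A.hq)
  obtain ⟨a₁, ha₁⟩ := hvr q A.hq (hsub hqF)
  have h2 := simplex_seg ai hext a₁ a
  rw [ha₁, hwa] at h2
  obtain ⟨m, t', ht', hwm⟩ := seg_dir D A.hq hw (by
    rintro rfl
    exact hna hqF) h2
  have hpfl : pf D (v, l) (toR w) = t := by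
    rw [hwl, pf_smul_add, pf_self, cf_self D B.hv, if_pos rfl]
    push_cast
    ring
  have hmi : m ≠ τ i := by
    rintro rfl
    have h3 : pf D (v, l) (toR w) = 0 := by
      rw [hwm, pf_smul_add, A.pf_q, pf_self, A.cf_i, cf_self D B.hv, if_neg hli]
      push_cast
      ring
    rw [hpfl] at h3
    exact ht.ne' h3
  have hb : ∀ z, pf D b z = pf D (q, τ i) z :=
    pf_congr D (a := b) (b := (q, τ i)) hub (q := toR q) (by
      rw [pf_self, A.pf_q, hL, B.pfv, B.cfT hi]
      push_cast
      ring)
  apply hlT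
  rw [B.hT]
  refine ⟨t, ht, by rw [← hwl]; exact D.vmem hw, ?_⟩
  rw [← hwl, hb, hwm, pf_smul_add, pf_self, cf_self D A.hq, if_neg (Ne.symm hmi)]
  push_cast
  ring

/-- The geometric condition implies the index form. -/
theorem iso_of_long (D : SD P) (hns : ∀ v a, ¬SpxAt D v a) (h : LongLeavingEdges P) : Iso D := by
  classical
  refine ⟨hns, fun v T b N B j hj => ?_⟩
  have hlt := B.lt
  have hN1 := B.N1
  have hcard : T.card < d := by
    by_contra hcon
    have h1 := T.card_le_univ
    rw [Fintype.card_fin] at h1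
    have h2 : T = Finset.univ := by
      apply Finset.eq_univ_of_card
      rw [Fintype.card_fin]
      omega
    refine hns v b ⟨B.hv, B.hb, B.pos, fun i => ?_⟩
    exact (B.hT i).1 (by rw [h2]; exact Finset.mem_univ _)
  obtain ⟨i, hi⟩ : T.Nonempty := by
    rw [← Finset.card_pos]
    omega
  have hsimp : IsSimplexFace T.card P (Qf D v T) := by
    refine ⟨qf_face D B.hv T, Fin.cons (toR v) fun j : Fin T.card =>
      toR v + (N : ℝ) • toR (D.e v (T.equivFin.symm j).1), ?_⟩
    rw [qf_simplex D B.hv T B.hb B.pos (fun _ => (N : ℝ)) (fun i hi => ⟨B.N0, B.memT hi, by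
      rw [pf_smul_add, B.pfv, B.cfT hi]
      push_cast
      ring⟩)]
    congr 1
    rw [Fin.range_cons]
    congr 1
    ext w
    constructor
    · rintro ⟨l, hl, rfl⟩
      refine ⟨T.equivFin ⟨l, hl⟩, ?_⟩
      simp
    · rintro ⟨j, rfl⟩
      exact ⟨(T.equivFin.symm j).1, (T.equivFin.symm j).2, rfl⟩
  obtain ⟨q, L, τ, A⟩ := far_end D B.hv i
  obtain ⟨hL, -, -, -⟩ := B.swap hi A
  have hq : toR v + (N : ℝ) • toR (D.e v i) = toR q := by
    rw [A.toReq, hL]
  refine h T.card N (Qf D v T) (by omega) hcard hlt hsimp ⟨hN1, toR v, D.ext v B.hv, D.e v i, ?_,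
    ?_, qf_self D B.hv T, qf_mem D B.hv hi (B.memT hi)⟩ (fun k' F' hF' hsub =>
    qf_max B hF' hsub) (toR v) (D.ext v B.hv) (qf_self D B.hv T) (D.e v j) ?_ ?_
  · rw [← D.edge v B.hv]
    exact ⟨i, rfl⟩
  · rw [hq]
    exact D.ext q A.hq
  · rw [← D.edge v B.hv]
    exact ⟨j, rfl⟩
  · intro t ht hmem
    have h1 := hmem.2 j hj
    rw [pf_smul_add, pf_self, cf_self D B.hv, if_pos rfl] at h1
    push_cast at h1
    linarith

/-- A smooth lattice polytope in which edges leaving short simplex faces are long has the integer decomposition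
property. -/
theorem idp_of_leaving (hP : IsSmooth P) (h : LongLeavingEdges P) : HasIDP P := by
  obtain ⟨D⟩ := sd_of_smooth P hP
  by_cases hs : ∃ v a, SpxAt D v a
  · obtain ⟨v, a, hva⟩ := hs
    exact spx_idp D hva
  · push Not at hs
    exact idp_of_iso D (iso_of_long D hs h)

end H98OD
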