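import Pool.Agent.H98.OI.Far

/-!
# Points of `(k+1) P` near a short simplex face: charts

`Ch D v T b N w τ`: the vertex `w` of `P` carries the short simplex face `T` of the facet `b` at `v`, moved in
directions of growth zero; `τ` identifies the facets at `v` and at `w`.
-/

namespace H98OD

open H66OD H19OZ Matrix
open scoped Classical Pointwise

variable {d : ℕ} {P : Set (Fin d → ℝ)}

/-- The point `w + ∑ m_i e w (τ i)`. -/
def pt (D : SD P) (w : Fin d → ℤ) (τ : Equiv.Perm (Fin d)) (m : Fin d → ℝ) : Fin d → ℝ :=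
  toR w + ∑ i, m i • toR (D.e w (τ i))

theorem pf_pt (D : SD P) (a : (Fin d → ℤ) × Fin d) (w : Fin d → ℤ) (τ : Equiv.Perm (Fin d))
    (m : Fin d → ℝ) :
    pf D a (pt D w τ m) = pf D a (toR w) + ∑ i, m i * (cf D a w (τ i) : ℝ) := by
  rw [pt, pf_add, dotProduct_sum]
  congr 1
  refine Finset.sum_congr rfl fun i _ => ?_
  rw [dotProduct_smul, smul_eq_mul, cf_real]

theorem pf_pt_self (D : SD P) {w : Fin d → ℤ} (hw : w ∈ D.Vt) (τ : Equiv.Perm (Fin d))
    (m : Fin d → ℝ) (l : Fin d) : pf D (w, τ l) (pt D w τ m) = m l := by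
  rw [pf_pt, pf_self, zero_add, Finset.sum_eq_single l]
  · rw [cf_self D hw, if_pos rfl, Int.cast_one, mul_one]
  · intro i _ hi
    rw [cf_self D hw, if_neg (fun h => hi (τ.injective h).symm), Int.cast_zero, mul_zero]
  · intro h
    exact absurd (Finset.mem_univ _) h

/-- A translate of the short simplex face. -/
structure Ch (D : SD P) (v : Fin d → ℤ) (T : Finset (Fin d)) (b : (Fin d → ℤ) × Fin d) (N : ℕ)
    (w : Fin d → ℤ) (τ : Equiv.Perm (Fin d)) : Prop where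
  B : Bad D w (T.map τ.toEmbedding) b N
  hu : ∀ i, cf D b v i ≠ 0 → D.u w (τ i) = D.u v i ∧ pf D (v, i) (toR w) = 0
  hc : ∀ j, cf D b w (τ j) = cf D b v j

/-- The trivial chart. -/
theorem ch_refl {D : SD P} {v : Fin d → ℤ} {T : Finset (Fin d)} {b : (Fin d → ℤ) × Fin d} {N : ℕ}
    (B : Bad D v T b N) : Ch D v T b N v (Equiv.refl _) where
  B := by
    have h1 : T.map (Equiv.refl (Fin d)).toEmbedding = T := by
      ext i
      simp
    rw [h1]
    exact B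
  hu := fun i _ => ⟨rfl, pf_self D v i⟩
  hc := fun _ => rfl

namespace Ch

variable {D : SD P} {v : Fin d → ℤ} {T : Finset (Fin d)} {b : (Fin d → ℤ) × Fin d} {N : ℕ}
  {w : Fin d → ℤ} {τ : Equiv.Perm (Fin d)}

theorem mem_map (i : Fin d) : τ i ∈ T.map τ.toEmbedding ↔ i ∈ T := by
  rw [Finset.mem_map]
  constructor
  · rintro ⟨l, hl, h⟩
    have h' : l = i := τ.injective h
    rwa [← h']
  · intro h
    exact ⟨i, h, rfl⟩

theorem compl_map : (T.map τ.toEmbedding)ᶜ = Tᶜ.map τ.toEmbedding := by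
  ext j
  obtain ⟨l, rfl⟩ := τ.surjective j
  rw [Finset.mem_compl, mem_map, mem_map, Finset.mem_compl]

theorem pfb (C : Ch D v T b N w τ) (m : Fin d → ℝ) :
    pf D b (pt D w τ m) = N + ∑ i, m i * (cf D b v i : ℝ) := by
  rw [pf_pt, C.B.pfv]
  congr 1
  exact Finset.sum_congr rfl fun i _ => by rw [C.hc]

theorem notMem (C : Ch D v T b N w τ) {j : Fin d} (hj : cf D b v j = 0) : j ∉ T := by
  intro h
  have h1 := C.B.cfT ((mem_map (τ := τ) j).2 h)
  rw [C.hc, hj] at h1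
  omega

theorem cfm (C : Ch D v T b N w τ) {j : Fin d} (hj : j ∈ T) : cf D b v j = -1 := by
  rw [← C.hc j]
  exact C.B.cfT ((mem_map (τ := τ) j).2 hj)

theorem mem (C : Ch D v T b N w τ) (hI : Iso D) (m : Fin d → ℝ) (h0 : ∀ i, 0 ≤ m i)
    (h1 : 0 ≤ N + ∑ i, m i * (cf D b v i : ℝ)) (h2 : ∑ j ∈ Tᶜ, m j ≤ (d : ℝ) - N) :
    pt D w τ m ∈ P := by
  refine C.B.wedge hI _ (fun i => ?_) ?_ ?_
  · obtain ⟨l, rfl⟩ := τ.surjective i
    rw [pf_pt_self D C.B.hv]
    exact h0 l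
  · rw [C.pfb]
    exact h1
  · rw [compl_map, Finset.sum_map]
    have h3 : ∀ j ∈ Tᶜ, pf D (w, τ.toEmbedding j) (pt D w τ m) = m j := fun j _ =>
      pf_pt_self D C.B.hv τ m j
    rw [Finset.sum_congr rfl h3]
    exact h2

theorem step (C : Ch D v T b N w τ) (hI : Iso D) {j : Fin d} (hj : cf D b v j = 0)
    {w' : Fin d → ℤ} {L : ℕ} {ρ : Equiv.Perm (Fin d)} (A : Adj D w (τ j) w' L ρ) :
    Ch D v T b N w' (τ.trans ρ) where
  B := by
    have h1 : τ j ∉ T.map τ.toEmbedding := fun h => C.notMem hj ((mem_map j).1 h)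
    have h2 := C.B.trans hI h1 (by rw [C.hc, hj]) A
    have h3 : T.map (τ.trans ρ).toEmbedding = (T.map τ.toEmbedding).map ρ.toEmbedding := by
      rw [Finset.map_map]
      rfl
    rw [h3]
    exact h2
  hu := by
    intro i hi
    have hij : τ i ≠ τ j := fun h => hi (by rw [τ.injective h]; exact hj)
    obtain ⟨h1, h2⟩ := C.hu i hi
    refine ⟨?_, ?_⟩
    · rw [Equiv.trans_apply, A.u _ hij, h1]
    · rw [A.pf_q, h2]
      have h3 : cf D (v, i) w (τ j) = 0 := by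
        unfold cf
        rw [← h1, D.dual w C.B.hv, if_neg hij]
      rw [h3]
      simp
  hc := by
    intro l
    rw [Equiv.trans_apply]
    by_cases h : l = j
    · rw [h, A.cf_i, C.hc, hj, neg_zero]
    · rw [A.cf_l b (fun h' => h (τ.injective h')), C.hc, C.hc j, hj, mul_zero, add_zero]

theorem pt_eq {τ' : Equiv.Perm (Fin d)} (C : Ch D v T b N w τ) (C' : Ch D v T b N w τ')
    (m : Fin d → ℝ) (hm : ∀ i, cf D b v i = 0 → m i = 0) : pt D w τ m = pt D w τ' m := by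
  unfold pt
  congr 1
  refine Finset.sum_congr rfl fun i _ => ?_
  by_cases hi : cf D b v i = 0
  · rw [hm i hi, zero_smul, zero_smul]
  · have h1 : τ i = τ' i := Adj.uinj D C.B.hv (by rw [(C.hu i hi).1, (C'.hu i hi).1])
    rw [h1]

end Ch

theorem pt_step {D : SD P} {w w' : Fin d → ℤ} {τ ρ : Equiv.Perm (Fin d)} {j : Fin d} {L : ℕ}
    (A : Adj D w (τ j) w' L ρ) (m : Fin d → ℝ) (hm : m j = 0) :
    pt D w' (τ.trans ρ) m =
      pt D w τ m + pf D (w', ρ (τ j)) (pt D w τ m) • toR (D.e w (τ j)) := by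
  rw [pf_pt, A.pf_opp_v]
  unfold pt
  have h1 : ∑ i, m i • toR (D.e w' ((τ.trans ρ) i)) =
      ∑ i, m i • toR (D.e w (τ i)) +
        (∑ i, m i * (cf D (w', ρ (τ j)) w (τ i) : ℝ)) • toR (D.e w (τ j)) := by
    rw [Finset.sum_smul, ← Finset.sum_add_distrib]
    refine Finset.sum_congr rfl fun i _ => ?_
    by_cases hi : i = j
    · rw [hi, hm]
      simp
    · have hij : τ i ≠ τ j := fun h => hi (τ.injective h)
      rw [Equiv.trans_apply, A.e_l hij, A.cf_opp_l hij, toR_add, toR_zsmul, smul_add, smul_smul]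
  rw [h1, A.toReq]
  module

/-- Data for a point near a short simplex face. -/
structure Nr (D : SD P) (v : Fin d → ℤ) (T : Finset (Fin d)) (b : (Fin d → ℤ) × Fin d)
    (N k : ℕ) (x : Fin d → ℤ) (y : Fin d → ℝ) (m r : Fin d → ℕ) : Prop where
  B : Bad D v T b N
  k1 : 1 ≤ k
  hy : y ∈ P
  hxy : toR x = ((k : ℝ) + 1) • y
  hmr : ∀ i, cf D b v i ≠ 0 → m i + r i = tv D k x v i
  h0 : ∀ i, cf D b v i = 0 → m i = 0 ∧ r i = 0
  hm1 : (0 : ℝ) ≤ N + ∑ i, (m i : ℝ) * (cf D b v i : ℝ)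
  hr1 : (0 : ℝ) ≤ N + ∑ i, ((r i : ℝ) / k) * (cf D b v i : ℝ)
  hH : ∑ j ∈ Tᶜ, (m j : ℝ) + ((Finset.univ.filter fun j => cf D b v j = 0).card : ℝ) + 1 ≤
    (d : ℝ) - N
  hH' : ∑ j ∈ Tᶜ, (r j : ℝ) + ((Finset.univ.filter fun j => cf D b v j = 0).card : ℝ) + 1 ≤
    (d : ℝ) - N

theorem nr_ex {D : SD P} (hI : Iso D) {v : Fin d → ℤ} {T : Finset (Fin d)}
    {b : (Fin d → ℤ) × Fin d} {N : ℕ} (B : Bad D v T b N) {k : ℕ} (hk : 1 ≤ k) {x : Fin d → ℤ}
    {y : Fin d → ℝ} (hy : y ∈ P) (hxy : toR x = ((k : ℝ) + 1) • y)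
    (hnear : N + ∑ j ∈ Tᶜ, (cf D b v j).toNat * ((tv D k x v j - 1) / 2) < T.card) :
    ∃ m r, Nr D v T b N k x y m r := by
  have hk0 : (0 : ℝ) < k := by
    have : 0 < k := hk
    exact_mod_cast this
  obtain ⟨t, ht⟩ : ∃ t : Fin d → ℕ, t = tv D k x v := ⟨_, rfl⟩
  have htR : ∀ i, (t i : ℝ) = ((k : ℝ) + 1) * pf D (v, i) y := by
    intro i
    rw [ht]
    exact tv_real D hy hxy B.hv i
  rw [← ht] at hnear
  obtain ⟨c, hc⟩ : ∃ c : Fin d → ℕ, c = fun j => (cf D b v j).toNat := ⟨_, rfl⟩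
  have hcZ : ∀ j, j ∉ T → ((c j : ℕ) : ℤ) = cf D b v j := by
    intro j hj
    rw [hc]
    exact Int.toNat_of_nonneg (B.cf_nn hI hj)
  have hcR : ∀ j, j ∉ T → ((cf D b v j : ℤ) : ℝ) = (c j : ℝ) := by
    intro j hj
    rw [← hcZ j hj]
    simp
  have hnear' : N + ∑ j ∈ Tᶜ, c j * ((t j - 1) / 2) < T.card := by
    rw [hc]
    exact hnear
  -- the total
  have hY0 : ∑ i ∈ T, t i ≤ (k + 1) * N + ∑ j ∈ Tᶜ, c j * t j := by
    have h1 := pf_nn D B.hb hy
    rw [B.pfb] at h1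
    have h2 : 0 ≤ ((k : ℝ) + 1) * (N + ∑ j ∈ Tᶜ, (cf D b v j : ℝ) * pf D (v, j) y -
        ∑ i ∈ T, pf D (v, i) y) := mul_nonneg (by positivity) h1
    have h3 : ((k : ℝ) + 1) * (N + ∑ j ∈ Tᶜ, (cf D b v j : ℝ) * pf D (v, j) y -
        ∑ i ∈ T, pf D (v, i) y) = ((k : ℝ) + 1) * N + ∑ j ∈ Tᶜ, (c j : ℝ) * (t j : ℝ) -
        ∑ i ∈ T, (t i : ℝ) := by
      rw [mul_sub, mul_add, Finset.mul_sum, Finset.mul_sum]
      congr 1
      · congr 1
        refine Finset.sum_congr rfl fun j hj => ?_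
        rw [hcR j (Finset.mem_compl.1 hj), htR]
        ring
      · exact Finset.sum_congr rfl fun i _ => (htR i).symm
    rw [h3] at h2
    have h4 : (∑ i ∈ T, (t i : ℝ)) ≤ ((k : ℝ) + 1) * N + ∑ j ∈ Tᶜ, (c j : ℝ) * (t j : ℝ) := by
      linarith
    exact_mod_cast h4
  have hY : ∑ i ∈ T, t i ≤ (k + 1) * N + (∑ j ∈ Tᶜ, c j * (t j - t j / 2) +
      ∑ j ∈ Tᶜ, c j * (t j / 2)) := by
    rw [← Finset.sum_add_distrib]
    refine hY0.trans (Nat.add_le_add_left (Finset.sum_le_sum fun j _ => ?_) _)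
    rw [← mul_add]
    exact Nat.mul_le_mul_left _ (by omega)
  obtain ⟨g, hg, hgs⟩ := exists_le_sum T t
    (min (∑ i ∈ T, t i) (N + ∑ j ∈ Tᶜ, c j * (t j - t j / 2))) (min_le_left _ _)
  have hg1 : ∑ i ∈ T, g i ≤ N + ∑ j ∈ Tᶜ, c j * (t j - t j / 2) := by
    rw [hgs]
    exact min_le_right _ _
  have hg2 : ∑ i ∈ T, (t i - g i) ≤ k * N + ∑ j ∈ Tᶜ, c j * (t j / 2) := by
    have h1 : ∑ i ∈ T, (t i - g i) + ∑ i ∈ T, g i = ∑ i ∈ T, t i := by
      rw [← Finset.sum_add_distrib]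
      exact Finset.sum_congr rfl fun i _ => Nat.sub_add_cancel (hg i)
    have h2 : (k + 1) * N = k * N + N := by ring
    rw [h2] at hY
    rcases le_total (∑ i ∈ T, t i) (N + ∑ j ∈ Tᶜ, c j * (t j - t j / 2)) with h | h
    · rw [min_eq_left h] at hgs
      omega
    · rw [min_eq_right h] at hgs
      omega
  obtain ⟨m, hm⟩ : ∃ m : Fin d → ℕ,
      m = fun i => if i ∈ T then g i else if c i = 0 then 0 else t i - t i / 2 := ⟨_, rfl⟩
  obtain ⟨r, hr⟩ : ∃ r : Fin d → ℕ,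
      r = fun i => if i ∈ T then t i - g i else if c i = 0 then 0 else t i / 2 := ⟨_, rfl⟩
  have hmT : ∀ i ∈ T, m i = g i := fun i hi => by rw [hm]; exact if_pos hi
  have hmC : ∀ i, i ∉ T → m i = if c i = 0 then 0 else t i - t i / 2 := fun i hi => by
    rw [hm]; exact if_neg hi
  have hrT : ∀ i ∈ T, r i = t i - g i := fun i hi => by rw [hr]; exact if_pos hi
  have hrC : ∀ i, i ∉ T → r i = if c i = 0 then 0 else t i / 2 := fun i hi => by
    rw [hr]; exact if_neg hi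
  have hnT : ∀ i, cf D b v i = 0 → i ∉ T := by
    intro i hi h
    rw [B.cfT h] at hi
    omega
  have hc0 : ∀ i, i ∉ T → (cf D b v i = 0 ↔ c i = 0) := by
    intro i hi
    have := hcZ i hi
    constructor
    · intro h
      rw [h] at this
      exact_mod_cast this
    · intro h
      rw [h] at this
      exact_mod_cast this.symm
  -- heights
  have hh : ∀ f : Fin d → ℕ, (∀ j, j ∉ T → f j ≤ if c j = 0 then 0 else (t j - 1) / 2 + 1) →
      ∑ j ∈ Tᶜ, (f j : ℝ) + ((Finset.univ.filter fun j => cf D b v j = 0).card : ℝ) + 1 ≤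
        (d : ℝ) - N := by
    intro f hf
    have h1 : ∑ j ∈ Tᶜ, f j + (Finset.univ.filter fun j => cf D b v j = 0).card ≤
        ∑ j ∈ Tᶜ, c j * ((t j - 1) / 2) + (Tᶜ).card := by
      have e1 : (Finset.univ.filter fun j => cf D b v j = 0).card =
          ∑ j ∈ Tᶜ, if cf D b v j = 0 then 1 else 0 := by
        rw [Finset.card_eq_sum_ones, ← Finset.sum_filter]
        refine Finset.sum_congr ?_ fun _ _ => rfl
        ext j
        rw [Finset.mem_filter, Finset.mem_filter, Finset.mem_compl]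
        exact ⟨fun h => ⟨hnT j h.2, h.2⟩, fun h => ⟨Finset.mem_univ _, h.2⟩⟩
      rw [e1, Finset.card_eq_sum_ones, ← Finset.sum_add_distrib, ← Finset.sum_add_distrib]
      refine Finset.sum_le_sum fun j hj => ?_
      have hj' := Finset.mem_compl.1 hj
      have h3 := hf j hj'
      by_cases h : c j = 0
      · rw [if_pos h] at h3
        rw [if_pos ((hc0 j hj').2 h)]
        omega
      · rw [if_neg h] at h3
        rw [if_neg fun h' => h ((hc0 j hj').1 h')]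
        have h2 : (t j - 1) / 2 ≤ c j * ((t j - 1) / 2) :=
          Nat.le_mul_of_pos_left _ (by omega)
        omega
    have h2 := Finset.card_add_card_compl T
    rw [Fintype.card_fin] at h2
    have h4 : ∑ j ∈ Tᶜ, f j + (Finset.univ.filter fun j => cf D b v j = 0).card + 1 + N ≤ d := by
      omega
    have h5 : ∑ j ∈ Tᶜ, (f j : ℝ) + ((Finset.univ.filter fun j => cf D b v j = 0).card : ℝ) + 1 +
        N ≤ d := by exact_mod_cast h4
    linarith
  refine ⟨m, r, B, hk, hy, hxy, ?_, ?_, ?_, ?_, ?_, ?_⟩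
  · intro i hi
    rw [← ht]
    by_cases hiT : i ∈ T
    · rw [hmT i hiT, hrT i hiT]
      have := hg i
      omega
    · have h1 : c i ≠ 0 := fun h => hi ((hc0 i hiT).2 h)
      rw [hmC i hiT, hrC i hiT, if_neg h1, if_neg h1]
      omega
  · intro i hi
    have h1 := hnT i hi
    rw [hmC i h1, hrC i h1, if_pos ((hc0 i h1).1 hi), if_pos ((hc0 i h1).1 hi)]
    exact ⟨rfl, rfl⟩
  · rw [← Finset.sum_add_sum_compl T]
    have e1 : ∑ i ∈ T, (m i : ℝ) * (cf D b v i : ℝ) = -∑ i ∈ T, (g i : ℝ) := by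
      rw [← Finset.sum_neg_distrib]
      refine Finset.sum_congr rfl fun i hi => ?_
      rw [hmT i hi, B.cfT hi]
      push_cast
      ring
    have e2 : ∑ i ∈ Tᶜ, (m i : ℝ) * (cf D b v i : ℝ) =
        ∑ j ∈ Tᶜ, (c j : ℝ) * ((t j - t j / 2 : ℕ) : ℝ) := by
      refine Finset.sum_congr rfl fun i hi => ?_
      have hi' := Finset.mem_compl.1 hi
      rw [hmC i hi', hcR i hi']
      by_cases h : c i = 0
      · rw [if_pos h, h]
        simp
      · rw [if_neg h]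
        ring
    rw [e1, e2]
    have h1 : (∑ i ∈ T, (g i : ℝ)) ≤ N + ∑ j ∈ Tᶜ, (c j : ℝ) * ((t j - t j / 2 : ℕ) : ℝ) := by
      exact_mod_cast hg1
    linarith
  · rw [← Finset.sum_add_sum_compl T]
    have e1 : ∑ i ∈ T, ((r i : ℝ) / k) * (cf D b v i : ℝ) =
        -((∑ i ∈ T, ((t i - g i : ℕ) : ℝ)) / k) := by
      rw [Finset.sum_div, ← Finset.sum_neg_distrib]
      refine Finset.sum_congr rfl fun i hi => ?_
      rw [hrT i hi, B.cfT hi]
      push_cast
      ring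
    have e2 : ∑ i ∈ Tᶜ, ((r i : ℝ) / k) * (cf D b v i : ℝ) =
        (∑ j ∈ Tᶜ, (c j : ℝ) * ((t j / 2 : ℕ) : ℝ)) / k := by
      rw [Finset.sum_div]
      refine Finset.sum_congr rfl fun i hi => ?_
      have hi' := Finset.mem_compl.1 hi
      rw [hrC i hi', hcR i hi']
      by_cases h : c i = 0
      · rw [if_pos h, h]
        simp
      · rw [if_neg h]
        ring
    rw [e1, e2]
    have h1 : (∑ i ∈ T, ((t i - g i : ℕ) : ℝ)) ≤
        k * N + ∑ j ∈ Tᶜ, (c j : ℝ) * ((t j / 2 : ℕ) : ℝ) := by exact_mod_cast hg2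
    have h2 : (∑ i ∈ T, ((t i - g i : ℕ) : ℝ)) / k ≤
        N + (∑ j ∈ Tᶜ, (c j : ℝ) * ((t j / 2 : ℕ) : ℝ)) / k := by
      rw [div_le_iff₀ hk0, add_mul, div_mul_cancel₀ _ hk0.ne']
      linarith
    linarith
  · refine hh m fun j hj => ?_
    rw [hmC j hj]
    split_ifs <;> omega
  · refine hh r fun j hj => ?_
    rw [hrC j hj]
    split_ifs <;> omega

end H98OD
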