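import Pool.Agent.H98.OI.Bad

/-!
# Slopes over a short simplex face are nonnegative

`rect`: a face `F'` of `P` at `w` in coordinates `x_k ≥ 0`, `∑ x_k ≤ M`, containing the parallelogram
`p, p + A e, p + B f, p + A e + B f` with nonzero lattice vectors `e`, `f` has `A + B ≤ M`.

`dirs_in`: so, if `M < d`, all directions of `F'` at a vertex `p` of a short simplex face `K` having a direction in
`F'` belong to `K`: otherwise there is a parallelogram with `A = N_K`, `B = d - N_K`.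

`Bad.cf_nn`: for a short simplex face `(T, b, N)` at `v` the slope of `b` along the other edges `j` at `v` is
nonnegative. PROOF. Induction on `N`. Suppose the slope is negative; let `w` be the other end of the edge `j`, of
length `L`, and `N₁ = pf b w ≤ N - L`. The face `F'` at `w` in the directions of `T` is contained in `∑ x_k ≤ N₁`, so the
parallelepiped at `w` is not in `P` and some vertex `p` of `F'` lies on a short simplex `K` of edge length `≤ N₁` with a
direction in `F'`. By `dirs_in` `F'` is contained in `K`, so `w` lies on a short simplex face `K₁`, of edge length `N₂`.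
If `K₁` has no direction in `F'`, then `d - N₂ ≤ N₁` and `N₂ < |K₁| ≤ d - |T|`, a contradiction. Otherwise `N₂ ≤ N₁`; if
the edge to `v` is not in `K₁` then `d - N₂ ≤ L ≤ N - N₁`, a contradiction; if it is in `K₁` the facet at `w` opposite to
`v` has slope `-1` along some `i ∈ T` at `v`, but this slope is `≥ 0` as `L < N`.
-/

namespace H98OD

open H66OD H19OZ Matrix

variable {d : ℕ} {P : Set (Fin d → ℝ)}

theorem cf_expand (D : SD P) (a : (Fin d → ℤ) × Fin d) {v : Fin d → ℤ} (hv : v ∈ D.Vt)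
    (p : Fin d → ℤ) (l : Fin d) : cf D a p l = ∑ k, cf D (v, k) p l * cf D a v k := by
  have e1 := D.span v hv (toR (D.e p l))
  have e2 : ((cf D a p l : ℤ) : ℝ) = ∑ k, ((cf D (v, k) p l : ℤ) : ℝ) * ((cf D a v k : ℤ) : ℝ) := by
    rw [← cf_real]
    conv_lhs => rw [e1]
    rw [dotProduct_sum]
    refine Finset.sum_congr rfl fun k _ => ?_
    rw [dotProduct_smul, smul_eq_mul, cf_real]
    congr 1
    exact cf_real D (v, k) p l
  exact_mod_cast e2

/-- Slopes of a facet along the edges at a vertex in the facet are nonnegative. -/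
theorem cf_nn_of_zero (D : SD P) {a : (Fin d → ℤ) × Fin d} (ha : a.1 ∈ D.Vt) {p : Fin d → ℤ}
    (hp : p ∈ D.Vt) (h : pf D a (toR p) = 0) (l : Fin d) : 0 ≤ cf D a p l := by
  have h1 := pf_nn D ha (D.mem p hp l)
  rw [toR_add, pf_add, h, zero_add, cf_real] at h1
  exact_mod_cast h1

/-- If `p` lies in the face at `w` spanned by `T`, then `w` lies in the face at `p` spanned by the
directions of this face. -/
theorem qf_back (D : SD P) {w p : Fin d → ℤ} (hw : w ∈ D.Vt) (hp : p ∈ D.Vt)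
    {T : Finset (Fin d)} (hpT : toR p ∈ Qf D w T) {l : Fin d}
    (hl : ∃ k, k ∉ T ∧ cf D (w, k) p l ≠ 0) : pf D (p, l) (toR w) = 0 := by
  obtain ⟨k, hk, hne⟩ := hl
  have h0 : pf D (w, k) (toR p) = 0 := hpT.2 k hk
  have h1 := pf_expand D (w, k) hp (toR w)
  rw [h0, pf_self, zero_add] at h1
  have h2 : ∀ m, 0 ≤ pf D (p, m) (toR w) * (cf D (w, k) p m : ℝ) := fun m =>
    mul_nonneg (pf_nn D (a := (p, m)) hp (D.vmem hw)) (by
      exact_mod_cast cf_nn_of_zero D (a := (w, k)) hw hp h0 m)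
  have h3 := (Finset.sum_eq_zero_iff_of_nonneg fun m _ => h2 m).1 h1.symm l (Finset.mem_univ _)
  rcases mul_eq_zero.1 h3 with h4 | h4
  · exact h4
  · exfalso
    apply hne
    exact_mod_cast h4

/-- A lattice direction of a face decreases one of the barycentric coordinates. -/
theorem dec (D : SD P) {w p : Fin d → ℤ} (hw : w ∈ D.Vt) (hp : p ∈ D.Vt) {T : Finset (Fin d)}
    {l : Fin d} (hl : ∀ k, k ∉ T → cf D (w, k) p l = 0) :
    (∃ k ∈ T, (cf D (w, k) p l : ℝ) ≤ -1) ∨ (1 : ℝ) ≤ ∑ k ∈ T, (cf D (w, k) p l : ℝ) := by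
  classical
  by_cases h : ∃ k ∈ T, cf D (w, k) p l ≤ -1
  · obtain ⟨k, hk, h⟩ := h
    exact Or.inl ⟨k, hk, by exact_mod_cast h⟩
  · right
    push Not at h
    have hall : ∀ k ∈ T, 0 ≤ cf D (w, k) p l := fun k hk => by
      have := h k hk
      omega
    have hne : ∃ k ∈ T, 1 ≤ cf D (w, k) p l := by
      by_contra hcon
      push Not at hcon
      have h0 : ∀ k, cf D (w, k) p l = 0 := by
        intro k
        by_cases hk : k ∈ T
        · have h1 := hall k hk
          have h2 := hcon k hk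
          omega
        · exact hl k hk
      have h1 := cf_expand D (p, l) hw p l
      rw [cf_self D hp, if_pos rfl, Finset.sum_eq_zero fun k _ => by rw [h0 k, zero_mul]] at h1
      omega
    obtain ⟨k, hk, h1⟩ := hne
    have h2 := Finset.single_le_sum (f := fun k => cf D (w, k) p l) (fun k hk => hall k hk) hk
    have h3 : 1 ≤ ∑ k ∈ T, cf D (w, k) p l := h1.trans h2
    exact_mod_cast h3

theorem qf_move (D : SD P) {w p : Fin d → ℤ} {T : Finset (Fin d)} {z : Fin d → ℝ}
    (hz : z ∈ Qf D w T) {l : Fin d} (hl : ∀ k, k ∉ T → cf D (w, k) p l = 0) (t : ℝ)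
    (ht : z + t • toR (D.e p l) ∈ P) : z + t • toR (D.e p l) ∈ Qf D w T := by
  refine ⟨ht, fun k hk => ?_⟩
  rw [pf_smul_add, hz.2 k hk, hl k hk]
  simp

theorem rect (D : SD P) {w p : Fin d → ℤ} (hw : w ∈ D.Vt) (hp : p ∈ D.Vt) {T : Finset (Fin d)}
    {M : ℝ} (hM : ∀ z ∈ Qf D w T, ∑ k ∈ T, pf D (w, k) z ≤ M) (hpF : toR p ∈ Qf D w T)
    {s l : Fin d} (hs : ∀ k, k ∉ T → cf D (w, k) p s = 0)
    (hl : ∀ k, k ∉ T → cf D (w, k) p l = 0) {A B : ℝ} (hA : 0 ≤ A) (hB : 0 ≤ B)
    (h1 : toR p + A • toR (D.e p s) ∈ P) (h2 : toR p + B • toR (D.e p l) ∈ P)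
    (h3 : toR p + A • toR (D.e p s) + B • toR (D.e p l) ∈ P) : A + B ≤ M := by
  classical
  have hx0 : ∀ k, 0 ≤ pf D (w, k) (toR p) := fun k => pf_nn D (a := (w, k)) hw (D.vmem hp)
  have hz1 := qf_move D hpF hs A h1
  have hz2 := qf_move D hpF hl B h2
  have hz3 := qf_move D hz1 hl B h3
  have hMp := hM _ hpF
  have hM1 := hM _ hz1
  have hM2 := hM _ hz2
  have hM3 := hM _ hz3
  have e1 : ∀ (z : Fin d → ℝ) (t : ℝ) (m : Fin d), ∑ k ∈ T, pf D (w, k) (z + t • toR (D.e p m)) =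
      ∑ k ∈ T, pf D (w, k) z + t * ∑ k ∈ T, (cf D (w, k) p m : ℝ) := by
    intro z t m
    rw [Finset.mul_sum, ← Finset.sum_add_distrib]
    exact Finset.sum_congr rfl fun k _ => pf_smul_add D (w, k) p z t m
  rw [e1] at hM1 hM2
  rw [e1, e1] at hM3
  have hle : ∀ k ∈ T, pf D (w, k) (toR p) ≤ ∑ k ∈ T, pf D (w, k) (toR p) := fun k hk =>
    Finset.single_le_sum (f := fun k => pf D (w, k) (toR p)) (fun k _ => hx0 k) hk
  have hs0 : 0 ≤ ∑ k ∈ T, pf D (w, k) (toR p) := Finset.sum_nonneg fun k _ => hx0 k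
  rcases dec D hw hp hs with ⟨k₁, hk₁, hs1⟩ | hs1
  · have g1 := pf_nn D (a := (w, k₁)) hw h1
    rw [pf_smul_add] at g1
    have g1' := mul_le_mul_of_nonneg_left hs1 hA
    rcases dec D hw hp hl with ⟨k₂, hk₂, hl1⟩ | hl1
    · have g2 := pf_nn D (a := (w, k₂)) hw h2
      rw [pf_smul_add] at g2
      have g2' := mul_le_mul_of_nonneg_left hl1 hB
      by_cases hk : k₁ = k₂
      · subst hk
        have g3 := pf_nn D (a := (w, k₁)) hw h3
        rw [pf_smul_add, pf_smul_add] at g3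
        have := hle k₁ hk₁
        linarith
      · have g3 : pf D (w, k₁) (toR p) + pf D (w, k₂) (toR p) ≤
            ∑ k ∈ T, pf D (w, k) (toR p) := by
          rw [← Finset.add_sum_erase _ _ hk₁]
          have := Finset.single_le_sum (f := fun k => pf D (w, k) (toR p)) (s := T.erase k₁)
            (fun k _ => hx0 k) (Finset.mem_erase.2 ⟨Ne.symm hk, hk₂⟩)
          linarith
        linarith
    · have g2' := mul_le_mul_of_nonneg_left hl1 hB
      have := hle k₁ hk₁
      linarith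
  · have g1' := mul_le_mul_of_nonneg_left hs1 hA
    rcases dec D hw hp hl with ⟨k₂, hk₂, hl1⟩ | hl1
    · have g2 := pf_nn D (a := (w, k₂)) hw h2
      rw [pf_smul_add] at g2
      have g2' := mul_le_mul_of_nonneg_left hl1 hB
      have := hle k₂ hk₂
      linarith
    · have g2' := mul_le_mul_of_nonneg_left hl1 hB
      linarith

/-- The length of a lattice segment in a face. -/
theorem seg_len (D : SD P) {w p : Fin d → ℤ} (hw : w ∈ D.Vt) (hp : p ∈ D.Vt)
    {T : Finset (Fin d)} {M : ℝ} (hM : ∀ z ∈ Qf D w T, ∑ k ∈ T, pf D (w, k) z ≤ M)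
    (hpF : toR p ∈ Qf D w T) {s : Fin d} (hs : ∀ k, k ∉ T → cf D (w, k) p s = 0) {A : ℝ}
    (hA : 0 ≤ A) (h1 : toR p + A • toR (D.e p s) ∈ P) : A ≤ M := by
  have h2 := rect D hw hp hM hpF hs hs hA (le_refl (0 : ℝ)) h1 (by
    rw [zero_smul, add_zero]
    exact D.vmem hp) (by
    rw [zero_smul, add_zero]
    exact h1)
  linarith

theorem Bad.corner {D : SD P} {v : Fin d → ℤ} {T : Finset (Fin d)} {b : (Fin d → ℤ) × Fin d}
    {N : ℕ} (B : Bad D v T b N) (hI : Iso D) {i : Fin d} (hi : i ∈ T) {j : Fin d} (hj : j ∉ T)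
    (hc : 0 ≤ cf D b v j) :
    toR v + (N : ℝ) • toR (D.e v i) + ((d : ℝ) - N) • toR (D.e v j) ∈ P := by
  have hcR : (0 : ℝ) ≤ (cf D b v j : ℝ) := by exact_mod_cast hc
  have hH := B.H0 hI
  have hN := B.N0
  obtain ⟨c, hc'⟩ : ∃ c : ℝ, c = (cf D b v j : ℝ) := ⟨_, rfl⟩
  obtain ⟨h, hh⟩ : ∃ h : ℝ, h = (d : ℝ) - N := ⟨_, rfl⟩
  have h1 := hI.long v T b N B j hj
  have h2 := B.far_long hI hi hj
  rw [← hc'] at h2 hcR
  rw [← hh] at h1 h2 hH ⊢
  have hden : 0 < N + h * c := by
    have := mul_nonneg hH.le hcR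
    linarith
  have h3 := D.convex h1 h2 (a := 1 - N / (N + h * c)) (b := N / (N + h * c))
    (by
      rw [sub_nonneg, div_le_one hden]
      have := mul_nonneg hH.le hcR
      linarith)
    (div_nonneg hN.le hden.le) (by ring)
  have h4 : (1 - N / (N + h * c)) • (toR v + h • toR (D.e v j)) +
      (N / (N + h * c)) • (toR v + (N : ℝ) • toR (D.e v i) +
        h • (toR (D.e v j) + c • toR (D.e v i))) =
      toR v + ((N / (N + h * c)) * (N + h * c)) • toR (D.e v i) + h • toR (D.e v j) := by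
    module
  rw [h4, div_mul_cancel₀ _ hden.ne'] at h3
  exact h3

theorem dirs_in {D : SD P} (hI : Iso D) {w p : Fin d → ℤ} (hw : w ∈ D.Vt)
    {T : Finset (Fin d)} {M : ℝ} (hM : ∀ z ∈ Qf D w T, ∑ k ∈ T, pf D (w, k) z ≤ M)
    (hMd : M < d) {K : Finset (Fin d)} {r : (Fin d → ℤ) × Fin d} {n : ℕ} (B : Bad D p K r n)
    (hc : ∀ l, l ∉ K → 0 ≤ cf D r p l) (hpF : toR p ∈ Qf D w T) {s : Fin d} (hsK : s ∈ K)
    (hs : ∀ k, k ∉ T → cf D (w, k) p s = 0) {l : Fin d}
    (hl : ∀ k, k ∉ T → cf D (w, k) p l = 0) : l ∈ K := by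
  by_contra hlK
  have h1 := rect D hw B.hv hM hpF hs hl (Nat.cast_nonneg n) (B.H0 hI).le (B.memT hsK)
    (hI.long p K r n B l hlK) (B.corner hI hsK hlK (hc l hlK))
  linarith

theorem nn_all {D : SD P} (hI : Iso D) : ∀ N : ℕ, ∀ (v : Fin d → ℤ) (T : Finset (Fin d))
    (b : (Fin d → ℤ) × Fin d), Bad D v T b N → ∀ j, j ∉ T → 0 ≤ cf D b v j := by
  classical
  intro N
  induction N using Nat.strong_induction_on with
  | _ N ih =>
    intro v T b B j hj
    by_contra hneg
    have hc1 : cf D b v j ≤ -1 := by omega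
    have hc1' : (cf D b v j : ℝ) ≤ -1 := by exact_mod_cast hc1
    obtain ⟨w, L, τ, A⟩ := far_end D B.hv j
    have hL0 : (0 : ℝ) < L := by exact_mod_cast A.pos
    have hNpos := B.N0
    have hNd := B.Nd hI
    -- the value of `b` at `w`
    have hbw : pf D b (toR w) = N + L * (cf D b v j : ℝ) := by
      rw [A.pf_q, B.pfv]
    have hbw0 := pf_nn D B.hb (D.vmem A.hq)
    have hbwne : pf D b (toR w) ≠ 0 := fun h => hj ((B.hT j).2 ((A.end_iff B.hb B.pos).2 h))
    obtain ⟨N₁, hN₁⟩ : ∃ N₁ : ℕ, pf D b (toR w) = (N₁ : ℝ) := by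
      have e1 := pf_int D b w
      have e2 := hbw0
      rw [e1] at e2
      have e3 : 0 ≤ D.u b.1 b.2 ⬝ᵥ (w - b.1) := by exact_mod_cast e2
      obtain ⟨N₁, hN₁⟩ := Int.eq_ofNat_of_zero_le e3
      refine ⟨N₁, ?_⟩
      rw [e1, hN₁]
      simp
    have hN₁L : (N₁ : ℝ) + L ≤ N := by
      have h1 := mul_le_mul_of_nonneg_left hc1' hL0.le
      linarith
    have hN₁N : N₁ < N := by
      have h1 : (N₁ : ℝ) < N := by linarith
      exact_mod_cast h1
    have hTlt : (N : ℝ) + 1 ≤ T.card := by exact_mod_cast B.lt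
    have hTne : ∀ i ∈ T, i ≠ j := fun i hi h => hj (h ▸ hi)
    -- the slopes `κ`
    have hκ : ∀ i ∈ T, 0 ≤ cf D (v, j) w (τ i) := by
      intro i hi
      have h1 := pf_nn D (a := (w, τ j)) A.hq (B.memT hi)
      rw [pf_smul_add, A.pf_opp_v, A.cf_opp_l (hTne i hi)] at h1
      by_contra hcon
      have h2 : cf D (v, j) w (τ i) ≤ -1 := by omega
      have h3 : (cf D (v, j) w (τ i) : ℝ) ≤ -1 := by exact_mod_cast h2
      have h4 := mul_le_mul_of_nonneg_left h3 hNpos.le
      have h5 : (0 : ℝ) ≤ N₁ := Nat.cast_nonneg _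
      have h6 : (N₁ : ℝ) ≠ 0 := by
        rw [← hN₁]
        exact hbwne
      have h7 : (0 : ℝ) < N₁ := lt_of_le_of_ne h5 (Ne.symm h6)
      linarith
    have hcfT : ∀ s ∈ T.map τ.toEmbedding, (cf D b w s : ℝ) ≤ -1 := by
      intro s hs
      rw [Finset.mem_map] at hs
      obtain ⟨i, hi, rfl⟩ := hs
      change (cf D b w (τ i) : ℝ) ≤ -1
      have h1 := A.cf_l b (hTne i hi)
      rw [B.cfT hi] at h1
      have h2 := mul_nonpos_of_nonneg_of_nonpos (hκ i hi) (by omega : cf D b v j ≤ 0)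
      have h3 : cf D b w (τ i) ≤ -1 := by omega
      exact_mod_cast h3
    have hM : ∀ z ∈ Qf D w (T.map τ.toEmbedding),
        ∑ k ∈ T.map τ.toEmbedding, pf D (w, k) z ≤ N₁ := by
      intro z hz
      have h1 := pf_nn D B.hb hz.1
      rw [pf_expand D b A.hq z, hN₁] at h1
      have h2 : ∑ l, pf D (w, l) z * (cf D b w l : ℝ) =
          ∑ l ∈ T.map τ.toEmbedding, pf D (w, l) z * (cf D b w l : ℝ) := by
        symm
        refine Finset.sum_subset (Finset.subset_univ _) fun k _ hk => ?_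
        rw [hz.2 k hk, zero_mul]
      have h3 : ∑ l ∈ T.map τ.toEmbedding, pf D (w, l) z * (cf D b w l : ℝ) ≤
          ∑ l ∈ T.map τ.toEmbedding, pf D (w, l) z * (-1) :=
        Finset.sum_le_sum fun l hl =>
          mul_le_mul_of_nonneg_left (hcfT l hl) (pf_nn D (a := (w, l)) A.hq hz.1)
      rw [← Finset.sum_mul] at h3
      linarith
    -- a short simplex at some vertex of the face
    have hbox : toR (bx D w (T.map τ.toEmbedding)) ∉ P := by
      intro hP
      have h1 := pf_nn D B.hb hP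
      rw [pf_bx, hN₁] at h1
      have h2 : ∑ i ∈ T.map τ.toEmbedding, (cf D b w i : ℝ) ≤
          ∑ i ∈ T.map τ.toEmbedding, (-1 : ℝ) := Finset.sum_le_sum hcfT
      rw [Finset.sum_const, nsmul_eq_mul, Finset.card_map] at h2
      linarith
    obtain ⟨p, hp, S, r, hr, hr0, hrS, hSE, hpQ, hSd⟩ := find D A.hq hbox
    obtain ⟨K, n, hSK, Bp⟩ := bad_of D hp hr hr0 hrS hSE
    obtain ⟨s, hs⟩ : S.Nonempty := by
      rw [← Finset.card_pos]
      have h1 : (0 : ℝ) < S.card := by linarith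
      exact_mod_cast h1
    have hn1 : (n : ℝ) ≤ N₁ :=
      seg_len D A.hq hp hM hpQ (hSd s hs) (Nat.cast_nonneg n) (Bp.memT (hSK hs))
    have hnN : n < N := by
      have h1 : n ≤ N₁ := by exact_mod_cast hn1
      omega
    have hMd : (N₁ : ℝ) < d := by linarith
    have hdirs : ∀ l, (∀ k, k ∉ T.map τ.toEmbedding → cf D (w, k) p l = 0) → l ∈ K := fun l hl =>
      dirs_in hI A.hq hM hMd Bp (ih n hnN p K r Bp) hpQ (hSK hs) (hSd s hs) hl
    have hwK : toR w ∈ Qf D p K := by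
      refine ⟨D.vmem A.hq, fun l hl => qf_back D A.hq hp hpQ ?_⟩
      by_contra hcon
      push Not at hcon
      exact hl (hdirs l hcon)
    obtain ⟨K₁, r₁, N₂, B₁⟩ := bad_vertex Bp A.hq hwK
    have hNd₂ := B₁.Nd hI
    by_cases hcase : ∃ i ∈ T, τ i ∈ K₁
    swap
    · -- no common direction
      push Not at hcase
      obtain ⟨i, hi⟩ : T.Nonempty := by
        rw [← Finset.card_pos]
        have := B.lt
        omega
      have h1 := pf_nn D B.hb (hI.long w K₁ r₁ N₂ B₁ (τ i) (hcase i hi))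
      rw [pf_smul_add, hN₁] at h1
      have h2 := hcfT (τ i) (Finset.mem_map_of_mem τ.toEmbedding hi)
      have h3 := mul_le_mul_of_nonneg_left h2 (B₁.H0 hI).le
      have h4 : K₁ ⊆ (T.map τ.toEmbedding)ᶜ := by
        intro k hk
        rw [Finset.mem_compl, Finset.mem_map]
        rintro ⟨i, hi, h⟩
        exact hcase i hi (h ▸ hk)
      have h5 := Finset.card_le_card h4
      have h6 := Finset.card_add_card_compl (T.map τ.toEmbedding)
      rw [Fintype.card_fin, Finset.card_map] at h6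
      have h7 := B₁.lt
      have h8 : (N₂ : ℝ) + T.card < d := by exact_mod_cast (by omega : N₂ + T.card < d)
      linarith
    · obtain ⟨i, hi, hiK⟩ := hcase
      have h1 := pf_nn D B.hb (B₁.memT hiK)
      rw [pf_smul_add, hN₁] at h1
      have h2 := hcfT (τ i) (Finset.mem_map_of_mem τ.toEmbedding hi)
      have h3 := mul_le_mul_of_nonneg_left h2 (Nat.cast_nonneg (α := ℝ) N₂)
      by_cases hjK : τ j ∈ K₁
      · obtain ⟨Kv, hsub, Bv⟩ := bad_step B₁ hjK A.symm
        have h4 : i ∈ Kv := by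
          apply hsub
          rw [Finset.mem_map]
          exact ⟨τ i, hiK, τ.symm_apply_apply i⟩
        have h5 := Bv.cfT h4
        rw [A.cf_opp_l (hTne i hi)] at h5
        have h6 := hκ i hi
        omega
      · have h4 := pf_nn D (a := (v, j)) A.hv (hI.long w K₁ r₁ N₂ B₁ (τ j) hjK)
        rw [pf_smul_add, A.pf_i_q, A.cf_i, cf_self D A.hv, if_pos rfl] at h4
        push_cast at h4
        linarith

theorem Bad.cf_nn {D : SD P} {v : Fin d → ℤ} {T : Finset (Fin d)} {b : (Fin d → ℤ) × Fin d}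
    {N : ℕ} (B : Bad D v T b N) (hI : Iso D) {j : Fin d} (hj : j ∉ T) : 0 ≤ cf D b v j :=
  nn_all hI N v T b B j hj

end H98OD
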