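import Pool.Agent.H98.OI.Wedge

/-!
# Transport of short simplex faces in the directions of growth zero

`Bad.trans`: if `j ∉ T` has slope `cf D b w j = 0`, the short simplex face at `w` is transported to the other
end `w'` of the edge `j`.

PROOF. The face `F'` at `w'` in the transported directions is contained in `∑ x_k ≤ N`, and the parallelepiped at `w'` is
not in `P`; so some vertex `p` of `F'` lies on a short simplex `K` with a direction in `F'` (`find`), and all directions
of `F'` at `p` are in `K` (`dirs_in`). So `w'` lies on a short simplex face `K₁`, of edge length `N₂`. If `K₁` has no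
direction in `F'`, then `d - N₂ ≤ N` and `N₂ < |K₁| ≤ d - |T|`, a contradiction. So all directions of `F'` at `w'` are in
`K₁` (`dirs_in`). Let `q` be the end of the edge `τ i`, of length `n = N₂`, and suppose `n < N`. The facet at `q` opposite to
`w'` is nonnegative at `w + N e_i`, so the edge vector at `q` transported from the edge to `w` is the old one plus
`α e_{τ i}` with `α ≥ 1`. It is not in the short simplex at `q`, so the edge has length `≥ d - n`, and
`pf b q - (d - n) α = N - n - (d - n) α ≥ 0`, a contradiction to `N < d`.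
-/

namespace H98OD

open H66OD H19OZ Matrix

variable {d : ℕ} {P : Set (Fin d → ℝ)}

/-- The transport lemma. -/
theorem Bad.trans {D : SD P} (hI : Iso D) {w : Fin d → ℤ} {T : Finset (Fin d)}
    {b : (Fin d → ℤ) × Fin d} {N : ℕ} (B : Bad D w T b N) {j : Fin d} (hj : j ∉ T)
    (hc : cf D b w j = 0) {w' : Fin d → ℤ} {L : ℕ} {τ : Equiv.Perm (Fin d)}
    (A : Adj D w j w' L τ) : Bad D w' (T.map τ.toEmbedding) b N := by
  classical
  have hNd := B.Nd hI
  have hTlt : (N : ℝ) + 1 ≤ T.card := by exact_mod_cast B.lt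
  have hpfw' : pf D b (toR w') = N := by
    rw [A.pf_q, B.pfv, hc]
    push_cast
    ring
  have hpos : 0 < pf D b (toR w') := by
    rw [hpfw']
    exact B.N0
  have hcfl : ∀ l, l ≠ j → cf D b w' (τ l) = cf D b w l := by
    intro l hl
    rw [A.cf_l b hl, hc, mul_zero, add_zero]
  have hcfj : cf D b w' (τ j) = 0 := by
    rw [A.cf_i, hc, neg_zero]
  have hTne : ∀ i ∈ T, i ≠ j := fun i hi h => hj (h ▸ hi)
  have hcfT : ∀ s ∈ T.map τ.toEmbedding, cf D b w' s = -1 := by
    intro s hs
    rw [Finset.mem_map] at hs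
    obtain ⟨i, hi, rfl⟩ := hs
    change cf D b w' (τ i) = -1
    rw [hcfl i (hTne i hi), B.cfT hi]
  have hM : ∀ z ∈ Qf D w' (T.map τ.toEmbedding),
      ∑ k ∈ T.map τ.toEmbedding, pf D (w', k) z ≤ N := by
    intro z hz
    have h1 := pf_nn D B.hb hz.1
    rw [pf_expand D b A.hq z, hpfw'] at h1
    have h2 : ∑ l, pf D (w', l) z * (cf D b w' l : ℝ) =
        -∑ l ∈ T.map τ.toEmbedding, pf D (w', l) z := by
      rw [← Finset.sum_neg_distrib]
      symm
      apply Finset.sum_subset_zero_on_sdiff (Finset.subset_univ _)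
      · intro k hk
        rw [hz.2 k (Finset.mem_sdiff.1 hk).2, zero_mul]
      · intro k hk
        rw [hcfT k hk]
        push_cast
        ring
    linarith
  -- a short simplex at some vertex of the face
  have hbox : toR (bx D w' (T.map τ.toEmbedding)) ∉ P := by
    intro hP
    have h1 := pf_nn D B.hb hP
    rw [pf_bx, hpfw', Finset.sum_congr rfl fun s hs => by rw [hcfT s hs], Finset.sum_const,
      nsmul_eq_mul, Finset.card_map] at h1
    push_cast at h1
    linarith
  obtain ⟨p, hp, S, r, hr, hr0, hrS, hSE, hpQ, hSd⟩ := find D A.hq hbox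
  obtain ⟨K, n, hSK, Bp⟩ := bad_of D hp hr hr0 hrS hSE
  obtain ⟨s₀, hs₀⟩ : S.Nonempty := by
    rw [← Finset.card_pos]
    have h1 : (0 : ℝ) < S.card := by linarith
    exact_mod_cast h1
  have hMd : (N : ℝ) < d := by linarith
  have hdirs : ∀ l, (∀ k, k ∉ T.map τ.toEmbedding → cf D (w', k) p l = 0) → l ∈ K := fun l hl =>
    dirs_in hI A.hq hM hMd Bp (fun l hl => Bp.cf_nn hI hl) hpQ (hSK hs₀) (hSd s₀ hs₀) hl
  have hwK : toR w' ∈ Qf D p K := by
    refine ⟨D.vmem A.hq, fun l hl => qf_back D A.hq hp hpQ ?_⟩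
    by_contra hcon
    push Not at hcon
    exact hl (hdirs l hcon)
  obtain ⟨K₁, r₁, N₂, B₁⟩ := bad_vertex Bp A.hq hwK
  have hNd₂ := B₁.Nd hI
  -- all directions of `F'` at `w'` are in `K₁`
  have hself : ∀ i ∈ T, ∀ k, k ∉ T.map τ.toEmbedding → cf D (w', k) w' (τ i) = 0 := by
    intro i hi k hk
    rw [cf_self D A.hq, if_neg]
    rintro rfl
    exact hk (Finset.mem_map_of_mem τ.toEmbedding hi)
  have hcase : ∃ i ∈ T, τ i ∈ K₁ := by
    by_contra hcase
    push Not at hcase
    obtain ⟨i, hi⟩ : T.Nonempty := by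
      rw [← Finset.card_pos]
      have := B.lt
      omega
    have h1 := pf_nn D B.hb (hI.long w' K₁ r₁ N₂ B₁ (τ i) (hcase i hi))
    rw [pf_smul_add, hpfw', hcfT (τ i) (Finset.mem_map_of_mem τ.toEmbedding hi)] at h1
    push_cast at h1
    have h4 : K₁ ⊆ (T.map τ.toEmbedding)ᶜ := by
      intro k hk
      rw [Finset.mem_compl, Finset.mem_map]
      rintro ⟨i, hi, h⟩
      exact hcase i hi (h ▸ hk)
    have h5 := Finset.card_le_card h4
    have h6 := Finset.card_add_card_compl (T.map τ.toEmbedding)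
    rw [Fintype.card_fin, Finset.card_map] at h6
    have h7 := B₁.lt
    have h8 : (N₂ : ℝ) + T.card < d := by exact_mod_cast (by omega : N₂ + T.card < d)
    linarith
  obtain ⟨i₀, hi₀, hi₀K⟩ := hcase
  have hTK : ∀ i ∈ T, τ i ∈ K₁ := fun i hi =>
    dirs_in hI A.hq hM hMd B₁ (fun l hl => B₁.cf_nn hI hl) (qf_self D A.hq _) hi₀K
      (hself i₀ hi₀) (hself i hi)
  refine ⟨A.hq, B.hb, B.N1, hpfw', by rw [Finset.card_map]; exact B.lt, fun s => ⟨?_, ?_⟩⟩
  swap
  · intro hE
    have h1 := (end_cf D A.hq B.hb hpos hE).1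
    obtain ⟨l, rfl⟩ := τ.surjective s
    rw [Finset.mem_map]
    refine ⟨l, ?_, rfl⟩
    by_contra hl
    by_cases hlj : l = j
    · rw [hlj, hcfj] at h1
      omega
    · rw [hcfl l hlj] at h1
      have := B.cf_nn hI hl
      omega
  · intro hs
    rw [Finset.mem_map] at hs
    obtain ⟨i, hi, rfl⟩ := hs
    change End D w' (τ i) b
    have hij : i ≠ j := hTne i hi
    have hcfi : cf D b w' (τ i) = -1 := by
      rw [hcfl i hij, B.cfT hi]
    have hsK₁ := hTK i hi
    obtain ⟨q, n', ρ, A₂⟩ := far_end D A.hq (τ i)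
    have hn' := (B₁.swap hsK₁ A₂).1
    subst hn'
    obtain ⟨K', hsub, Bq⟩ := bad_step B₁ hsK₁ A₂
    rw [A₂.end_iff B.hb hpos]
    have hbq : pf D b (toR q) = N - n' := by
      rw [A₂.pf_q, hpfw', hcfi]
      push_cast
      ring
    have hbq0 := pf_nn D B.hb (D.vmem A₂.hq)
    by_contra hne
    have hnN : (n' : ℝ) < N := by
      rcases hbq0.lt_or_eq with h | h
      · rw [hbq] at h
        linarith
      · exact absurd h.symm hne
    have hji : τ j ≠ τ i := fun h => hij (τ.injective h).symm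
    obtain ⟨α, hα⟩ : ∃ α : ℤ, α = cf D (w', τ i) q (ρ (τ j)) := ⟨_, rfl⟩
    -- `α ≥ 1`
    have hα1 : 1 ≤ α := by
      have hz := B.memT hi
      have h1 := pf_nn D (a := (q, ρ (τ i))) A₂.hq hz
      rw [pf_expand D (q, ρ (τ i)) A.hq, A₂.pf_opp_v] at h1
      have h2 : ∑ l, pf D (w', l) (toR w + (N : ℝ) • toR (D.e w i)) *
          (cf D (q, ρ (τ i)) w' l : ℝ) =
          -(N : ℝ) + pf D (w', τ j) (toR w + (N : ℝ) • toR (D.e w i)) * (α : ℝ) := by
        rw [← Equiv.sum_comp τ, ← Finset.add_sum_erase _ _ (Finset.mem_univ i),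
          ← Finset.add_sum_erase _ _ (Finset.mem_erase.2 ⟨Ne.symm hij, Finset.mem_univ j⟩)]
        have e1 : pf D (w', τ i) (toR w + (N : ℝ) • toR (D.e w i)) = N := by
          rw [A.pf_l hij, pf_smul_add, pf_self, cf_self D B.hv, if_pos rfl]
          push_cast
          ring
        have e2 : ∑ l ∈ (Finset.univ.erase i).erase j,
            pf D (w', τ l) (toR w + (N : ℝ) • toR (D.e w i)) *
              (cf D (q, ρ (τ i)) w' (τ l) : ℝ) = 0 := by
          refine Finset.sum_eq_zero fun l hl => ?_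
          have hlj : l ≠ j := Finset.ne_of_mem_erase hl
          have hli : l ≠ i := Finset.ne_of_mem_erase (Finset.mem_of_mem_erase hl)
          rw [A.pf_l hlj, pf_smul_add, pf_self, cf_self D B.hv, if_neg hli]
          push_cast
          ring
        rw [e1, e2, A₂.cf_opp, A₂.cf_opp_l hji, ← hα]
        push_cast
        ring
      rw [h2] at h1
      have h3 := pf_nn D (a := (w', τ j)) A.hq hz
      by_contra hcon
      have h4 : α ≤ 0 := by omega
      have h5 : (α : ℝ) ≤ 0 := by exact_mod_cast h4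
      have h6 := mul_nonpos_of_nonneg_of_nonpos h3 h5
      linarith
    have hα1' : (1 : ℝ) ≤ α := by exact_mod_cast hα1
    -- the direction `ρ (τ j)` leaves the short simplex at `q`
    have hjK : ρ (τ j) ∉ K' := by
      intro hcon
      have h1 := Bq.cfT hcon
      rw [← hα] at h1
      omega
    have h1 := pf_nn D B.hb (hI.long q K' (w', τ i) n' Bq (ρ (τ j)) hjK)
    rw [pf_smul_add, hbq, A₂.cf_l b hji, hcfj, hcfi, ← hα] at h1
    push_cast at h1
    have h2 := mul_le_mul_of_nonneg_left hα1' (B₁.H0 hI).le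
    linarith

end H98OD
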