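import Pool.Agent.H98.OI.Nn

/-!
# The wedge over a short simplex face

`Bad.wedge`: the region `x_i ≥ 0`, `pf b ≥ 0`, `∑ j ∉ T, x_j ≤ d - N` is contained in `P`.
-/

namespace H98OD

open H66OD H19OZ Matrix

variable {d : ℕ} {P : Set (Fin d → ℝ)}

namespace Bad

variable {D : SD P} {v : Fin d → ℤ} {T : Finset (Fin d)} {b : (Fin d → ℤ) × Fin d} {N : ℕ}

theorem pfb (B : Bad D v T b N) (z : Fin d → ℝ) :
    pf D b z = N + ∑ j ∈ Tᶜ, (cf D b v j : ℝ) * pf D (v, j) z - ∑ i ∈ T, pf D (v, i) z := by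
  classical
  rw [pf_expand D b B.hv z, B.pfv, ← Finset.sum_add_sum_compl T]
  have e1 : ∑ i ∈ T, pf D (v, i) z * (cf D b v i : ℝ) = -∑ i ∈ T, pf D (v, i) z := by
    rw [← Finset.sum_neg_distrib]
    refine Finset.sum_congr rfl fun i hi => ?_
    rw [B.cfT hi]
    push_cast
    ring
  have e2 : ∑ i ∈ Tᶜ, pf D (v, i) z * (cf D b v i : ℝ) =
      ∑ j ∈ Tᶜ, (cf D b v j : ℝ) * pf D (v, j) z :=
    Finset.sum_congr rfl fun i _ => mul_comm _ _
  rw [e1, e2]
  ring

theorem wedge (B : Bad D v T b N) (hI : Iso D) (z : Fin d → ℝ) (h1 : ∀ i, 0 ≤ pf D (v, i) z)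
    (h2 : 0 ≤ pf D b z) (h3 : ∑ j ∈ Tᶜ, pf D (v, j) z ≤ (d : ℝ) - N) : z ∈ P := by
  classical
  set x : Fin d → ℝ := fun i => pf D (v, i) z with hx
  set c : Fin d → ℝ := fun j => (cf D b v j : ℝ) with hc
  have hc0 : ∀ j ∈ Tᶜ, 0 ≤ c j := by
    intro j hj
    have := B.cf_nn hI (Finset.mem_compl.1 hj)
    simp only [hc]
    exact_mod_cast this
  obtain ⟨s, hs⟩ : ∃ s : ℝ, s = N + ∑ j ∈ Tᶜ, c j * x j := ⟨_, rfl⟩
  have hspos : 0 < s := by
    have h4 : 0 ≤ ∑ j ∈ Tᶜ, c j * x j :=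
      Finset.sum_nonneg fun j hj => mul_nonneg (hc0 j hj) (h1 j)
    have := B.N0
    rw [hs]
    linarith
  have hb : pf D b z = s - ∑ i ∈ T, x i := by
    rw [B.pfb z, hs]
  -- the columns
  have hA0 : toR v + ∑ j ∈ Tᶜ, x j • toR (D.e v j) ∈ P :=
    conv_cols D.convex (B.H0 hI) (D.vmem B.hv) Tᶜ (fun j => toR (D.e v j))
      (fun j hj => hI.long v T b N B j (Finset.mem_compl.1 hj)) x (fun j _ => h1 j) h3
  have hAi : ∀ i ∈ T, toR v + (N : ℝ) • toR (D.e v i) +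
      ∑ j ∈ Tᶜ, x j • (toR (D.e v j) + c j • toR (D.e v i)) ∈ P := fun i hi =>
    conv_cols D.convex (B.H0 hI) (B.memT hi) Tᶜ
      (fun j => toR (D.e v j) + c j • toR (D.e v i))
      (fun j hj => B.far_long hI hi (Finset.mem_compl.1 hj)) x (fun j _ => h1 j) h3
  have h5 := D.convex.sum_mem (t := Finset.insertNone T)
    (w := fun o => o.elim (pf D b z / s) fun i => x i / s)
    (z := fun o => o.elim (toR v + ∑ j ∈ Tᶜ, x j • toR (D.e v j)) fun i =>
      toR v + (N : ℝ) • toR (D.e v i) +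
        ∑ j ∈ Tᶜ, x j • (toR (D.e v j) + c j • toR (D.e v i)))
    (by
      rintro (_ | i) hi
      · exact div_nonneg h2 hspos.le
      · exact div_nonneg (h1 i) hspos.le)
    (by
      rw [Finset.sum_insertNone]
      simp only [Option.elim_none, Option.elim_some]
      rw [← Finset.sum_div, hb, ← add_div, sub_add_cancel, div_self hspos.ne'])
    (by
      rintro (_ | i) hi
      · exact hA0
      · exact hAi i (by simpa using hi))
  rw [Finset.sum_insertNone] at h5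
  simp only [Option.elim_none, Option.elim_some] at h5
  have h6 : (pf D b z / s) • (toR v + ∑ j ∈ Tᶜ, x j • toR (D.e v j)) +
      ∑ i ∈ T, (x i / s) • (toR v + (N : ℝ) • toR (D.e v i) +
        ∑ j ∈ Tᶜ, x j • (toR (D.e v j) + c j • toR (D.e v i))) = z := by
    have e0 : ∀ i, toR v + (N : ℝ) • toR (D.e v i) +
        ∑ j ∈ Tᶜ, x j • (toR (D.e v j) + c j • toR (D.e v i)) =
        (toR v + ∑ j ∈ Tᶜ, x j • toR (D.e v j)) + s • toR (D.e v i) := by
      intro i
      have e1 : ∑ j ∈ Tᶜ, x j • (toR (D.e v j) + c j • toR (D.e v i)) =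
          ∑ j ∈ Tᶜ, x j • toR (D.e v j) + (∑ j ∈ Tᶜ, c j * x j) • toR (D.e v i) := by
        rw [Finset.sum_smul, ← Finset.sum_add_distrib]
        refine Finset.sum_congr rfl fun j _ => ?_
        rw [smul_add, smul_smul, mul_comm (x j)]
      rw [e1, hs, add_smul]
      abel
    have e2 : ∑ i ∈ T, (x i / s) • (toR v + (N : ℝ) • toR (D.e v i) +
        ∑ j ∈ Tᶜ, x j • (toR (D.e v j) + c j • toR (D.e v i))) =
        (∑ i ∈ T, x i / s) • (toR v + ∑ j ∈ Tᶜ, x j • toR (D.e v j)) +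
          ∑ i ∈ T, x i • toR (D.e v i) := by
      rw [Finset.sum_smul, ← Finset.sum_add_distrib]
      refine Finset.sum_congr rfl fun i _ => ?_
      rw [e0 i, smul_add, smul_smul, div_mul_cancel₀ _ hspos.ne']
    rw [e2, ← add_assoc, ← add_smul, ← Finset.sum_div, hb, ← add_div, sub_add_cancel,
      div_self hspos.ne', one_smul]
    have e3 := span_pf D B.hv z
    rw [← Finset.sum_add_sum_compl T] at e3
    conv_rhs => rw [e3]
    abel
  rw [h6] at h5
  exact h5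

end Bad

end H98OD
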